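import Mathlib

set_option autoImplicit false

/-!
`MP_e9f532_co`, upper bound `C n log n 2^(n/2)` for the deficiency: definitions.

The ground set `G R` has two sides with `R` pairs each. A word selects one point of every pair.
A trial `t = (w, f)` gives the two cubes `half w ∪ ov t` and `half (opposite word) ∪ ov t`, where
the overlap `ov t` is the range of `f : Fin 6 → G R`. The trials are indexed by a type
(one number for each side) and a number below `M`.
-/

namespace Pool.Agent.Lib.MP_e9f532_co.Nl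

open Finset

/-- The ground set: (side, (pair, point)). -/
abbrev G (R : ℕ) := Bool × (Fin R × Bool)

/-- Words: one bit for every (side, pair). -/
abbrev Word (R : ℕ) := Bool × Fin R → Bool

/-- A trial: a word and the overlap points. -/
abbrev Trial (R : ℕ) := Word R × (Fin 6 → G R)

/-- Indices of trials: a type and a number. -/
abbrev Idx (R M : ℕ) := (Bool → Fin (2 * R + 1)) × Fin M

/-- The selected points of a word. -/
def half {R : ℕ} (w : Word R) : Finset (G R) := univ.filter (fun p => p.2.2 = w (p.1, p.2.1))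

/-- The word of a trial (`b = false`) and its opposite (`b = true`). -/
def wd {R : ℕ} (t : Trial R) (b : Bool) : Word R := fun i => Bool.xor b (t.1 i)

/-- The overlap of a trial. -/
def ov {R : ℕ} (t : Trial R) : Finset (G R) := univ.image t.2

/-- The two cubes of a trial. -/
def cube {R : ℕ} (t : Trial R) (b : Bool) : Finset (G R) := half (wd t b) ∪ ov t

/-- The part of a set on the side `s`. -/
def side {R : ℕ} (s : Bool) (C : Finset (G R)) : Finset (G R) := C.filter (fun p => p.1 = s)

/-- The size of each of the two parts of a set of size `a`. -/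
def hh (a : ℕ) : ℕ := if a ≤ 1 then a else (a + 3) / 2

/-- Tag data: for every level `a` a matching of `K` pairs of pairs, the levels being disjoint. -/
structure Tags (R K : ℕ) where
  /-- left ends -/
  l : ℕ → Fin K → Fin R
  /-- right ends -/
  r : ℕ → Fin K → Fin R
  ne : ∀ a i a' i', l a i ≠ r a' i'
  injl : ∀ a, Function.Injective (l a)
  injr : ∀ a, Function.Injective (r a)
  inj : ∀ a a' i i', a ≤ 2 * R → a' ≤ 2 * R → l a i = l a' i' → r a i = r a' i' → a = a'

/-- The tag number `i` of level `a` for the side `s`; it lies on the side `!s`. -/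
def tag {R K : ℕ} (T : Tags R K) (s : Bool) (a : ℕ) (i : Fin K) : Finset (G R) :=
  {(!s, (T.l a i, false)), (!s, (T.r a i, false))}

section Om

variable {R K M : ℕ} (T : Tags R K) (om : Idx R M → Trial R)

/-- The set `P` is weak at level `a` on side `s`: it contains no tag of level `a`, or its side `s`
lies in a cube whose type is at least `a` on the side `s`. -/
def Weak (s : Bool) (a : ℕ) (P : Finset (G R)) : Prop :=
  (∀ i, ¬ tag T s a i ⊆ P) ∨
    ∃ (l : Idx R M) (b : Bool), a ≤ (l.1 s : ℕ) ∧ side s P ⊆ cube (om l) b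

/-- The sets for which the cube `(k, b)` is responsible (a down-closed family). -/
def Resp (k : Idx R M) (b : Bool) (P : Finset (G R)) : Prop :=
  P ⊆ cube (om k) b ∧ (∀ s, (side s P).card ≤ (k.1 s : ℕ)) ∧
    ((∃ s, (k.1 s : ℕ) ≤ 3) ∨ ∃ s a, a ≤ 2 * R ∧ hh a = (k.1 s : ℕ) ∧ Weak T om s a P)

/-- Main members (before the filter). -/
def IsMain (s : Bool) (P : Finset (G R)) : Prop :=
  ∃ (A : Finset (G R)) (i : Fin K), (∀ p ∈ A, p.1 = s) ∧ 3 ≤ A.card ∧ P = A ∪ tag T s A.card i

/-- Second stage members (before the filter). -/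
def IsSec (P : Finset (G R)) : Prop :=
  (∃ (k : Idx R M) (b : Bool), (∀ s, (side s P).card = (k.1 s : ℕ)) ∧ Resp T om k b P) ∧
    ∀ s a i, a ≤ 2 * R → ¬ side (!s) P ⊆ tag T s a i

/-- The filter for main members and for second stage members. -/
def InFam (P : Finset (G R)) : Prop :=
  ((∃ s, IsMain T s P) ∧ ∀ k b, ¬ Resp T om k b P) ∨
    (IsSec T om P ∧ ∀ k b, (∃ s, (side s P).card < (k.1 s : ℕ)) → ¬ Resp T om k b P)

/-- Unsafe sets: one side lies inside a tag. -/
def Unsafe (C : Finset (G R)) : Prop :=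
  ∃ s a i, a ≤ 2 * R ∧ side (!s) C ⊆ tag T s a i

/-- Exceptional sets for the chosen trials. -/
def Exc (q e : ℕ) (C : Finset (G R)) : Prop :=
  C.card ≤ 2 * q + 8 ∨
  (∃ k l b b', k ≠ l ∧ (C \ cube (om k) b).card < q ∧ (C \ cube (om l) b').card < q) ∨
  (∃ k b, C ⊆ cube (om k) b ∧ ∃ s, (side s C).card ≤ 4) ∨
  (∃ k b, C ⊆ cube (om k) b ∧ ∃ s a, a ≤ 2 * R ∧
    (univ.filter (fun i : Fin K => tag T s a i ⊆ C)).card < e) ∨
  (∃ k l b b', k ≠ l ∧ C ⊆ cube (om k) b ∧ ∃ s, (side s C \ cube (om l) b').card < q)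

/-- The trial `t` is good for `C` (own type `τ`; only the trials of other types matter). -/
def GoodTrial (τ : Bool → Fin (2 * R + 1)) (C : Finset (G R)) (t : Trial R) : Prop :=
  ov t ⊆ C ∧ (∀ b s, (side s (C ∩ cube t b)).card = (τ s : ℕ)) ∧
    ∀ k b', k.1 ≠ τ → ∀ b, ¬ Resp T om k b' (C ∩ cube t b)

/-- The trials are far from each other on both sides. -/
def Far (d : ℕ) : Prop := ∀ k l : Idx R M, k ≠ l → ∀ (b b' s : Bool),
  d < (univ.filter (fun r : Fin R => wd (om k) b (s, r) ≠ wd (om l) b' (s, r))).card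

/-- Every cube contains many tags of every level. -/
def Rich : Prop := ∀ (k : Idx R M) (b s : Bool) (a : ℕ), a ≤ 2 * R →
  K ≤ 10 * (univ.filter (fun i : Fin K => tag T s a i ⊆ half (wd (om k) b))).card

end Om

/-- The type of a set. -/
def typ {R : ℕ} (C : Finset (G R)) (s : Bool) : ℕ := hh (side s C).card

lemma mem_half {R : ℕ} {w : Word R} {p : G R} : p ∈ half w ↔ p.2.2 = w (p.1, p.2.1) := by
  simp [half]

lemma mem_side {R : ℕ} {s : Bool} {C : Finset (G R)} {p : G R} :
    p ∈ side s C ↔ p ∈ C ∧ p.1 = s := by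
  simp [side]

lemma mem_cube {R : ℕ} {t : Trial R} {b : Bool} {p : G R} :
    p ∈ cube t b ↔ p.2.2 = wd t b (p.1, p.2.1) ∨ p ∈ ov t := by
  simp [cube, mem_half]

lemma wd_not {R : ℕ} (t : Trial R) (b : Bool) (i : Bool × Fin R) : wd t (!b) i = ! wd t b i := by
  simp only [wd]
  cases b <;> cases t.1 i <;> rfl

lemma side_card_le {R : ℕ} (s : Bool) (C : Finset (G R)) : (side s C).card ≤ 2 * R := by
  classical
  have h : side s C ⊆ (univ : Finset (Fin R × Bool)).image (fun x => (s, x)) := by
    intro p hp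
    rw [mem_side] at hp
    rw [mem_image]
    exact ⟨p.2, mem_univ _, by rw [← hp.2]⟩
  calc (side s C).card ≤ _ := card_le_card h
    _ ≤ (univ : Finset (Fin R × Bool)).card := card_image_le
    _ = 2 * R := by simp [mul_comm]

end Pool.Agent.Lib.MP_e9f532_co.Nl
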