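import Mathlib
import Pool.Agent.Lib.MP_e9f532_co.Nl.Defs

set_option autoImplicit false

/-! Module V2 (Danger): few words keep a large set inside a cube, few words avoid all of many
tags. -/

namespace Pool.Agent.Lib.MP_e9f532_co.Nl

open Finset

/-- `D \ Z` has at least `m` points, they lie in different pairs because `Z` contains a half. -/
theorem inside_count {R m : ℕ} (b : Bool) (D Z : Finset (G R)) (w0 : Word R) (hZ : half w0 ⊆ Z)
    (hD : m ≤ (D \ Z).card) :
    (univ.filter (fun w : Word R => D ∩ half (fun i => Bool.xor b (w i)) ⊆ Z)).card * 2 ^ m ≤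
      4 ^ R := by
  classical
  -- the coordinates of the points outside `Z`
  have hinj : Set.InjOn (fun p : G R => (p.1, p.2.1)) (D \ Z : Finset (G R)) := by
    intro p hp p' hp' h
    have hp1 : p ∉ half w0 := fun h' => (mem_sdiff.1 (mem_coe.1 hp)).2 (hZ h')
    have hp2 : p' ∉ half w0 := fun h' => (mem_sdiff.1 (mem_coe.1 hp')).2 (hZ h')
    rw [mem_half] at hp1 hp2
    have h1 : p.1 = p'.1 := (Prod.ext_iff.1 h).1
    have h2 : p.2.1 = p'.2.1 := (Prod.ext_iff.1 h).2
    rw [h1, h2] at hp1
    have h3 : p.2.2 = p'.2.2 := by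
      revert hp1 hp2
      cases p.2.2 <;> cases p'.2.2 <;> cases w0 (p'.1, p'.2.1) <;> simp
    exact Prod.ext h1 (Prod.ext h2 h3)
  set I : Finset (Bool × Fin R) := (D \ Z).image (fun p : G R => (p.1, p.2.1)) with hI
  have hIc : I.card = (D \ Z).card := card_image_of_injOn hinj
  let t : Bool × Fin R → Finset Bool := fun j =>
    univ.filter (fun v => ∀ p ∈ D \ Z, (p.1, p.2.1) = j → p.2.2 ≠ Bool.xor b v)
  have hsub : (univ.filter (fun w : Word R => D ∩ half (fun i => Bool.xor b (w i)) ⊆ Z)) ⊆
      Fintype.piFinset t := by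
    intro w hw
    rw [mem_filter] at hw
    rw [Fintype.mem_piFinset]
    intro j
    rw [mem_filter]
    refine ⟨mem_univ _, ?_⟩
    intro p hp hj h
    rw [mem_sdiff] at hp
    apply hp.2
    apply hw.2
    rw [mem_inter]
    refine ⟨hp.1, ?_⟩
    rw [mem_half, h, hj]
  have ht : ∀ j, (t j).card ≤ if j ∈ I then 1 else 2 := by
    intro j
    split_ifs with hj
    · rw [hI, mem_image] at hj
      obtain ⟨p, hp, hpj⟩ := hj
      have h2 : t j ⊆ {Bool.xor b (!p.2.2)} := by
        intro v hv
        have h3 := (mem_filter.1 hv).2 p hp hpj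
        rw [mem_singleton]
        revert h3
        cases p.2.2 <;> cases b <;> cases v <;> simp
      calc (t j).card ≤ _ := card_le_card h2
        _ = 1 := card_singleton _
    · calc (t j).card ≤ (univ : Finset Bool).card := card_le_card (filter_subset _ _)
        _ = 2 := by simp
  have hprod : (∏ j, (if j ∈ I then 1 else 2 : ℕ)) * ∏ j, (if j ∈ I then 2 else 1 : ℕ) = 4 ^ R := by
    rw [← prod_mul_distrib]
    have h1 : ∀ j : Bool × Fin R, ((if j ∈ I then 1 else 2 : ℕ) * (if j ∈ I then 2 else 1 : ℕ)) = 2 := by
      intro j; split_ifs <;> rfl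
    rw [prod_congr rfl (fun j _ => h1 j), prod_const, card_univ, Fintype.card_prod,
      Fintype.card_bool, Fintype.card_fin, pow_mul]
    norm_num
  have hI2 : ∏ j, (if j ∈ I then 2 else 1 : ℕ) = 2 ^ I.card := by
    rw [prod_ite_mem, univ_inter, prod_const]
  calc (univ.filter (fun w : Word R => D ∩ half (fun i => Bool.xor b (w i)) ⊆ Z)).card * 2 ^ m
      ≤ (Fintype.piFinset t).card * 2 ^ I.card := by
        apply Nat.mul_le_mul (card_le_card hsub)
        apply Nat.pow_le_pow_right (by norm_num)
        rw [hIc]; exact hD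
    _ ≤ (∏ j, (if j ∈ I then 1 else 2 : ℕ)) * 2 ^ I.card := by
        apply Nat.mul_le_mul_right
        rw [Fintype.card_piFinset]
        exact prod_le_prod' (fun j _ => ht j)
    _ = 4 ^ R := by rw [← hI2]; exact hprod

/-- One more tag costs a factor `3/4`. -/
private lemma one_tag {R : ℕ} (j1 j2 : Bool × Fin R) (b : Bool) (hj : j1 ≠ j2)
    (W : Finset (Word R)) (hW : ∀ w ∈ W, Function.update (Function.update w j1 b) j2 b ∈ W) :
    4 * (W.filter (fun w => ¬ (w j1 = b ∧ w j2 = b))).card ≤ 3 * W.card := by
  classical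
  have h1 : W.card ≤ 4 * (W.filter (fun w => w j1 = b ∧ w j2 = b)).card := by
    apply card_le_mul_card_image_of_maps_to
      (f := fun w => Function.update (Function.update w j1 b) j2 b)
    · intro w hw
      rw [mem_filter]
      refine ⟨hW w hw, ?_, ?_⟩
      · rw [Function.update_of_ne hj, Function.update_self]
      · rw [Function.update_self]
    · intro w' _
      have h2 : (W.filter (fun w => Function.update (Function.update w j1 b) j2 b = w')) ⊆
          (univ : Finset (Bool × Bool)).image
            (fun x => Function.update (Function.update w' j1 x.1) j2 x.2) := by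
        intro w hw
        rw [mem_filter] at hw
        rw [mem_image]
        refine ⟨(w j1, w j2), mem_univ _, ?_⟩
        rw [← hw.2]
        funext j
        by_cases hj2 : j = j2
        · subst hj2; simp
        · by_cases hj1 : j = j1
          · subst hj1; simp [Function.update_of_ne hj2]
          · simp [Function.update_of_ne hj2, Function.update_of_ne hj1]
      calc _ ≤ _ := card_le_card h2
        _ ≤ (univ : Finset (Bool × Bool)).card := card_image_le
        _ = 4 := by simp
  have h3 := card_filter_add_card_filter_not (s := W) (fun w => w j1 = b ∧ w j2 = b)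
  omega

/-- The tags of a level use different pairs, so the events are independent. -/
theorem tags_count {R K : ℕ} (T : Tags R K) (s : Bool) (a : ℕ) (b : Bool) (S : Finset (Fin K)) :
    (univ.filter (fun w : Word R => ∀ i ∈ S,
      ¬ tag T s a i ⊆ half (fun i => Bool.xor b (w i)))).card * 4 ^ S.card ≤
      3 ^ S.card * 4 ^ R := by
  classical
  have htag : ∀ (i : Fin K) (w : Word R), tag T s a i ⊆ half (fun i => Bool.xor b (w i)) ↔
      w (!s, T.l a i) = b ∧ w (!s, T.r a i) = b := by
    intro i w
    rw [tag, insert_subset_iff, singleton_subset_iff, mem_half, mem_half]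
    constructor
    · rintro ⟨h1, h2⟩
      revert h1 h2
      cases b <;> cases w (!s, T.l a i) <;> cases w (!s, T.r a i) <;> simp
    · rintro ⟨h1, h2⟩
      simp only [h1, h2]
      cases b <;> simp
  simp only [htag]
  induction S using Finset.induction_on with
  | empty =>
    simp only [notMem_empty, false_imp_iff, implies_true, filter_true, card_empty, pow_zero,
      mul_one, one_mul]
    rw [card_univ, Fintype.card_fun, Fintype.card_bool, Fintype.card_prod, Fintype.card_bool,
      Fintype.card_fin, pow_mul]
    norm_num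
  | insert i S hi ih =>
    set W := univ.filter (fun w : Word R => ∀ i ∈ S,
      ¬ (w (!s, T.l a i) = b ∧ w (!s, T.r a i) = b)) with hWdef
    have hne : ((!s, T.l a i) : Bool × Fin R) ≠ (!s, T.r a i) := by
      intro h
      exact T.ne a i a i (congrArg Prod.snd h)
    have h1 := one_tag (!s, T.l a i) (!s, T.r a i) b hne W (by
      intro w hw
      rw [hWdef, mem_filter] at hw ⊢
      refine ⟨mem_univ _, ?_⟩
      intro j hj
      have hij : j ≠ i := fun h => hi (h ▸ hj)
      have h2 := hw.2 j hj
      have hll : ((!s, T.l a j) : Bool × Fin R) ≠ (!s, T.l a i) := fun h =>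
        hij (T.injl a (congrArg Prod.snd h))
      have hlr : ((!s, T.l a j) : Bool × Fin R) ≠ (!s, T.r a i) := fun h =>
        T.ne a j a i (congrArg Prod.snd h)
      have hrl : ((!s, T.r a j) : Bool × Fin R) ≠ (!s, T.l a i) := fun h =>
        T.ne a i a j (congrArg Prod.snd h).symm
      have hrr : ((!s, T.r a j) : Bool × Fin R) ≠ (!s, T.r a i) := fun h =>
        hij (T.injr a (congrArg Prod.snd h))
      rw [Function.update_of_ne hlr, Function.update_of_ne hll, Function.update_of_ne hrr,
        Function.update_of_ne hrl]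
      exact h2)
    have h3 : (univ.filter (fun w : Word R => ∀ j ∈ insert i S,
        ¬ (w (!s, T.l a j) = b ∧ w (!s, T.r a j) = b))) =
        W.filter (fun w => ¬ (w (!s, T.l a i) = b ∧ w (!s, T.r a i) = b)) := by
      ext w
      simp only [hWdef, mem_filter, mem_univ, true_and, forall_mem_insert]
      exact and_comm
    rw [h3, card_insert_of_notMem hi, pow_succ, pow_succ]
    calc _ = (4 * (W.filter (fun w => ¬ (w (!s, T.l a i) = b ∧ w (!s, T.r a i) = b))).card) *
          4 ^ S.card := by ring
      _ ≤ (3 * W.card) * 4 ^ S.card := Nat.mul_le_mul_right _ h1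
      _ = 3 * (W.card * 4 ^ S.card) := by ring
      _ ≤ 3 * (3 ^ S.card * 4 ^ R) := Nat.mul_le_mul_left _ ih
      _ = 3 ^ S.card * 3 * 4 ^ R := by ring

end Pool.Agent.Lib.MP_e9f532_co.Nl
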