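import Mathlib
import Pool.Agent.Lib.MP_e9f532_co.Nl.Defs

set_option autoImplicit false

/-! Module V3 (Tail): a tail bound for disjoint pairs.
Proof: exponential moment. `∑_B λ^(number of pairs inside B) = 2^|W| ((3+λ)/4)^|J|` with `λ = 1/3`,
and `(50/57)^10 ≤ 1/3`, `(5/6) / (50/57) = 19/20`. -/

namespace Pool.Agent.Lib.MP_e9f532_co.Nl

open Finset

/-- The exponential moment of the number of pairs inside a random subset. -/
theorem pairs_moment {α ι : Type} [DecidableEq α] [DecidableEq ι] (p q : ι → α) (J : Finset ι) :
    ∀ W : Finset α, (∀ i ∈ J, p i ∈ W) → (∀ i ∈ J, q i ∈ W) →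
      Set.InjOn p J → Set.InjOn q J → (∀ i ∈ J, ∀ j ∈ J, p i ≠ q j) →
      ∑ B ∈ W.powerset, ((1 : ℝ) / 3) ^ (J.filter (fun i => p i ∈ B ∧ q i ∈ B)).card =
        2 ^ W.card * (5 / 6) ^ J.card := by
  induction J using Finset.induction_on with
  | empty =>
    intro W _ _ _ _ _
    simp
  | insert i J hi ih =>
    intro W hp hq hpp hqq hpq
    have hpi : p i ∈ W := hp i (mem_insert_self i J)
    have hqi : q i ∈ W := hq i (mem_insert_self i J)
    have hne : p i ≠ q i := hpq i (mem_insert_self i J) i (mem_insert_self i J)
    set V := (W.erase (p i)).erase (q i) with hV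
    have hqV : q i ∉ V := by simp [hV]
    have hpV : p i ∉ insert (q i) V := by simp [hV, hne]
    have hW : W = insert (p i) (insert (q i) V) := by
      rw [hV, insert_erase, insert_erase hpi]
      rw [mem_erase]
      exact ⟨fun h => hne h.symm, hqi⟩
    have hpne : ∀ j ∈ J, p j ≠ p i := by
      intro j hj h
      have := hpp (mem_coe.2 (mem_insert_of_mem hj)) (mem_coe.2 (mem_insert_self i J)) h
      exact hi (this ▸ hj)
    have hqne : ∀ j ∈ J, q j ≠ q i := by
      intro j hj h
      have := hqq (mem_coe.2 (mem_insert_of_mem hj)) (mem_coe.2 (mem_insert_self i J)) h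
      exact hi (this ▸ hj)
    have hpqi : ∀ j ∈ J, p j ≠ q i := fun j hj =>
      hpq j (mem_insert_of_mem hj) i (mem_insert_self i J)
    have hqpi : ∀ j ∈ J, q j ≠ p i := fun j hj h =>
      hpq i (mem_insert_self i J) j (mem_insert_of_mem hj) h.symm
    have hcardW : W.card = V.card + 2 := by
      rw [hW, card_insert_of_notMem hpV, card_insert_of_notMem hqV]
    have ih' := ih V
      (by
        intro j hj
        rw [hV, mem_erase, mem_erase]
        exact ⟨hpqi j hj, hpne j hj, hp j (mem_insert_of_mem hj)⟩)
      (by
        intro j hj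
        rw [hV, mem_erase, mem_erase]
        exact ⟨hqne j hj, hqpi j hj, hq j (mem_insert_of_mem hj)⟩)
      (hpp.mono (by intro x hx; exact mem_coe.2 (mem_insert_of_mem (mem_coe.1 hx))))
      (hqq.mono (by intro x hx; exact mem_coe.2 (mem_insert_of_mem (mem_coe.1 hx))))
      (fun a ha b hb => hpq a (mem_insert_of_mem ha) b (mem_insert_of_mem hb))
    -- the number of pairs of `J` does not change when `p i`, `q i` are added
    have hN : ∀ t D : Finset α, t ∈ V.powerset → D ⊆ {p i, q i} →
        J.filter (fun j => p j ∈ D ∪ t ∧ q j ∈ D ∪ t) =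
          J.filter (fun j => p j ∈ t ∧ q j ∈ t) := by
      intro t D _ hD
      apply filter_congr
      intro j hj
      have h1 : p j ∉ D := fun h => by
        have := hD h
        rw [mem_insert, mem_singleton] at this
        rcases this with h | h
        · exact hpne j hj h
        · exact hpqi j hj h
      have h2 : q j ∉ D := fun h => by
        have := hD h
        rw [mem_insert, mem_singleton] at this
        rcases this with h | h
        · exact hqpi j hj h
        · exact hqne j hj h
      simp [h1, h2]
    have hout : ∀ t D : Finset α, t ∈ V.powerset → D ⊆ {p i, q i} → D ≠ {p i, q i} →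
        ((insert i J).filter (fun j => p j ∈ D ∪ t ∧ q j ∈ D ∪ t)).card =
          (J.filter (fun j => p j ∈ t ∧ q j ∈ t)).card := by
      intro t D ht hD hDne
      rw [filter_insert, if_neg, hN t D ht hD]
      rintro ⟨h1, h2⟩
      have ht' := mem_powerset.1 ht
      have h3 : p i ∈ D := by
        rcases mem_union.1 h1 with h | h
        · exact h
        · exact absurd (mem_insert_of_mem (ht' h)) hpV
      have h4 : q i ∈ D := by
        rcases mem_union.1 h2 with h | h
        · exact h
        · exact absurd (ht' h) hqV
      apply hDne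
      apply Subset.antisymm hD
      intro x hx
      rw [mem_insert, mem_singleton] at hx
      rcases hx with rfl | rfl
      · exact h3
      · exact h4
    have hin : ∀ t : Finset α, t ∈ V.powerset →
        ((insert i J).filter (fun j => p j ∈ ({p i, q i} : Finset α) ∪ t ∧
          q j ∈ ({p i, q i} : Finset α) ∪ t)).card =
          (J.filter (fun j => p j ∈ t ∧ q j ∈ t)).card + 1 := by
      intro t ht
      rw [filter_insert, if_pos, card_insert_of_notMem, hN t _ ht (Subset.refl _)]
      · intro h
        exact hi (mem_filter.1 h).1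
      · constructor
        · exact mem_union_left _ (mem_insert_self _ _)
        · exact mem_union_left _ (mem_insert_of_mem (mem_singleton_self _))
    have hsum : ∑ B ∈ W.powerset,
        ((1 : ℝ) / 3) ^ ((insert i J).filter (fun j => p j ∈ B ∧ q j ∈ B)).card =
        ∑ t ∈ V.powerset, ((10 : ℝ) / 3) *
          ((1 : ℝ) / 3) ^ (J.filter (fun j => p j ∈ t ∧ q j ∈ t)).card := by
      rw [hW, sum_powerset_insert hpV, sum_powerset_insert hqV, sum_powerset_insert hqV,
        ← sum_add_distrib, ← sum_add_distrib, ← sum_add_distrib]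
      apply sum_congr rfl
      intro t ht
      have e1 : ((insert i J).filter (fun j => p j ∈ t ∧ q j ∈ t)).card =
          (J.filter (fun j => p j ∈ t ∧ q j ∈ t)).card := by
        have := hout t ∅ ht (empty_subset _) (by
          intro h
          have : p i ∈ (∅ : Finset α) := h ▸ mem_insert_self _ _
          simp at this)
        simpa using this
      have e2 : ((insert i J).filter (fun j => p j ∈ insert (q i) t ∧ q j ∈ insert (q i) t)).card =
          (J.filter (fun j => p j ∈ t ∧ q j ∈ t)).card := by
        have := hout t {q i} ht (by intro x hx; exact mem_insert_of_mem hx) (by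
          intro h
          have : p i ∈ ({q i} : Finset α) := h ▸ mem_insert_self _ _
          exact hne (mem_singleton.1 this))
        simpa only [insert_eq] using this
      have e3 : ((insert i J).filter (fun j => p j ∈ insert (p i) t ∧ q j ∈ insert (p i) t)).card =
          (J.filter (fun j => p j ∈ t ∧ q j ∈ t)).card := by
        have := hout t {p i} ht (by
          intro x hx
          rw [mem_singleton] at hx
          rw [hx]
          exact mem_insert_self _ _) (by
          intro h
          have : q i ∈ ({p i} : Finset α) :=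
            h ▸ mem_insert_of_mem (mem_singleton_self _)
          exact hne (mem_singleton.1 this).symm)
        simpa only [insert_eq] using this
      have e4 : ((insert i J).filter (fun j => p j ∈ insert (p i) (insert (q i) t) ∧
          q j ∈ insert (p i) (insert (q i) t))).card =
          (J.filter (fun j => p j ∈ t ∧ q j ∈ t)).card + 1 := by
        have := hin t ht
        have h5 : ({p i, q i} : Finset α) ∪ t = insert (p i) (insert (q i) t) := by
          ext x
          simp
        rw [h5] at this
        exact this
      rw [e1, e2, e3, e4, pow_succ]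
      ring
    rw [hsum, ← mul_sum, ih', card_insert_of_notMem hi, hcardW, pow_succ, pow_add]
    ring

/-- General form: `p i, q i` (`i ∈ J`) are `2 |J|` different elements of `W`; few subsets `B` of `W`
contain fewer than a tenth of the pairs `{p i, q i}`. -/
theorem pairs_tail {α ι : Type} [DecidableEq α] [DecidableEq ι] (W : Finset α) (J : Finset ι)
    (p q : ι → α) (hp : ∀ i ∈ J, p i ∈ W) (hq : ∀ i ∈ J, q i ∈ W)
    (hpp : Set.InjOn p J) (hqq : Set.InjOn q J) (hpq : ∀ i ∈ J, ∀ j ∈ J, p i ≠ q j) :
    ((W.powerset.filter (fun B =>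
      10 * (J.filter (fun i => p i ∈ B ∧ q i ∈ B)).card < J.card)).card : ℝ) ≤
      (19 / 20) ^ J.card * 2 ^ W.card := by
  have h1 : ((W.powerset.filter (fun B =>
      10 * (J.filter (fun i => p i ∈ B ∧ q i ∈ B)).card < J.card)).card : ℝ) *
        (50 / 57) ^ J.card ≤ 2 ^ W.card * (5 / 6) ^ J.card := by
    rw [← pairs_moment p q J W hp hq hpp hqq hpq, ← nsmul_eq_mul, ← sum_const]
    calc ∑ _B ∈ W.powerset.filter (fun B =>
          10 * (J.filter (fun i => p i ∈ B ∧ q i ∈ B)).card < J.card), ((50 : ℝ) / 57) ^ J.card
        ≤ ∑ B ∈ W.powerset.filter (fun B =>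
          10 * (J.filter (fun i => p i ∈ B ∧ q i ∈ B)).card < J.card),
          ((1 : ℝ) / 3) ^ (J.filter (fun i => p i ∈ B ∧ q i ∈ B)).card := by
          apply sum_le_sum
          intro B hB
          rw [mem_filter] at hB
          have h2 : ((50 : ℝ) / 57) ^ J.card ≤
              (50 / 57) ^ (10 * (J.filter (fun i => p i ∈ B ∧ q i ∈ B)).card) :=
            pow_le_pow_of_le_one (by norm_num) (by norm_num) hB.2.le
          refine h2.trans ?_
          rw [pow_mul]
          exact pow_le_pow_left₀ (by norm_num) (by norm_num) _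
      _ ≤ ∑ B ∈ W.powerset, ((1 : ℝ) / 3) ^ (J.filter (fun i => p i ∈ B ∧ q i ∈ B)).card :=
          sum_le_sum_of_subset_of_nonneg (filter_subset _ _) (fun _ _ _ => by positivity)
  have h3 : ((19 : ℝ) / 20) ^ J.card * (50 / 57) ^ J.card = (5 / 6) ^ J.card := by
    rw [← mul_pow]
    norm_num
  have h4 : (0 : ℝ) < (50 / 57) ^ J.card := by positivity
  rw [← mul_le_mul_iff_left₀ h4]
  refine h1.trans (le_of_eq ?_)
  rw [← h3]
  ring

/-- Few words contain fewer than a tenth of the tags of a level. -/
theorem words_tail {R K : ℕ} (T : Tags R K) (s : Bool) (a : ℕ) (b : Bool) :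
    ((univ.filter (fun w : Word R => ¬ K ≤ 10 * (univ.filter (fun i : Fin K =>
      tag T s a i ⊆ half (fun j => Bool.xor b (w j)))).card)).card : ℝ) ≤
      (19 / 20) ^ K * 4 ^ R := by
  have hkey := pairs_tail (univ : Finset (Bool × Fin R)) (univ : Finset (Fin K))
    (fun i => (!s, T.l a i)) (fun i => (!s, T.r a i)) (fun _ _ => mem_univ _)
    (fun _ _ => mem_univ _)
    (fun i _ j _ h => T.injl a (by simpa using h))
    (fun i _ j _ h => T.injr a (by simpa using h))
    (fun i _ j _ h => T.ne a i a j (by simpa using h))
  have htag : ∀ (w : Word R) (i : Fin K), tag T s a i ⊆ half (fun j => Bool.xor b (w j)) ↔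
      (w (!s, T.l a i) = b ∧ w (!s, T.r a i) = b) := by
    intro w i
    rw [tag, insert_subset_iff, singleton_subset_iff, mem_half, mem_half]
    dsimp only
    constructor
    · rintro ⟨h1, h2⟩
      constructor
      · revert h1; cases b <;> cases w (!s, T.l a i) <;> simp
      · revert h2; cases b <;> cases w (!s, T.r a i) <;> simp
    · rintro ⟨h1, h2⟩
      rw [h1, h2]
      cases b <;> simp
  have hle : (univ.filter (fun w : Word R => ¬ K ≤ 10 * (univ.filter (fun i : Fin K =>
      tag T s a i ⊆ half (fun j => Bool.xor b (w j)))).card)).card ≤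
      ((univ : Finset (Bool × Fin R)).powerset.filter (fun B =>
      10 * ((univ : Finset (Fin K)).filter
        (fun i => (!s, T.l a i) ∈ B ∧ (!s, T.r a i) ∈ B)).card <
        (univ : Finset (Fin K)).card)).card := by
    apply card_le_card_of_injOn (fun w => univ.filter (fun x => w x = b))
    · intro w hw
      rw [mem_coe, mem_filter] at hw
      rw [mem_coe, mem_filter]
      refine ⟨mem_powerset.2 (subset_univ _), ?_⟩
      have h1 := hw.2
      rw [not_le] at h1
      rw [card_univ, Fintype.card_fin]
      refine lt_of_le_of_lt (le_of_eq ?_) h1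
      congr 2
      apply filter_congr
      intro i _
      rw [htag]
      simp
    · intro w _ w' _ h
      funext x
      have h1 : x ∈ univ.filter (fun x => w x = b) ↔ x ∈ univ.filter (fun x => w' x = b) := by
        rw [show univ.filter (fun x => w x = b) = univ.filter (fun x => w' x = b) from h]
      simp only [mem_filter, mem_univ, true_and] at h1
      revert h1
      cases w x <;> cases w' x <;> cases b <;> simp
  refine (Nat.cast_le.2 hle).trans (hkey.trans (le_of_eq ?_))
  rw [card_univ, card_univ, Fintype.card_fin, Fintype.card_prod, Fintype.card_bool,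
    Fintype.card_fin, pow_mul]
  norm_num

/-- Few subsets of `Z` contain fewer than `e` tags of a level, if `Z` contains at least `10 e`. -/
theorem sets_tail {R K e : ℕ} (T : Tags R K) (s : Bool) (a : ℕ) (Z : Finset (G R))
    (hZ : 10 * e ≤ (univ.filter (fun i : Fin K => tag T s a i ⊆ Z)).card) :
    ((Z.powerset.filter (fun C =>
      (univ.filter (fun i : Fin K => tag T s a i ⊆ C)).card < e)).card : ℝ) ≤
      (19 / 20) ^ (10 * e) * 2 ^ Z.card := by
  have htag : ∀ (C : Finset (G R)) (i : Fin K), tag T s a i ⊆ C ↔
      ((!s, (T.l a i, false)) ∈ C ∧ (!s, (T.r a i, false)) ∈ C) := by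
    intro C i
    rw [tag, insert_subset_iff, singleton_subset_iff]
  have hkey := pairs_tail Z (univ.filter (fun i : Fin K => tag T s a i ⊆ Z))
    (fun i => ((!s, (T.l a i, false)) : G R)) (fun i => ((!s, (T.r a i, false)) : G R))
    (fun i hi => ((htag Z i).1 (mem_filter.1 hi).2).1)
    (fun i hi => ((htag Z i).1 (mem_filter.1 hi).2).2)
    (fun i _ j _ h => T.injl a (by simpa using h))
    (fun i _ j _ h => T.injr a (by simpa using h))
    (fun i _ j _ h => T.ne a i a j (by simpa using h))
  have hle : (Z.powerset.filter (fun C =>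
      (univ.filter (fun i : Fin K => tag T s a i ⊆ C)).card < e)).card ≤
      (Z.powerset.filter (fun B =>
        10 * ((univ.filter (fun i : Fin K => tag T s a i ⊆ Z)).filter
          (fun i => ((!s, (T.l a i, false)) : G R) ∈ B ∧
            ((!s, (T.r a i, false)) : G R) ∈ B)).card <
          (univ.filter (fun i : Fin K => tag T s a i ⊆ Z)).card)).card := by
    apply card_le_card
    intro C hC
    rw [mem_filter] at hC ⊢
    refine ⟨hC.1, lt_of_lt_of_le ?_ hZ⟩
    have h1 : ((univ.filter (fun i : Fin K => tag T s a i ⊆ Z)).filter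
          (fun i => ((!s, (T.l a i, false)) : G R) ∈ C ∧
            ((!s, (T.r a i, false)) : G R) ∈ C)) ⊆
        univ.filter (fun i : Fin K => tag T s a i ⊆ C) := by
      intro i hi
      rw [mem_filter] at hi
      rw [mem_filter]
      exact ⟨mem_univ _, (htag C i).2 hi.2⟩
    have h2 := card_le_card h1
    have h3 := hC.2
    omega
  have h2 : ((Z.powerset.filter (fun C =>
      (univ.filter (fun i : Fin K => tag T s a i ⊆ C)).card < e)).card : ℝ) ≤
      (19 / 20) ^ (univ.filter (fun i : Fin K => tag T s a i ⊆ Z)).card * 2 ^ Z.card := by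
    refine le_trans ?_ hkey
    exact_mod_cast hle
  refine h2.trans ?_
  apply mul_le_mul_of_nonneg_right _ (by positivity)
  exact pow_le_pow_of_le_one (by norm_num) (by norm_num) hZ

end Pool.Agent.Lib.MP_e9f532_co.Nl
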