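import Mathlib
import Pool.Agent.Lib.MP_e9f532_co.Nl.Defs
import Pool.Agent.Lib.MP_e9f532_co.Nl.Tail

set_option autoImplicit false

/-! Module V7 (ExcCount): few sets are exceptional. -/

namespace Pool.Agent.Lib.MP_e9f532_co.Nl

open Finset

/-- There are few small sets. -/
theorem small_count {α : Type} [Fintype α] [DecidableEq α] (m : ℕ) :
    (univ.filter (fun C : Finset α => C.card ≤ m)).card ≤ (Fintype.card α + 1) ^ m := by
  induction m with
  | zero =>
    have h : (univ.filter (fun C : Finset α => C.card ≤ 0)) = {∅} := by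
      ext C
      simp
    rw [h, card_singleton, pow_zero]
  | succ m ih =>
    have hsub : univ.filter (fun C : Finset α => C.card ≤ m + 1) ⊆
        ((univ : Finset (Option α)) ×ˢ (univ.filter (fun C : Finset α => C.card ≤ m))).image
          (fun x => x.1.elim x.2 (fun y => insert y x.2)) := by
      intro C hC
      rw [mem_filter] at hC
      rw [mem_image]
      rcases C.eq_empty_or_nonempty with h | ⟨x, hx⟩
      · refine ⟨(none, ∅), ?_, ?_⟩
        · rw [mem_product, mem_filter]
          exact ⟨mem_univ _, mem_univ _, by simp⟩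
        · rw [h]
          rfl
      · refine ⟨(some x, C.erase x), ?_, ?_⟩
        · rw [mem_product, mem_filter]
          refine ⟨mem_univ _, mem_univ _, ?_⟩
          show (C.erase x).card ≤ m
          rw [card_erase_of_mem hx]
          omega
        · show insert x (C.erase x) = C
          exact insert_erase hx
    calc (univ.filter (fun C : Finset α => C.card ≤ m + 1)).card
        ≤ _ := card_le_card hsub
      _ ≤ _ := card_image_le
      _ = (Fintype.card α + 1) * (univ.filter (fun C : Finset α => C.card ≤ m)).card := by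
          rw [card_product, card_univ, Fintype.card_option]
      _ ≤ (Fintype.card α + 1) * (Fintype.card α + 1) ^ m := Nat.mul_le_mul_left _ ih
      _ = (Fintype.card α + 1) ^ (m + 1) := by rw [pow_succ, mul_comm]

/-- There are few sets with few points outside a given set. -/
theorem near_count {α : Type} [Fintype α] [DecidableEq α] (W : Finset α) (m : ℕ) :
    (univ.filter (fun C : Finset α => (C \ W).card ≤ m)).card ≤
      (Fintype.card α + 1) ^ m * 2 ^ W.card := by
  calc (univ.filter (fun C : Finset α => (C \ W).card ≤ m)).card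
      ≤ ((univ.filter (fun C : Finset α => C.card ≤ m)) ×ˢ W.powerset).card := by
        apply card_le_card_of_injOn (fun C => (C \ W, C ∩ W))
        · intro C hC
          have hC' := (mem_filter.1 (mem_coe.1 hC)).2
          rw [mem_coe, mem_product, mem_filter, mem_powerset]
          exact ⟨⟨mem_univ _, hC'⟩, inter_subset_right⟩
        · intro C _ D _ h
          have h1 : C \ W = D \ W := congrArg Prod.fst h
          have h2 : C ∩ W = D ∩ W := congrArg Prod.snd h
          rw [← sdiff_union_inter C W, h1, h2, sdiff_union_inter]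
    _ = (univ.filter (fun C : Finset α => C.card ≤ m)).card * 2 ^ W.card := by
        rw [card_product, card_powerset]
    _ ≤ (Fintype.card α + 1) ^ m * 2 ^ W.card := Nat.mul_le_mul_right _ (small_count m)

/-- The same on the ground set, in the reals, with a bound for the size of the set. -/
theorem near_count_real {R : ℕ} (W : Finset (G R)) (m n : ℕ) (P : Finset (G R) → Prop)
    [DecidablePred P] (hP : ∀ C, P C → (C \ W).card ≤ m) (hW : W.card ≤ n) :
    ((univ.filter (fun C : Finset (G R) => P C)).card : ℝ) ≤ (4 * R + 1) ^ m * 2 ^ n := by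
  have hcard : Fintype.card (G R) = 4 * R := by
    simp only [G, Fintype.card_prod, Fintype.card_bool, Fintype.card_fin]
    ring
  have h1 : (univ.filter (fun C : Finset (G R) => P C)).card ≤ (4 * R + 1) ^ m * 2 ^ n := by
    calc (univ.filter (fun C : Finset (G R) => P C)).card
        ≤ (univ.filter (fun C : Finset (G R) => (C \ W).card ≤ m)).card := by
          apply card_le_card
          intro C hC
          rw [mem_filter] at hC ⊢
          exact ⟨mem_univ _, hP C hC.2⟩
      _ ≤ (4 * R + 1) ^ m * 2 ^ W.card := by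
          rw [← hcard]
          exact near_count W m
      _ ≤ (4 * R + 1) ^ m * 2 ^ n :=
          Nat.mul_le_mul_left _ (Nat.pow_le_pow_right (by norm_num) hW)
  exact_mod_cast h1

/-- The union bound. -/
theorem union_bound {ι β : Type} [Fintype ι] [Fintype β] (P : ι → β → Prop)
    [∀ i, DecidablePred (P i)] [DecidablePred (fun x => ∃ i, P i x)] (c : ℝ)
    (h : ∀ i, ((univ.filter (fun x => P i x)).card : ℝ) ≤ c) :
    ((univ.filter (fun x => ∃ i, P i x)).card : ℝ) ≤ Fintype.card ι * c := by
  classical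
  have h1 : univ.filter (fun x => ∃ i, P i x) ⊆
      (univ : Finset ι).biUnion (fun i => univ.filter (fun x => P i x)) := by
    intro x hx
    obtain ⟨i, hi⟩ := (mem_filter.1 hx).2
    rw [mem_biUnion]
    exact ⟨i, mem_univ _, mem_filter.2 ⟨mem_univ _, hi⟩⟩
  calc ((univ.filter (fun x => ∃ i, P i x)).card : ℝ)
      ≤ (((univ : Finset ι).biUnion (fun i => univ.filter (fun x => P i x))).card : ℝ) := by
        exact_mod_cast card_le_card h1
    _ ≤ ((∑ i : ι, (univ.filter (fun x => P i x)).card : ℕ) : ℝ) := by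
        exact_mod_cast card_biUnion_le
    _ = ∑ i : ι, ((univ.filter (fun x => P i x)).card : ℝ) := by
        rw [Nat.cast_sum]
    _ ≤ ∑ _i : ι, c := sum_le_sum (fun i _ => h i)
    _ = Fintype.card ι * c := by
        rw [sum_const, nsmul_eq_mul, card_univ]

/-- The overlap has at most six points. -/
theorem ov_card {R : ℕ} (t : Trial R) : (ov t).card ≤ 6 := by
  rw [ov]
  calc _ ≤ _ := card_image_le
    _ = 6 := by simp

/-- The part of two halves on one side. -/
theorem side_half_inter {R : ℕ} (w w' : Word R) (s : Bool) :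
    (side s (half w ∩ half w')).card +
      (univ.filter (fun r : Fin R => w (s, r) ≠ w' (s, r))).card ≤ R := by
  have h1 : side s (half w ∩ half w') ⊆
      (univ.filter (fun r : Fin R => w (s, r) = w' (s, r))).image
        (fun r => ((s, (r, w (s, r))) : G R)) := by
    intro p hp
    rw [mem_side, mem_inter, mem_half, mem_half] at hp
    obtain ⟨⟨h2, h3⟩, h4⟩ := hp
    rw [mem_image]
    refine ⟨p.2.1, ?_, ?_⟩
    · rw [mem_filter]
      refine ⟨mem_univ _, ?_⟩
      rw [← h4, ← h2, ← h3]
    · rw [← h4, ← h2]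
  have h2 := card_le_card h1
  have h3 : ((univ.filter (fun r : Fin R => w (s, r) = w' (s, r))).image
        (fun r => ((s, (r, w (s, r))) : G R))).card ≤
        (univ.filter (fun r : Fin R => w (s, r) = w' (s, r))).card := card_image_le
  have h4 := card_filter_add_card_filter_not (s := (univ : Finset (Fin R)))
    (fun r : Fin R => w (s, r) = w' (s, r))
  rw [card_univ, Fintype.card_fin] at h4
  have h5 : (univ.filter (fun r : Fin R => w (s, r) ≠ w' (s, r))).card =
    (univ.filter (fun r : Fin R => ¬ w (s, r) = w' (s, r))).card := rfl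
  omega

/-- The part of one half on one side. -/
theorem side_half {R : ℕ} (w : Word R) (s : Bool) : (side s (half w)).card ≤ R := by
  have h := side_half_inter w w s
  rw [inter_self] at h
  omega

/-- The set of the second and the fifth clause. -/
def vv {R : ℕ} (t t' : Trial R) (b b' s : Bool) : Finset (G R) :=
  (side s (half (wd t b) ∩ half (wd t' b')) ∪ side (!s) (half (wd t b))) ∪ (ov t ∪ ov t')

theorem mem_vv {R : ℕ} {t t' : Trial R} {b b' s : Bool} {p : G R} :
    p ∈ vv t t' b b' s ↔
      (((p ∈ half (wd t b) ∧ p ∈ half (wd t' b')) ∧ p.1 = s) ∨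
        (p ∈ half (wd t b) ∧ p.1 = (!s))) ∨ (p ∈ ov t ∨ p ∈ ov t') := by
  rw [vv, mem_union, mem_union, mem_union, mem_side, mem_side, mem_inter]

theorem vv_card {R d : ℕ} (t t' : Trial R) (b b' s : Bool)
    (h : d < (univ.filter (fun r : Fin R => wd t b (s, r) ≠ wd t' b' (s, r))).card) :
    (vv t t' b b' s).card + d ≤ 2 * R + 12 := by
  have h1 := side_half_inter (wd t b) (wd t' b') s
  have h2 := side_half (wd t b) (!s)
  have h3 := ov_card t
  have h4 := ov_card t'
  have h5 : (vv t t' b b' s).card ≤ _ := card_union_le _ _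
  have h6 := card_union_le (side s (half (wd t b) ∩ half (wd t' b'))) (side (!s) (half (wd t b)))
  have h7 := card_union_le (ov t) (ov t')
  omega

theorem vv_pow {R d : ℕ} (m : ℕ) (x : ℕ) (h : x + d ≤ 2 * R + 12) :
    ((4 * R + 1) ^ m * 2 ^ x : ℝ) ≤ (4 * R + 1) ^ m * 2 ^ (2 * R + 12) / 2 ^ d := by
  rw [le_div_iff₀ (by positivity), mul_assoc, ← pow_add]
  exact mul_le_mul_of_nonneg_left (pow_le_pow_right₀ (by norm_num) h) (by positivity)

theorem half_card {R : ℕ} (w : Word R) : (half w).card ≤ 2 * R := by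
  have h : half w ⊆ side false (half w) ∪ side true (half w) := by
    intro p hp
    rw [mem_union, mem_side, mem_side]
    cases h : p.1
    · exact Or.inl ⟨hp, rfl⟩
    · exact Or.inr ⟨hp, rfl⟩
  have h1 := card_le_card h
  have h2 := card_union_le (side false (half w)) (side true (half w))
  have h3 := side_half w false
  have h4 := side_half w true
  omega

theorem cube_card {R : ℕ} (t : Trial R) (b : Bool) : (cube t b).card ≤ 2 * R + 6 := by
  have h1 := card_union_le (half (wd t b)) (ov t)
  have h2 := half_card (wd t b)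
  have h3 := ov_card t
  rw [cube]
  omega

theorem card_idx (R M : ℕ) : (Fintype.card (Idx R M × Bool) : ℝ) = 2 * (2 * R + 1) ^ 2 * M := by
  have h : Fintype.card (Idx R M × Bool) = 2 * (2 * R + 1) ^ 2 * M := by
    simp only [Idx, Fintype.card_prod, Fintype.card_bool, Fintype.card_fin, Fintype.card_fun]
    ring
  rw [h]
  push_cast
  ring

/-- The second clause. -/
theorem clause2 {R M q d : ℕ} (om : Idx R M → Trial R) (hfar : Far om d)
    [DecidablePred (fun C : Finset (G R) => ∃ x : (Idx R M × Bool) × (Idx R M × Bool),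
      x.1.1 ≠ x.2.1 ∧ (C \ cube (om x.1.1) x.1.2).card < q ∧
        (C \ cube (om x.2.1) x.2.2).card < q)] :
    ((univ.filter (fun C : Finset (G R) => ∃ x : (Idx R M × Bool) × (Idx R M × Bool),
      x.1.1 ≠ x.2.1 ∧ (C \ cube (om x.1.1) x.1.2).card < q ∧
        (C \ cube (om x.2.1) x.2.2).card < q)).card : ℝ) ≤
      (2 * (2 * R + 1) ^ 2 * M : ℝ) ^ 2 * ((4 * R + 1) ^ (2 * q) * 2 ^ (2 * R + 12) / 2 ^ d) := by
  classical
  have h := union_bound (ι := (Idx R M × Bool) × (Idx R M × Bool)) (β := Finset (G R))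
    (fun x C => x.1.1 ≠ x.2.1 ∧ (C \ cube (om x.1.1) x.1.2).card < q ∧
        (C \ cube (om x.2.1) x.2.2).card < q)
    ((4 * R + 1) ^ (2 * q) * 2 ^ (2 * R + 12) / 2 ^ d) ?_
  · rw [Fintype.card_prod, Nat.cast_mul, card_idx, ← sq] at h
    exact h
  · rintro ⟨⟨k, b⟩, ⟨l, b'⟩⟩
    by_cases hkl : k = l
    · have h0 : (univ.filter (fun C : Finset (G R) => k ≠ l ∧ (C \ cube (om k) b).card < q ∧
          (C \ cube (om l) b').card < q)) = ∅ := by
        apply filter_eq_empty_iff.2
        intro C _ h
        exact h.1 hkl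
      show ((univ.filter (fun C : Finset (G R) => k ≠ l ∧ (C \ cube (om k) b).card < q ∧
          (C \ cube (om l) b').card < q)).card : ℝ) ≤ _
      rw [h0, card_empty, Nat.cast_zero]
      positivity
    · have hv := vv_card (om k) (om l) b b' false (hfar k l hkl b b' false)
      refine le_trans (near_count_real (vv (om k) (om l) b b' false) (2 * q) _ _ ?_ le_rfl)
        (vv_pow (2 * q) _ hv)
      rintro C ⟨_, h1, h2⟩
      have hsub : C \ vv (om k) (om l) b b' false ⊆
          (C \ cube (om k) b) ∪ (C \ cube (om l) b') := by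
        intro p hp
        rw [mem_sdiff, mem_vv] at hp
        rw [mem_union, mem_sdiff, mem_sdiff]
        by_contra hcon
        have h3 : p ∈ cube (om k) b := by
          by_contra h4
          exact hcon (Or.inl ⟨hp.1, h4⟩)
        have h4 : p ∈ cube (om l) b' := by
          by_contra h5
          exact hcon (Or.inr ⟨hp.1, h5⟩)
        rw [cube, mem_union] at h3 h4
        have h5 : p ∈ half (wd (om k) b) := by
          rcases h3 with h3 | h3
          · exact h3
          · exact absurd (Or.inr (Or.inl h3)) hp.2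
        have h6 : p ∈ half (wd (om l) b') := by
          rcases h4 with h4 | h4
          · exact h4
          · exact absurd (Or.inr (Or.inr h4)) hp.2
        apply hp.2
        left
        cases h7 : p.1
        · exact Or.inl ⟨⟨h5, h6⟩, rfl⟩
        · exact Or.inr ⟨h5, rfl⟩
      have h3 := card_le_card hsub
      have h4 := card_union_le (C \ cube (om k) b) (C \ cube (om l) b')
      have h1' : (C \ cube (om k) b).card < q := h1
      have h2' : (C \ cube (om l) b').card < q := h2
      omega

/-- The third clause. -/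
theorem clause3 {R M : ℕ} (om : Idx R M → Trial R)
    [DecidablePred (fun C : Finset (G R) => ∃ x : (Idx R M × Bool) × Bool,
      C ⊆ cube (om x.1.1) x.1.2 ∧ (side x.2 C).card ≤ 4)] :
    ((univ.filter (fun C : Finset (G R) => ∃ x : (Idx R M × Bool) × Bool,
      C ⊆ cube (om x.1.1) x.1.2 ∧ (side x.2 C).card ≤ 4)).card : ℝ) ≤
      2 * (2 * (2 * R + 1) ^ 2 * M : ℝ) * ((4 * R + 1) ^ 4 * 2 ^ (R + 6)) := by
  classical
  have h := union_bound (ι := (Idx R M × Bool) × Bool) (β := Finset (G R))
    (fun x C => C ⊆ cube (om x.1.1) x.1.2 ∧ (side x.2 C).card ≤ 4)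
    ((4 * R + 1) ^ 4 * 2 ^ (R + 6)) ?_
  · rw [Fintype.card_prod, Nat.cast_mul, card_idx, Fintype.card_bool] at h
    refine le_trans h (le_of_eq ?_)
    push_cast
    ring
  · rintro ⟨⟨k, b⟩, s⟩
    have hW : (side (!s) (half (wd (om k) b)) ∪ ov (om k)).card ≤ R + 6 := by
      have h1 := card_union_le (side (!s) (half (wd (om k) b))) (ov (om k))
      have h2 := side_half (wd (om k) b) (!s)
      have h3 := ov_card (om k)
      omega
    refine near_count_real (side (!s) (half (wd (om k) b)) ∪ ov (om k)) 4 (R + 6) _ ?_ hW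
    rintro C ⟨h1, h2⟩
    refine le_trans (card_le_card ?_) h2
    intro p hp
    rw [mem_sdiff, mem_union, mem_side] at hp
    show p ∈ side s C
    rw [mem_side]
    refine ⟨hp.1, ?_⟩
    have h3 : p ∈ cube (om k) b := h1 hp.1
    rw [cube, mem_union] at h3
    rcases h3 with h3 | h3
    · by_contra h4
      apply hp.2
      left
      refine ⟨h3, ?_⟩
      cases h5 : p.1 <;> cases s <;> simp_all
    · exact absurd (Or.inr h3) hp.2

/-- The fourth clause. -/
theorem clause4 {R K M e : ℕ} (T : Tags R K) (om : Idx R M → Trial R)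
    (hK : 100 * e ≤ K) (hrich : Rich T om)
    [DecidablePred (fun C : Finset (G R) => ∃ x : (Idx R M × Bool) × (Bool × Fin (2 * R + 1)),
      C ⊆ cube (om x.1.1) x.1.2 ∧
        (univ.filter (fun i : Fin K => tag T x.2.1 (x.2.2 : ℕ) i ⊆ C)).card < e)] :
    ((univ.filter (fun C : Finset (G R) =>
      ∃ x : (Idx R M × Bool) × (Bool × Fin (2 * R + 1)),
      C ⊆ cube (om x.1.1) x.1.2 ∧
        (univ.filter (fun i : Fin K => tag T x.2.1 (x.2.2 : ℕ) i ⊆ C)).card < e)).card : ℝ) ≤
      2 * (2 * R + 1) * (2 * (2 * R + 1) ^ 2 * M : ℝ) *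
        ((19 / 20) ^ (10 * e) * 2 ^ (2 * R + 6)) := by
  classical
  have h := union_bound (ι := (Idx R M × Bool) × (Bool × Fin (2 * R + 1))) (β := Finset (G R))
    (fun x C => C ⊆ cube (om x.1.1) x.1.2 ∧
        (univ.filter (fun i : Fin K => tag T x.2.1 (x.2.2 : ℕ) i ⊆ C)).card < e)
    ((19 / 20) ^ (10 * e) * 2 ^ (2 * R + 6)) ?_
  · rw [Fintype.card_prod, Nat.cast_mul, card_idx, Fintype.card_prod, Fintype.card_bool,
      Fintype.card_fin] at h
    refine le_trans h (le_of_eq ?_)
    push_cast
    ring
  · rintro ⟨⟨k, b⟩, ⟨s, a⟩⟩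
    have h1 := hrich k b s (a : ℕ) (by have := a.2; omega)
    have h2 : (univ.filter (fun i : Fin K => tag T s (a : ℕ) i ⊆ half (wd (om k) b))).card ≤
        (univ.filter (fun i : Fin K => tag T s (a : ℕ) i ⊆ cube (om k) b)).card := by
      apply card_le_card
      intro i hi
      rw [mem_filter] at hi ⊢
      exact ⟨mem_univ _, hi.2.trans subset_union_left⟩
    have h3 := sets_tail (e := e) T s (a : ℕ) (cube (om k) b) (by omega)
    have h4 : (univ.filter (fun C : Finset (G R) => C ⊆ cube (om k) b ∧
        (univ.filter (fun i : Fin K => tag T s (a : ℕ) i ⊆ C)).card < e)).card ≤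
        ((cube (om k) b).powerset.filter (fun C =>
          (univ.filter (fun i : Fin K => tag T s (a : ℕ) i ⊆ C)).card < e)).card := by
      apply card_le_card
      intro C hC
      have hC' := (mem_filter.1 hC).2
      rw [mem_filter, mem_powerset]
      exact hC'
    have h5 : ((univ.filter (fun C : Finset (G R) => C ⊆ cube (om k) b ∧
        (univ.filter (fun i : Fin K => tag T s (a : ℕ) i ⊆ C)).card < e)).card : ℝ) ≤
        (((cube (om k) b).powerset.filter (fun C =>
          (univ.filter (fun i : Fin K => tag T s (a : ℕ) i ⊆ C)).card < e)).card : ℝ) := by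
      exact_mod_cast h4
    have h6 : ((2 : ℝ) ^ (cube (om k) b).card) ≤ 2 ^ (2 * R + 6) :=
      pow_le_pow_right₀ (by norm_num) (cube_card (om k) b)
    exact le_trans h5 (le_trans h3 (mul_le_mul_of_nonneg_left h6 (by positivity)))

/-- The fifth clause. -/
theorem clause5 {R M q d : ℕ} (om : Idx R M → Trial R) (hfar : Far om d)
    [DecidablePred (fun C : Finset (G R) => ∃ x : ((Idx R M × Bool) × (Idx R M × Bool)) × Bool,
      x.1.1.1 ≠ x.1.2.1 ∧ C ⊆ cube (om x.1.1.1) x.1.1.2 ∧
        (side x.2 C \ cube (om x.1.2.1) x.1.2.2).card < q)] :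
    ((univ.filter (fun C : Finset (G R) => ∃ x : ((Idx R M × Bool) × (Idx R M × Bool)) × Bool,
      x.1.1.1 ≠ x.1.2.1 ∧ C ⊆ cube (om x.1.1.1) x.1.1.2 ∧
        (side x.2 C \ cube (om x.1.2.1) x.1.2.2).card < q)).card : ℝ) ≤
      2 * (2 * (2 * R + 1) ^ 2 * M : ℝ) ^ 2 * ((4 * R + 1) ^ q * 2 ^ (2 * R + 18) / 2 ^ d) := by
  classical
  have h := union_bound (ι := ((Idx R M × Bool) × (Idx R M × Bool)) × Bool) (β := Finset (G R))
    (fun x C => x.1.1.1 ≠ x.1.2.1 ∧ C ⊆ cube (om x.1.1.1) x.1.1.2 ∧
        (side x.2 C \ cube (om x.1.2.1) x.1.2.2).card < q)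
    ((4 * R + 1) ^ q * 2 ^ (2 * R + 18) / 2 ^ d) ?_
  · rw [Fintype.card_prod, Nat.cast_mul, Fintype.card_prod, Nat.cast_mul, card_idx,
      Fintype.card_bool] at h
    refine le_trans h (le_of_eq ?_)
    push_cast
    ring
  · rintro ⟨⟨⟨k, b⟩, ⟨l, b'⟩⟩, s⟩
    by_cases hkl : k = l
    · have h0 : (univ.filter (fun C : Finset (G R) => k ≠ l ∧ C ⊆ cube (om k) b ∧
          (side s C \ cube (om l) b').card < q)) = ∅ := by
        apply filter_eq_empty_iff.2
        intro C _ h
        exact h.1 hkl
      show ((univ.filter (fun C : Finset (G R) => k ≠ l ∧ C ⊆ cube (om k) b ∧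
          (side s C \ cube (om l) b').card < q)).card : ℝ) ≤ _
      rw [h0, card_empty, Nat.cast_zero]
      positivity
    · have hv := vv_card (om k) (om l) b b' s (hfar k l hkl b b' s)
      have hle : ((4 * R + 1) ^ q * 2 ^ (2 * R + 12) / 2 ^ d : ℝ) ≤
          (4 * R + 1) ^ q * 2 ^ (2 * R + 18) / 2 ^ d := by
        apply div_le_div_of_nonneg_right _ (by positivity)
        exact mul_le_mul_of_nonneg_left
          (pow_le_pow_right₀ (by norm_num) (by omega)) (by positivity)
      refine le_trans (le_trans (near_count_real (vv (om k) (om l) b b' s) q _ _ ?_ le_rfl)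
        (vv_pow q _ hv)) hle
      rintro C ⟨_, h1, h2⟩
      have hsub : C \ vv (om k) (om l) b b' s ⊆ side s C \ cube (om l) b' := by
        intro p hp
        rw [mem_sdiff, mem_vv] at hp
        rw [mem_sdiff, mem_side]
        have h3 : p ∈ cube (om k) b := h1 hp.1
        rw [cube, mem_union] at h3
        have h5 : p ∈ half (wd (om k) b) := by
          rcases h3 with h3 | h3
          · exact h3
          · exact absurd (Or.inr (Or.inl h3)) hp.2
        have h6 : p.1 = s := by
          by_contra h7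
          apply hp.2
          left
          right
          refine ⟨h5, ?_⟩
          cases h8 : p.1 <;> cases s <;> simp_all
        refine ⟨⟨hp.1, h6⟩, ?_⟩
        intro h4
        rw [cube, mem_union] at h4
        have h7 : p ∈ half (wd (om l) b') := by
          rcases h4 with h4 | h4
          · exact h4
          · exact absurd (Or.inr (Or.inr h4)) hp.2
        exact hp.2 (Or.inl (Or.inl ⟨⟨h5, h7⟩, h6⟩))
      have h3 := card_le_card hsub
      have h2' : (side s C \ cube (om l) b').card < q := h2
      omega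

theorem exc_count {R K M q e d : ℕ} (T : Tags R K) (om : Idx R M → Trial R)
    (hK : 100 * e ≤ K) (hfar : Far om d) (hrich : Rich T om) [DecidablePred (Exc T om q e)] :
    ((univ.filter (fun C : Finset (G R) => Exc T om q e C)).card : ℝ) ≤
      (4 * R + 1) ^ (2 * q + 8) +
      (2 * (2 * R + 1) ^ 2 * M : ℝ) ^ 2 * ((4 * R + 1) ^ (2 * q) * 2 ^ (2 * R + 12) / 2 ^ d) +
      2 * (2 * (2 * R + 1) ^ 2 * M : ℝ) * ((4 * R + 1) ^ 4 * 2 ^ (R + 6)) +
      2 * (2 * R + 1) * (2 * (2 * R + 1) ^ 2 * M : ℝ) * ((19 / 20) ^ (10 * e) * 2 ^ (2 * R + 6)) +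
      2 * (2 * (2 * R + 1) ^ 2 * M : ℝ) ^ 2 * ((4 * R + 1) ^ q * 2 ^ (2 * R + 18) / 2 ^ d) := by
  classical
  have h1 : ((univ.filter (fun C : Finset (G R) => C.card ≤ 2 * q + 8)).card : ℝ) ≤
      (4 * R + 1) ^ (2 * q + 8) := by
    have h := near_count_real (∅ : Finset (G R)) (2 * q + 8) 0
      (fun C : Finset (G R) => C.card ≤ 2 * q + 8)
      (fun C hC => by rw [sdiff_empty]; exact hC) (by rw [card_empty])
    rw [pow_zero, mul_one] at h
    exact h
  have h2 := clause2 (q := q) om hfar
  have h3 := clause3 om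
  have h4 := clause4 T om hK hrich
  have h5 := clause5 (q := q) om hfar
  have hsub : univ.filter (fun C : Finset (G R) => Exc T om q e C) ⊆
      (((univ.filter (fun C : Finset (G R) => C.card ≤ 2 * q + 8) ∪
        univ.filter (fun C : Finset (G R) => ∃ x : (Idx R M × Bool) × (Idx R M × Bool),
          x.1.1 ≠ x.2.1 ∧ (C \ cube (om x.1.1) x.1.2).card < q ∧
            (C \ cube (om x.2.1) x.2.2).card < q)) ∪
        univ.filter (fun C : Finset (G R) => ∃ x : (Idx R M × Bool) × Bool,
          C ⊆ cube (om x.1.1) x.1.2 ∧ (side x.2 C).card ≤ 4)) ∪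
        univ.filter (fun C : Finset (G R) =>
          ∃ x : (Idx R M × Bool) × (Bool × Fin (2 * R + 1)),
          C ⊆ cube (om x.1.1) x.1.2 ∧
            (univ.filter (fun i : Fin K => tag T x.2.1 (x.2.2 : ℕ) i ⊆ C)).card < e)) ∪
        univ.filter (fun C : Finset (G R) =>
          ∃ x : ((Idx R M × Bool) × (Idx R M × Bool)) × Bool,
          x.1.1.1 ≠ x.1.2.1 ∧ C ⊆ cube (om x.1.1.1) x.1.1.2 ∧
            (side x.2 C \ cube (om x.1.2.1) x.1.2.2).card < q) := by
    intro C hC
    have hC' := (mem_filter.1 hC).2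
    rw [mem_union, mem_union, mem_union, mem_union, mem_filter, mem_filter, mem_filter,
      mem_filter, mem_filter]
    rcases hC' with h | h | h | h | h
    · exact Or.inl (Or.inl (Or.inl (Or.inl ⟨mem_univ _, h⟩)))
    · obtain ⟨k, l, b, b', h⟩ := h
      exact Or.inl (Or.inl (Or.inl (Or.inr ⟨mem_univ _, ((k, b), (l, b')), h⟩)))
    · obtain ⟨k, b, h, s, h'⟩ := h
      exact Or.inl (Or.inl (Or.inr ⟨mem_univ _, ((k, b), s), h, h'⟩))
    · obtain ⟨k, b, h, s, a, ha, h'⟩ := h
      exact Or.inl (Or.inr ⟨mem_univ _, ((k, b), (s, ⟨a, by omega⟩)), h, h'⟩)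
    · obtain ⟨k, l, b, b', hkl, h, s, h'⟩ := h
      exact Or.inr ⟨mem_univ _, (((k, b), (l, b')), s), hkl, h, h'⟩
  have h6 := card_le_card hsub
  have h7 := le_trans h6 (le_trans (card_union_le _ _) (Nat.add_le_add_right
    (le_trans (card_union_le _ _) (Nat.add_le_add_right
      (le_trans (card_union_le _ _) (Nat.add_le_add_right (card_union_le _ _) _)) _)) _))
  have h8 : ((univ.filter (fun C : Finset (G R) => Exc T om q e C)).card : ℝ) ≤ _ :=
    Nat.cast_le.2 h7
  push_cast at h8
  linarith

end Pool.Agent.Lib.MP_e9f532_co.Nl
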