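import Mathlib
import Pool.Agent.Lib.MP_e9f532_co.Nl.Defs
import Pool.Agent.Lib.MP_e9f532_co.Dfc.Count

set_option autoImplicit false

/-! Module V1 (Halving): many words split a set exactly on both sides. -/

namespace Pool.Agent.Lib.MP_e9f532_co.Nl

open Finset

/-- One side. -/
lemma halving_one {R m : ℕ} (C : Finset (Fin R × Bool)) (hC : C.card = 2 * m) :
    2 ^ R ≤ (R + 1) * (univ.filter (fun v : Fin R → Bool =>
      (C ∩ Dfc.half v).card = m)).card := by
  classical
  set W := univ.filter (fun v : Fin R → Bool => (C ∩ Dfc.half v).card = m) with hW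
  set S : Finset (Fin R) := Dfc.sgl C with hS
  have hcard : C.card = 2 * (Dfc.dbl C).card + S.card := Dfc.card_eq_dbl_sgl C
  obtain ⟨k, hk⟩ : ∃ k, S.card = 2 * k := ⟨m - (Dfc.dbl C).card, by omega⟩
  have hmid : 2 ^ S.card ≤ (S.card + 1) * S.card.choose k :=
    Dfc.two_pow_le_choose (Or.inl hk.symm)
  have hRc : (univ \ S : Finset (Fin R)).card + S.card = R := by
    rw [card_sdiff_add_card_eq_card (subset_univ S)]; simp
  set g : Finset (Fin R) × Finset (Fin R) → (Fin R → Bool) := fun UV i =>
      if i ∈ S then (if i ∈ UV.1 then Dfc.side C i else ! Dfc.side C i)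
      else decide (i ∈ UV.2) with hg
  have hmaps : ∀ UV ∈ (powersetCard k S) ×ˢ (univ \ S).powerset, g UV ∈ W := by
    rintro ⟨U, V⟩ hUV
    rw [mem_product, mem_powersetCard, mem_powerset] at hUV
    obtain ⟨⟨hU, hUk⟩, -⟩ := hUV
    rw [hW, mem_filter]
    refine ⟨mem_univ _, ?_⟩
    rw [Dfc.card_inter_half_eq]
    have h1 : (Dfc.sgl C).filter (fun i => g (U, V) i = Dfc.side C i) = U := by
      ext i
      rw [mem_filter]
      constructor
      · rintro ⟨hi, hi'⟩
        by_contra h3
        have hiS : i ∈ S := hi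
        simp [hg, hiS, h3] at hi'
      · intro hi
        have hiS := hU hi
        exact ⟨hiS, by simp [hg, hiS, hi]⟩
    rw [h1, hUk]
    clear_value W g
    omega
  have hinj : Set.InjOn g ((powersetCard k S) ×ˢ (univ \ S).powerset : Finset _) := by
    rintro ⟨U, V⟩ h1 ⟨U', V'⟩ h2 h3
    simp only [coe_product, Set.mem_prod, mem_coe, mem_powersetCard, mem_powerset] at h1 h2
    obtain ⟨⟨hU, -⟩, hV⟩ := h1
    obtain ⟨⟨hU', -⟩, hV'⟩ := h2
    have hUU : U = U' := by
      ext i
      by_cases hi : i ∈ S
      · have h4 := congrFun h3 i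
        simp only [hg, hi, if_true] at h4
        by_cases h5 : i ∈ U <;> by_cases h6 : i ∈ U' <;> simp [h5, h6] at h4 ⊢
      · exact ⟨fun h => absurd (hU h) hi, fun h => absurd (hU' h) hi⟩
    have hVV : V = V' := by
      ext i
      by_cases hi : i ∈ S
      · constructor
        · intro h
          have := hV h
          rw [mem_sdiff] at this
          exact absurd hi this.2
        · intro h
          have := hV' h
          rw [mem_sdiff] at this
          exact absurd hi this.2
      · have h4 := congrFun h3 i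
        simp only [hg, hi, if_false] at h4
        simpa using h4
    rw [hUU, hVV]
  have hle := Finset.card_le_card_of_injOn g hmaps hinj
  rw [card_product, card_powersetCard, card_powerset] at hle
  have hpow : 2 ^ R = 2 ^ (univ \ S : Finset (Fin R)).card * 2 ^ S.card := by
    rw [← pow_add, hRc]
  have hSR : S.card + 1 ≤ R + 1 := by omega
  calc 2 ^ R = 2 ^ (univ \ S : Finset (Fin R)).card * 2 ^ S.card := hpow
    _ ≤ 2 ^ (univ \ S : Finset (Fin R)).card * ((S.card + 1) * S.card.choose k) :=
        Nat.mul_le_mul_left _ hmid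
    _ ≤ 2 ^ (univ \ S : Finset (Fin R)).card * ((R + 1) * S.card.choose k) :=
        Nat.mul_le_mul_left _ (Nat.mul_le_mul_right _ hSR)
    _ = (R + 1) * (S.card.choose k * 2 ^ (univ \ S : Finset (Fin R)).card) := by ring
    _ ≤ (R + 1) * W.card := Nat.mul_le_mul_left _ hle

lemma card_side_eq {R : ℕ} (s : Bool) (D : Finset (G R)) :
    (side s D).card = (univ.filter (fun x : Fin R × Bool => (s, x) ∈ D)).card := by
  classical
  symm
  apply Finset.card_bij (fun x _ => ((s, x) : G R))
  · intro x hx
    rw [mem_filter] at hx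
    exact mem_side.2 ⟨hx.2, rfl⟩
  · intro x _ y _ h
    exact (Prod.mk.inj h).2
  · intro p hp
    rw [mem_side] at hp
    refine ⟨p.2, ?_, ?_⟩
    · rw [mem_filter, ← hp.2]
      exact ⟨mem_univ _, hp.1⟩
    · rw [← hp.2]

theorem halving_count {R : ℕ} (D : Finset (G R)) (hD : ∀ s, Even (side s D).card) :
    4 ^ R ≤ (R + 1) ^ 2 * (univ.filter (fun w : Word R =>
      ∀ s, 2 * (side s (D ∩ half w)).card = (side s D).card)).card := by
  classical
  set Ds : Bool → Finset (Fin R × Bool) := fun s =>
    univ.filter (fun x : Fin R × Bool => (s, x) ∈ D) with hDs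
  have hm : ∀ s, ∃ m, (Ds s).card = 2 * m := by
    intro s
    obtain ⟨m, hm⟩ := hD s
    rw [card_side_eq] at hm
    exact ⟨m, by rw [hDs]; simp only; omega⟩
  choose m hm using hm
  set Ws : Bool → Finset (Fin R → Bool) := fun s =>
    univ.filter (fun v : Fin R → Bool => (Ds s ∩ Dfc.half v).card = m s) with hWs
  have h0 := halving_one (Ds false) (hm false)
  have h1 := halving_one (Ds true) (hm true)
  set W := univ.filter (fun w : Word R =>
      ∀ s, 2 * (side s (D ∩ half w)).card = (side s D).card) with hW
  have hle : ((Ws false) ×ˢ (Ws true)).card ≤ W.card := by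
    apply Finset.card_le_card_of_injOn
      (fun v => (fun i => if i.1 then v.2 i.2 else v.1 i.2 : Word R))
    · rintro ⟨v0, v1⟩ hv
      rw [mem_coe, mem_product] at hv
      obtain ⟨hv0, hv1⟩ := hv
      simp only [hWs, mem_filter, mem_univ, true_and] at hv0 hv1
      rw [mem_coe, hW, mem_filter]
      refine ⟨mem_univ _, ?_⟩
      intro s
      rw [card_side_eq, card_side_eq]
      have h2 : (univ.filter (fun x : Fin R × Bool => ((s, x) : G R) ∈
          D ∩ half (fun i => if i.1 then v1 i.2 else v0 i.2 : Word R))) =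
          Ds s ∩ Dfc.half (if s then v1 else v0) := by
        ext x
        rw [mem_filter, mem_inter, mem_half, mem_inter, hDs, mem_filter, Dfc.mem_half]
        cases s <;> simp
      rw [h2]
      have h3 := hm s
      cases s
      · simp only [Bool.false_eq_true, if_false]
        rw [hv0]
        exact h3.symm
      · simp only [if_true]
        rw [hv1]
        exact h3.symm
    · rintro ⟨v0, v1⟩ _ ⟨u0, u1⟩ _ h
      have h2 : v0 = u0 := by
        funext r
        have := congrFun h (false, r)
        simpa using this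
      have h3 : v1 = u1 := by
        funext r
        have := congrFun h (true, r)
        simpa using this
      rw [h2, h3]
  rw [card_product] at hle
  calc 4 ^ R = 2 ^ R * 2 ^ R := by rw [← mul_pow]; norm_num
    _ ≤ ((R + 1) * (Ws false).card) * ((R + 1) * (Ws true).card) := Nat.mul_le_mul h0 h1
    _ = (R + 1) ^ 2 * ((Ws false).card * (Ws true).card) := by ring
    _ ≤ (R + 1) ^ 2 * W.card := Nat.mul_le_mul_left _ hle

end Pool.Agent.Lib.MP_e9f532_co.Nl
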