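import Mathlib
import Pool.Agent.Lib.MP_e9f532_co.Nl.Defs
import Pool.Agent.Lib.MP_e9f532_co.Nl.Halving
import Pool.Agent.Lib.MP_e9f532_co.Nl.Danger

set_option autoImplicit false

/-! Module V5 (Good): many trials are good for a set that is not exceptional. -/

namespace Pool.Agent.Lib.MP_e9f532_co.Nl

open Finset

lemma side_union {R : ℕ} (s : Bool) (C D : Finset (G R)) :
    side s (C ∪ D) = side s C ∪ side s D := by
  classical
  ext p; simp only [mem_side, mem_union]; tauto

lemma side_sdiff {R : ℕ} (s : Bool) (C D : Finset (G R)) :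
    side s (C \ D) = side s C \ side s D := by
  classical
  ext p; simp only [mem_side, mem_sdiff]; tauto

lemma side_subset {R : ℕ} (s : Bool) (C : Finset (G R)) : side s C ⊆ C := by
  intro p hp; exact (mem_side.1 hp).1

lemma side_mono {R : ℕ} (s : Bool) {C D : Finset (G R)} (h : C ⊆ D) : side s C ⊆ side s D := by
  intro p hp
  rw [mem_side] at hp ⊢
  exact ⟨h hp.1, hp.2⟩

lemma card_sides {R : ℕ} (C : Finset (G R)) :
    (side false C).card + (side true C).card = C.card := by
  classical
  rw [← card_union_of_disjoint]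
  · congr 1
    ext p
    simp only [mem_union, mem_side]
    cases p.1 <;> simp
  · rw [disjoint_left]
    intro p hp hp'
    rw [mem_side] at hp hp'
    rw [hp.2] at hp'
    exact absurd hp'.2 (by simp)

/-- The two cubes of a trial meet in the overlap. -/
lemma cube_inter_cube {R : ℕ} (t : Trial R) {b b' : Bool} (h : b ≠ b') :
    cube t b ∩ cube t b' ⊆ ov t := by
  intro p hp
  rw [mem_inter, mem_cube, mem_cube] at hp
  have hb : b' = !b := by cases b <;> cases b' <;> simp_all
  rw [hb, wd_not] at hp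
  obtain ⟨h1 | h1, h2 | h2⟩ := hp
  · rw [h1] at h2
    cases wd t b (p.1, p.2.1) <;> simp at h2
  · exact h2
  · exact h1
  · exact h1

lemma card_ov_le {R : ℕ} (t : Trial R) : (ov t).card ≤ 6 := by
  unfold ov
  refine card_image_le.trans ?_
  simp

/-- At most one cube is near. -/
lemma near_unique {R K M q e : ℕ} (T : Tags R K) (om : Idx R M → Trial R)
    (C : Finset (G R)) (hC : ¬ Exc T om q e C) (k l : Idx R M) (b b' : Bool)
    (h1 : (C \ cube (om k) b).card < q) (h2 : (C \ cube (om l) b').card < q) :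
    k = l ∧ b = b' := by
  classical
  simp only [Exc, not_or] at hC
  have hkl : k = l := by
    by_contra hne
    exact hC.2.1 ⟨k, l, b, b', hne, h1, h2⟩
  refine ⟨hkl, ?_⟩
  subst hkl
  by_contra hne
  apply hC.1
  have h3 : C ⊆ (C \ cube (om k) b) ∪ ((C \ cube (om k) b') ∪ ov (om k)) := by
    intro p hp
    rw [mem_union, mem_union, mem_sdiff, mem_sdiff]
    by_cases h4 : p ∈ cube (om k) b
    · by_cases h5 : p ∈ cube (om k) b'
      · exact Or.inr (Or.inr (cube_inter_cube (om k) hne (mem_inter.2 ⟨h4, h5⟩)))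
      · exact Or.inr (Or.inl ⟨hp, h5⟩)
    · exact Or.inl ⟨hp, h4⟩
  have h4 := card_le_card h3
  have h5 := card_union_le (C \ cube (om k) b) ((C \ cube (om k) b') ∪ ov (om k))
  have h6 := card_union_le (C \ cube (om k) b') (ov (om k))
  have h7 := card_ov_le (om k)
  omega

lemma hh_le {a : ℕ} : hh a ≤ a := by
  unfold hh; split_ifs <;> omega

lemma le_two_hh {a : ℕ} : a ≤ 2 * hh a := by
  unfold hh; split_ifs <;> omega

lemma two_hh_le {a : ℕ} : 2 * hh a ≤ a + 3 := by
  unfold hh; split_ifs <;> omega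

lemma hh_pos {a : ℕ} (h : 1 ≤ a) : a + 1 ≤ 2 * hh a := by
  unfold hh; split_ifs <;> omega

/-- The choice of the overlap. -/
lemma exists_overlap {R K M q e : ℕ} (T : Tags R K) (om : Idx R M → Trial R)
    (C : Finset (G R)) (hC : ¬ Exc T om q e C) :
    ∃ H : Finset (G R), H ⊆ C ∧
      (∀ s, (side s H).card + (side s C).card = 2 * hh (side s C).card) ∧ H.Nonempty ∧
      ∀ k b, (C \ cube (om k) b).card < q → ¬ C ⊆ cube (om k) b → ¬ H ⊆ cube (om k) b := by
  classical
  -- the special point
  obtain ⟨x, hx, hxZ⟩ : ∃ x ∈ C, ∀ k b, (C \ cube (om k) b).card < q → ¬ C ⊆ cube (om k) b →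
      x ∉ cube (om k) b := by
    by_cases h : ∃ k b, (C \ cube (om k) b).card < q ∧ ¬ C ⊆ cube (om k) b
    · obtain ⟨k, b, h1, h2⟩ := h
      rw [not_subset] at h2
      obtain ⟨x, hx, hx'⟩ := h2
      refine ⟨x, hx, ?_⟩
      intro k' b' h3 _
      obtain ⟨rfl, rfl⟩ := near_unique T om C hC k k' b b' h1 h3
      exact hx'
    · push Not at h
      have hne : C.Nonempty := by
        rw [nonempty_iff_ne_empty]
        rintro rfl
        apply hC
        left; simp
      obtain ⟨x, hx⟩ := hne
      exact ⟨x, hx, fun k b h1 h2 => absurd (h k b h1) h2⟩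
  have hone : ∀ s, ∃ Hs : Finset (G R), Hs ⊆ side s C ∧ (x.1 = s → x ∈ Hs) ∧
      Hs.card + (side s C).card = 2 * hh (side s C).card := by
    intro s
    have e1 := le_two_hh (a := (side s C).card)
    have e2 := hh_le (a := (side s C).card)
    by_cases hs : x.1 = s
    · have hxs : x ∈ side s C := mem_side.2 ⟨hx, hs⟩
      have e3 : 1 ≤ (side s C).card := card_pos.2 ⟨x, hxs⟩
      have e4 := hh_pos e3
      obtain ⟨Hs, h1, h2, h3⟩ := exists_subsuperset_card_eq (s := {x}) (t := side s C)
        (n := 2 * hh (side s C).card - (side s C).card) (by simpa using hxs)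
        (by rw [card_singleton]; omega) (by omega)
      exact ⟨Hs, h2, fun _ => h1 (mem_singleton_self x), by omega⟩
    · obtain ⟨Hs, h1, h2⟩ := exists_subset_card_eq (s := side s C)
        (n := 2 * hh (side s C).card - (side s C).card) (by omega)
      exact ⟨Hs, h1, fun h => absurd h hs, by omega⟩
  choose H hH1 hH2 hH3 using hone
  have hside : ∀ s, side s (H false ∪ H true) = H s := by
    intro s
    ext p
    rw [mem_side, mem_union]
    constructor
    · rintro ⟨h1 | h1, h2⟩
      · have h3 := (mem_side.1 (hH1 _ h1)).2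
        rw [h3] at h2
        rw [← h2]; exact h1
      · have h3 := (mem_side.1 (hH1 _ h1)).2
        rw [h3] at h2
        rw [← h2]; exact h1
    · intro h1
      have h3 := (mem_side.1 (hH1 _ h1)).2
      refine ⟨?_, h3⟩
      cases s
      · exact Or.inl h1
      · exact Or.inr h1
  have hxH : x ∈ H false ∪ H true := by
    rw [mem_union]
    rcases h : x.1 with _ | _
    · exact Or.inl (hH2 false h)
    · exact Or.inr (hH2 true h)
  refine ⟨H false ∪ H true, ?_, ?_, ⟨x, hxH⟩, ?_⟩
  · exact union_subset ((hH1 false).trans (side_subset _ _)) ((hH1 true).trans (side_subset _ _))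
  · intro s
    rw [hside]
    exact hH3 s
  · intro k b h1 h2 h3
    exact hxZ k b h1 h2 (h3 hxH)

/-- A nonempty set with at most six points is the range of a map from `Fin 6`. -/
lemma exists_range {α : Type} [DecidableEq α] (H : Finset α) (hne : H.Nonempty)
    (hc : H.card ≤ 6) : ∃ f : Fin 6 → α, univ.image f = H := by
  classical
  obtain ⟨x, hx⟩ := hne
  have e := H.equivFin
  refine ⟨fun i => if h : (i : ℕ) < H.card then (e.symm ⟨i, h⟩ : α) else x, ?_⟩
  ext y
  rw [mem_image]
  constructor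
  · rintro ⟨i, -, rfl⟩
    by_cases h : (i : ℕ) < H.card
    · simp only [h, dif_pos]; exact (e.symm ⟨i, h⟩).2
    · simp only [h, dif_neg, not_false_eq_true]; exact hx
  · intro hy
    have h1 : ((e ⟨y, hy⟩ : Fin H.card) : ℕ) < H.card := (e ⟨y, hy⟩).2
    refine ⟨⟨(e ⟨y, hy⟩ : Fin H.card), by omega⟩, mem_univ _, ?_⟩
    simp

/-- The levels of the tags that matter. -/
lemma exists_levels {R K M q e : ℕ} (T : Tags R K) (om : Idx R M → Trial R)
    (C : Finset (G R)) (hC : ¬ Exc T om q e C) (hq : 1 ≤ q) :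
    ∃ A : Bool → Finset ℕ, (∀ s, (A s).card ≤ 2) ∧
      (∀ s, ∀ a ∈ A s, e ≤ (univ.filter (fun i : Fin K => tag T s a i ⊆ C)).card) ∧
      ∀ (k : Idx R M) (b s : Bool) (a : ℕ), C ⊆ cube (om k) b → a ≤ 2 * R →
        hh a = (k.1 s : ℕ) → 4 ≤ (k.1 s : ℕ) → a ∈ A s := by
  classical
  have hC' := hC
  simp only [Exc, not_or] at hC'
  obtain ⟨-, -, -, h4, -⟩ := hC'
  by_cases h : ∃ k b, C ⊆ cube (om k) b
  · obtain ⟨k, b, hk⟩ := h
    have hnear : (C \ cube (om k) b).card < q := by
      rw [sdiff_eq_empty_iff_subset.2 hk, card_empty]; omega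
    refine ⟨fun s => (({2 * (k.1 s : ℕ) - 3, 2 * (k.1 s : ℕ) - 2} : Finset ℕ)).filter
      (fun a => a ≤ 2 * R), ?_, ?_, ?_⟩
    · intro s
      exact (card_le_card (filter_subset _ _)).trans card_le_two
    · intro s a ha
      rw [mem_filter] at ha
      by_contra hcon
      rw [not_le] at hcon
      exact h4 ⟨k, b, hk, s, a, ha.2, hcon⟩
    · intro k' b' s a h1 h2 h3 h5
      have hnear' : (C \ cube (om k') b').card < q := by
        rw [sdiff_eq_empty_iff_subset.2 h1, card_empty]; omega
      obtain ⟨rfl, rfl⟩ := near_unique T om C hC k k' b b' hnear hnear'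
      rw [mem_filter, mem_insert, mem_singleton]
      refine ⟨?_, h2⟩
      unfold hh at h3
      split_ifs at h3 <;> omega
  · refine ⟨fun _ => ∅, by simp, by simp, ?_⟩
    intro k b s a h1
    exact absurd ⟨k, b, h1⟩ h

/-- The bad words of the first kind. -/
lemma inside_real {R q : ℕ} (b : Bool) (D Z : Finset (G R)) (w0 : Word R) (hZ : half w0 ⊆ Z)
    (hD : q ≤ (D \ Z).card + 6) :
    ((univ.filter (fun w : Word R => D ∩ half (fun i => Bool.xor b (w i)) ⊆ Z)).card : ℝ) ≤
      4 ^ R * (64 / 2 ^ q) := by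
  have h1 := inside_count (m := q - 6) b D Z w0 hZ (by omega)
  have h2 : (((univ.filter (fun w : Word R =>
      D ∩ half (fun i => Bool.xor b (w i)) ⊆ Z)).card : ℕ) : ℝ) * 2 ^ (q - 6) ≤ 4 ^ R := by
    exact_mod_cast h1
  have h3 : (2 : ℝ) ^ q ≤ 64 * 2 ^ (q - 6) := by
    calc (2 : ℝ) ^ q ≤ 2 ^ (6 + (q - 6)) := pow_le_pow_right₀ (by norm_num) (by omega)
      _ = 64 * 2 ^ (q - 6) := by rw [pow_add]; norm_num
  rw [← mul_div_assoc, le_div_iff₀ (by positivity)]
  calc _ ≤ (((univ.filter (fun w : Word R =>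
        D ∩ half (fun i => Bool.xor b (w i)) ⊆ Z)).card : ℕ) : ℝ) * (64 * 2 ^ (q - 6)) := by
        gcongr
    _ = 64 * ((((univ.filter (fun w : Word R =>
        D ∩ half (fun i => Bool.xor b (w i)) ⊆ Z)).card : ℕ) : ℝ) * 2 ^ (q - 6)) := by ring
    _ ≤ 64 * 4 ^ R := by gcongr
    _ = 4 ^ R * 64 := by ring

lemma tags_real {R K e : ℕ} (T : Tags R K) (s : Bool) (a : ℕ) (b : Bool) (S : Finset (Fin K))
    (he : e ≤ S.card) :
    ((univ.filter (fun w : Word R => ∀ i ∈ S,
      ¬ tag T s a i ⊆ half (fun i => Bool.xor b (w i)))).card : ℝ) ≤ 4 ^ R * (3 / 4) ^ e := by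
  have h1 := tags_count T s a b S
  have h2 : (((univ.filter (fun w : Word R => ∀ i ∈ S,
      ¬ tag T s a i ⊆ half (fun i => Bool.xor b (w i)))).card : ℕ) : ℝ) * 4 ^ S.card ≤
      3 ^ S.card * 4 ^ R := by exact_mod_cast h1
  have h3 : ((3 : ℝ) / 4) ^ S.card ≤ (3 / 4) ^ e :=
    pow_le_pow_of_le_one (by norm_num) (by norm_num) he
  calc _ ≤ (4 : ℝ) ^ R * (3 / 4) ^ S.card := by
        rw [div_pow, ← mul_div_assoc, le_div_iff₀ (by positivity)]
        linarith
    _ ≤ 4 ^ R * (3 / 4) ^ e := by gcongr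

theorem good_count {R K M q e : ℕ} (hR : 10 ≤ R) (T : Tags R K) (om : Idx R M → Trial R)
    (C : Finset (G R)) (hC : ¬ Exc T om q e C) (τ : Bool → Fin (2 * R + 1))
    (hτ : ∀ s, (τ s : ℕ) = typ C s)
    (hnum : 6 * (2 * (2 * R + 1) ^ 2 * M : ℝ) * 64 / 2 ^ q + 8 * (3 / 4) ^ e ≤
      1 / (2 * ((R : ℝ) + 1) ^ 2))
    [DecidablePred (GoodTrial T om τ C)] :
    (4 : ℝ) ^ R / (2 * ((R : ℝ) + 1) ^ 2) ≤
      (univ.filter (fun t : Trial R => GoodTrial T om τ C t)).card := by
  classical
  have hC' := hC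
  simp only [Exc, not_or] at hC'
  obtain ⟨hC1, -, hC3, -, hC5⟩ := hC'
  obtain ⟨H, hHC, hHs, hHne, hHZ⟩ := exists_overlap T om C hC
  have hHc : H.card ≤ 6 := by
    have e1 := card_sides H
    have e2 := hHs false
    have e3 := hHs true
    have e4 := two_hh_le (a := (side false C).card)
    have e5 := two_hh_le (a := (side true C).card)
    omega
  obtain ⟨f, hf⟩ := exists_range H hHne hHc
  set D := C \ H with hD
  have hDs : ∀ s, (side s D).card + (side s H).card = (side s C).card := by
    intro s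
    rw [hD, side_sdiff]
    exact card_sdiff_add_card_eq_card (side_mono s hHC)
  have heven : ∀ s, Even (side s D).card := by
    intro s
    have e1 := hDs s
    have e2 := hHs s
    have e3 := hh_le (a := (side s C).card)
    exact ⟨(side s C).card - hh (side s C).card, by omega⟩
  -- `q` is positive if there is a trial
  have hq : ∀ _k : Idx R M, 1 ≤ q := by
    intro k
    by_contra hq0
    have hq0' : q = 0 := by omega
    have hM : 1 ≤ M := by
      have := k.2.pos
      omega
    have hM' : (1 : ℝ) ≤ M := by exact_mod_cast hM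
    rw [hq0'] at hnum
    have h1 : (1 : ℝ) ≤ (2 * (R : ℝ) + 1) ^ 2 := by nlinarith [(Nat.cast_nonneg R : (0 : ℝ) ≤ R)]
    have h2 : (1 : ℝ) ≤ (2 * (R : ℝ) + 1) ^ 2 * M := by nlinarith
    have h3 : (0 : ℝ) ≤ 8 * (3 / 4) ^ e := by positivity
    have h4 : 1 / (2 * ((R : ℝ) + 1) ^ 2) ≤ 1 := by
      rw [div_le_one (by positivity)]
      nlinarith [(Nat.cast_nonneg R : (0 : ℝ) ≤ R)]
    have h5 : 6 * (2 * (2 * (R : ℝ) + 1) ^ 2 * M : ℝ) * 64 / 2 ^ 0 =
        768 * ((2 * (R : ℝ) + 1) ^ 2 * M) := by ring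
    rw [h5] at hnum
    linarith
  obtain ⟨A, hA2, hAe, hAmem⟩ : ∃ A : Bool → Finset ℕ, (∀ s, (A s).card ≤ 2) ∧
      (∀ s, ∀ a ∈ A s, e ≤ (univ.filter (fun i : Fin K => tag T s a i ⊆ C)).card) ∧
      ∀ (k : Idx R M) (b s : Bool) (a : ℕ), C ⊆ cube (om k) b → a ≤ 2 * R →
        hh a = (k.1 s : ℕ) → 4 ≤ (k.1 s : ℕ) → a ∈ A s := by
    by_cases h : 1 ≤ q
    · exact exists_levels T om C hC h
    · exact ⟨fun _ => ∅, by simp, by simp, fun k => absurd (hq k) h⟩
  -- halving words
  have hhalf := halving_count D heven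
  set W := univ.filter (fun w : Word R =>
      ∀ s, 2 * (side s (D ∩ half w)).card = (side s D).card) with hW
  -- bad words
  set I1 : Finset ((Idx R M × Bool) × Bool) :=
    univ.filter (fun x => q ≤ (C \ cube (om x.1.1) x.1.2).card) with hI1
  set B1 := I1.biUnion (fun x => univ.filter (fun w : Word R =>
    D ∩ half (fun i => Bool.xor x.2 (w i)) ⊆ cube (om x.1.1) x.1.2)) with hB1
  set I2 : Finset ((Idx R M × Bool) × (Bool × Bool)) :=
    univ.filter (fun x => q ≤ (side x.2.1 C \ cube (om x.1.1) x.1.2).card) with hI2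
  set B2 := I2.biUnion (fun x => univ.filter (fun w : Word R =>
    side x.2.1 D ∩ half (fun i => Bool.xor x.2.2 (w i)) ⊆ cube (om x.1.1) x.1.2)) with hB2
  set B3 := (univ : Finset (Bool × Bool)).biUnion (fun x => (A x.1).biUnion (fun a =>
    univ.filter (fun w : Word R => ∀ i ∈ univ.filter (fun i : Fin K => tag T x.1 a i ⊆ C),
      ¬ tag T x.1 a i ⊆ half (fun j => Bool.xor x.2 (w j))))) with hB3
  have hcardIdx : (Fintype.card (Idx R M) : ℝ) = (2 * R + 1) ^ 2 * M := by
    have : Fintype.card (Idx R M) = (2 * R + 1) ^ 2 * M := by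
      simp [Fintype.card_prod]
    rw [this]; push_cast; ring
  have hcube : ∀ (k : Idx R M) (b : Bool), half (wd (om k) b) ⊆ cube (om k) b :=
    fun k b => subset_union_left
  have hb1 : (B1.card : ℝ) ≤ (4 * ((2 * R + 1) ^ 2 * M)) * (4 ^ R * (64 / 2 ^ q)) := by
    calc (B1.card : ℝ) ≤ ∑ x ∈ I1, ((univ.filter (fun w : Word R =>
          D ∩ half (fun i => Bool.xor x.2 (w i)) ⊆ cube (om x.1.1) x.1.2)).card : ℝ) := by
          exact_mod_cast card_biUnion_le
      _ ≤ ∑ _x ∈ I1, (4 : ℝ) ^ R * (64 / 2 ^ q) := by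
          apply sum_le_sum
          intro x hx
          rw [hI1, mem_filter] at hx
          apply inside_real x.2 D _ (wd (om x.1.1) x.1.2) (hcube _ _)
          have h1 : C \ cube (om x.1.1) x.1.2 ⊆ (D \ cube (om x.1.1) x.1.2) ∪ H := by
            intro p hp
            rw [mem_sdiff] at hp
            rw [mem_union, mem_sdiff, hD, mem_sdiff]
            by_cases h2 : p ∈ H
            · exact Or.inr h2
            · exact Or.inl ⟨⟨hp.1, h2⟩, hp.2⟩
          have h2 := (card_le_card h1).trans (card_union_le _ _)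
          omega
      _ = (I1.card : ℝ) * (4 ^ R * (64 / 2 ^ q)) := by simp
      _ ≤ _ := by
          apply mul_le_mul_of_nonneg_right _ (by positivity)
          have h1 : (I1.card : ℝ) ≤ (Fintype.card ((Idx R M × Bool) × Bool) : ℝ) := by
            exact_mod_cast card_le_univ _
          rw [Fintype.card_prod, Fintype.card_prod, Fintype.card_bool] at h1
          push_cast at h1
          rw [hcardIdx] at h1
          linarith
  have hb2 : (B2.card : ℝ) ≤ (8 * ((2 * R + 1) ^ 2 * M)) * (4 ^ R * (64 / 2 ^ q)) := by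
    calc (B2.card : ℝ) ≤ ∑ x ∈ I2, ((univ.filter (fun w : Word R =>
          side x.2.1 D ∩ half (fun i => Bool.xor x.2.2 (w i)) ⊆
            cube (om x.1.1) x.1.2)).card : ℝ) := by
          exact_mod_cast card_biUnion_le
      _ ≤ ∑ _x ∈ I2, (4 : ℝ) ^ R * (64 / 2 ^ q) := by
          apply sum_le_sum
          intro x hx
          rw [hI2, mem_filter] at hx
          apply inside_real x.2.2 (side x.2.1 D) _ (wd (om x.1.1) x.1.2) (hcube _ _)
          have h1 : side x.2.1 C \ cube (om x.1.1) x.1.2 ⊆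
              (side x.2.1 D \ cube (om x.1.1) x.1.2) ∪ H := by
            intro p hp
            rw [mem_sdiff, mem_side] at hp
            rw [mem_union, mem_sdiff, mem_side, hD, mem_sdiff]
            by_cases h2 : p ∈ H
            · exact Or.inr h2
            · exact Or.inl ⟨⟨⟨hp.1.1, h2⟩, hp.1.2⟩, hp.2⟩
          have h2 := (card_le_card h1).trans (card_union_le _ _)
          omega
      _ = (I2.card : ℝ) * (4 ^ R * (64 / 2 ^ q)) := by simp
      _ ≤ _ := by
          apply mul_le_mul_of_nonneg_right _ (by positivity)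
          have h1 : (I2.card : ℝ) ≤ (Fintype.card ((Idx R M × Bool) × (Bool × Bool)) : ℝ) := by
            exact_mod_cast card_le_univ _
          have h00 : Fintype.card (Bool × Bool) = 4 := by simp [Fintype.card_prod]
          rw [Fintype.card_prod (Idx R M × Bool) (Bool × Bool), Fintype.card_prod (Idx R M) Bool,
            Fintype.card_bool, h00] at h1
          push_cast at h1
          rw [hcardIdx] at h1
          linarith
  have hb3 : (B3.card : ℝ) ≤ 8 * (4 ^ R * (3 / 4) ^ e) := by
    calc (B3.card : ℝ) ≤ ∑ x : Bool × Bool, (((A x.1).biUnion (fun a =>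
          univ.filter (fun w : Word R => ∀ i ∈ univ.filter (fun i : Fin K => tag T x.1 a i ⊆ C),
            ¬ tag T x.1 a i ⊆ half (fun j => Bool.xor x.2 (w j))))).card : ℝ) := by
          exact_mod_cast card_biUnion_le
      _ ≤ ∑ _x : Bool × Bool, 2 * ((4 : ℝ) ^ R * (3 / 4) ^ e) := by
          apply sum_le_sum
          intro x _
          calc (((A x.1).biUnion (fun a =>
              univ.filter (fun w : Word R => ∀ i ∈ univ.filter (fun i : Fin K =>
                tag T x.1 a i ⊆ C), ¬ tag T x.1 a i ⊆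
                  half (fun j => Bool.xor x.2 (w j))))).card : ℝ)
              ≤ ∑ a ∈ A x.1, ((univ.filter (fun w : Word R =>
                ∀ i ∈ univ.filter (fun i : Fin K => tag T x.1 a i ⊆ C),
                ¬ tag T x.1 a i ⊆ half (fun j => Bool.xor x.2 (w j)))).card : ℝ) := by
                exact_mod_cast card_biUnion_le
            _ ≤ ∑ _a ∈ A x.1, (4 : ℝ) ^ R * (3 / 4) ^ e := by
                apply sum_le_sum
                intro a ha
                exact tags_real T x.1 a x.2 _ (hAe x.1 a ha)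
            _ = ((A x.1).card : ℝ) * ((4 : ℝ) ^ R * (3 / 4) ^ e) := by simp
            _ ≤ 2 * ((4 : ℝ) ^ R * (3 / 4) ^ e) := by
                apply mul_le_mul_of_nonneg_right _ (by positivity)
                exact_mod_cast hA2 x.1
      _ = 8 * (4 ^ R * (3 / 4) ^ e) := by
          rw [sum_const, card_univ, Fintype.card_prod, Fintype.card_bool, nsmul_eq_mul]
          push_cast; ring
  -- the good words
  have hgood : ∀ w ∈ W \ (B1 ∪ (B2 ∪ B3)), GoodTrial T om τ C (w, f) := by
    intro w hw
    rw [mem_sdiff, mem_union, mem_union, not_or, not_or] at hw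
    obtain ⟨hwW, hw1, hw2, hw3⟩ := hw
    rw [hW, mem_filter] at hwW
    have hov : ov ((w, f) : Trial R) = H := hf
    have hwdb : ∀ b, wd ((w, f) : Trial R) b = fun i => Bool.xor b (w i) := fun _ => rfl
    have hPD : ∀ b, C ∩ cube ((w, f) : Trial R) b =
        (D ∩ half (wd ((w, f) : Trial R) b)) ∪ H := by
      intro b
      ext p
      rw [mem_inter, cube, hov, mem_union, mem_union, mem_inter, hD, mem_sdiff]
      constructor
      · rintro ⟨h1, h2 | h2⟩
        · by_cases h3 : p ∈ H
          · exact Or.inr h3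
          · exact Or.inl ⟨⟨h1, h3⟩, h2⟩
        · exact Or.inr h2
      · rintro (h1 | h1)
        · exact ⟨h1.1.1, Or.inl h1.2⟩
        · exact ⟨hHC h1, Or.inr h1⟩
    have hsz : ∀ b s, 2 * (side s (D ∩ half (wd ((w, f) : Trial R) b))).card =
        (side s D).card := by
      intro b s
      cases b
      · have : wd ((w, f) : Trial R) false = w := by
          funext i; simp [wd]
        rw [this]
        exact hwW.2 s
      · have h1 : side s (D ∩ half (wd ((w, f) : Trial R) true)) =
            side s D \ side s (D ∩ half w) := by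
          ext p
          simp only [mem_side, mem_inter, mem_sdiff, mem_half, wd, Bool.true_xor]
          cases hp : p.2.2 <;> cases hp' : w (p.1, p.2.1) <;> simp
        rw [h1, card_sdiff_of_subset (side_mono s inter_subset_left)]
        have h2 := hwW.2 s
        omega
    have hcardP : ∀ b s, (side s (C ∩ cube ((w, f) : Trial R) b)).card = (τ s : ℕ) := by
      intro b s
      rw [hPD, side_union, card_union_of_disjoint, hτ, typ]
      · have e1 := hsz b s
        have e2 := hDs s
        have e3 := hHs s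
        omega
      · rw [disjoint_left]
        intro p hp hp'
        rw [mem_side, mem_inter, hD, mem_sdiff] at hp
        exact hp.1.1.2 (side_subset _ _ hp')
    refine ⟨hov ▸ hHC, hcardP, ?_⟩
    intro k b' _ b hResp
    obtain ⟨hPZ, hPs, hlast⟩ := hResp
    have hHP : H ⊆ C ∩ cube ((w, f) : Trial R) b := by
      rw [hPD]; exact subset_union_right
    have hDP : D ∩ half (wd ((w, f) : Trial R) b) ⊆ C ∩ cube ((w, f) : Trial R) b := by
      rw [hPD]; exact subset_union_left
    by_cases hnear : (C \ cube (om k) b').card < q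
    · by_cases hCZ : C ⊆ cube (om k) b'
      · -- `C` inside the cube
        have h5 : ∀ s, 5 ≤ (side s C).card := by
          intro s
          by_contra hcon
          exact hC3 ⟨k, b', hCZ, s, by omega⟩
        have h6 : ∀ s, 4 ≤ (k.1 s : ℕ) := by
          intro s
          have e1 := hPs s
          rw [hcardP b s, hτ s, typ] at e1
          have e2 := h5 s
          have e3 : 4 ≤ hh (side s C).card := by
            unfold hh; split_ifs <;> omega
          omega
        rcases hlast with ⟨s, hs⟩ | ⟨s, a, ha, hha, hweak⟩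
        · have := h6 s; omega
        · rcases hweak with hno | ⟨l, b'', hal, hlsub⟩
          · apply hw3
            rw [hB3, mem_biUnion]
            refine ⟨(s, b), mem_univ _, ?_⟩
            rw [mem_biUnion]
            refine ⟨a, hAmem k b' s a hCZ ha hha (h6 s), ?_⟩
            rw [mem_filter]
            refine ⟨mem_univ _, ?_⟩
            intro i hi hsub
            rw [mem_filter] at hi
            apply hno i
            intro p hp
            rw [mem_inter]
            refine ⟨hi.2 hp, ?_⟩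
            rw [cube, mem_union]
            exact Or.inl (hsub hp)
          · apply hw2
            rw [hB2, mem_biUnion]
            refine ⟨((l, b''), (s, b)), ?_, ?_⟩
            · rw [hI2, mem_filter]
              refine ⟨mem_univ _, ?_⟩
              have hkl : k ≠ l := by
                rintro rfl
                have e1 := h6 s
                unfold hh at hha
                split_ifs at hha <;> omega
              by_contra hcon
              rw [not_le] at hcon
              exact hC5 ⟨k, l, b', b'', hkl, hCZ, s, hcon⟩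
            · rw [mem_filter]
              refine ⟨mem_univ _, ?_⟩
              intro p hp
              apply hlsub
              rw [mem_inter, mem_side] at hp
              rw [mem_side]
              exact ⟨hDP (mem_inter.2 ⟨hp.1.1, hp.2⟩), hp.1.2⟩
      · exact hHZ k b' hnear hCZ (hHP.trans hPZ)
    · apply hw1
      rw [hB1, mem_biUnion]
      refine ⟨((k, b'), b), ?_, ?_⟩
      · rw [hI1, mem_filter]
        exact ⟨mem_univ _, by simpa using hnear⟩
      · rw [mem_filter]
        exact ⟨mem_univ _, hDP.trans hPZ⟩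
  have hcount : (W \ (B1 ∪ (B2 ∪ B3))).card ≤
      (univ.filter (fun t : Trial R => GoodTrial T om τ C t)).card := by
    apply Finset.card_le_card_of_injOn (fun w => ((w, f) : Trial R))
    · intro w hw
      rw [mem_coe] at hw
      rw [mem_coe, mem_filter]
      exact ⟨mem_univ _, hgood w hw⟩
    · intro w _ w' _ h
      exact (Prod.mk.inj h).1
  have hcount2 : W.card ≤ (W \ (B1 ∪ (B2 ∪ B3))).card + (B1.card + (B2.card + B3.card)) := by
    calc W.card ≤ ((W \ (B1 ∪ (B2 ∪ B3))) ∪ (B1 ∪ (B2 ∪ B3))).card := by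
          apply card_le_card
          intro w hw
          rw [mem_union, mem_sdiff]
          by_cases h : w ∈ B1 ∪ (B2 ∪ B3)
          · exact Or.inr h
          · exact Or.inl ⟨hw, h⟩
      _ ≤ (W \ (B1 ∪ (B2 ∪ B3))).card + (B1 ∪ (B2 ∪ B3)).card := card_union_le _ _
      _ ≤ _ := by
          have h1 := card_union_le B1 (B2 ∪ B3)
          have h2 := card_union_le B2 B3
          omega
  have hreal : (W.card : ℝ) ≤ (univ.filter (fun t : Trial R => GoodTrial T om τ C t)).card +
      ((B1.card : ℝ) + (B2.card + B3.card)) := by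
    have h1 : (W.card : ℝ) ≤ ((W \ (B1 ∪ (B2 ∪ B3))).card : ℝ) +
        ((B1.card : ℝ) + (B2.card + B3.card)) := by exact_mod_cast hcount2
    have h2 : ((W \ (B1 ∪ (B2 ∪ B3))).card : ℝ) ≤
        (univ.filter (fun t : Trial R => GoodTrial T om τ C t)).card := by exact_mod_cast hcount
    linarith
  have hWreal : (4 : ℝ) ^ R / ((R : ℝ) + 1) ^ 2 ≤ W.card := by
    rw [div_le_iff₀ (by positivity)]
    have h1 : (4 : ℝ) ^ R ≤ ((R : ℝ) + 1) ^ 2 * W.card := by exact_mod_cast hhalf
    linarith
  have hbadtot : (B1.card : ℝ) + (B2.card + B3.card) ≤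
      4 ^ R * (1 / (2 * ((R : ℝ) + 1) ^ 2)) := by
    have h1 : (B1.card : ℝ) + (B2.card + B3.card) ≤ 4 ^ R *
        (6 * (2 * (2 * R + 1) ^ 2 * M : ℝ) * 64 / 2 ^ q + 8 * (3 / 4) ^ e) := by
      have h2 : (4 : ℝ) ^ R *
          (6 * (2 * (2 * R + 1) ^ 2 * M : ℝ) * 64 / 2 ^ q + 8 * (3 / 4) ^ e) =
          (4 * ((2 * R + 1) ^ 2 * M)) * (4 ^ R * (64 / 2 ^ q)) +
          (8 * ((2 * R + 1) ^ 2 * M)) * (4 ^ R * (64 / 2 ^ q)) +
          8 * (4 ^ R * (3 / 4) ^ e) := by ring
      rw [h2]
      linarith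
    exact h1.trans (mul_le_mul_of_nonneg_left hnum (by positivity))
  have hsplit : (4 : ℝ) ^ R / ((R : ℝ) + 1) ^ 2 =
      4 ^ R / (2 * ((R : ℝ) + 1) ^ 2) + 4 ^ R * (1 / (2 * ((R : ℝ) + 1) ^ 2)) := by
    field_simp
    ring
  linarith

lemma weak_congr {R K M : ℕ} (T : Tags R K) (om om' : Idx R M → Trial R)
    (τ : Bool → Fin (2 * R + 1)) (h : ∀ k : Idx R M, k.1 ≠ τ → om k = om' k) (s : Bool) (a : ℕ)
    (ha : (τ s : ℕ) < a) (P : Finset (G R)) (hw : Weak T om s a P) : Weak T om' s a P := by
  rcases hw with h1 | ⟨l, b, h1, h2⟩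
  · exact Or.inl h1
  · right
    have h3 : l.1 ≠ τ := by
      rintro rfl
      omega
    exact ⟨l, b, h1, by rw [← h l h3]; exact h2⟩

lemma goodTrial_of {R K M : ℕ} (T : Tags R K) (om om' : Idx R M → Trial R)
    (C : Finset (G R)) (τ : Bool → Fin (2 * R + 1)) (h : ∀ k : Idx R M, k.1 ≠ τ → om k = om' k)
    (t : Trial R) (hg : GoodTrial T om τ C t) : GoodTrial T om' τ C t := by
  obtain ⟨h1, h2, h3⟩ := hg
  refine ⟨h1, h2, ?_⟩
  intro k b' hk b hR
  apply h3 k b' hk b
  obtain ⟨h4, h5, h6⟩ := hR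
  refine ⟨by rw [h k hk]; exact h4, h5, ?_⟩
  by_cases h7 : ∃ s, (k.1 s : ℕ) ≤ 3
  · exact Or.inl h7
  · rcases h6 with h6 | ⟨s, a, h8, h9, h10⟩
    · exact absurd h6 h7
    · right
      refine ⟨s, a, h8, h9, ?_⟩
      apply weak_congr T om' om τ (fun k hk => (h k hk).symm) s a _ _ h10
      have h11 : ¬ (k.1 s : ℕ) ≤ 3 := fun h => h7 ⟨s, h⟩
      have h12 := h5 s
      rw [h2 b s] at h12
      unfold hh at h9
      split_ifs at h9 <;> omega

/-- Only the trials of other types matter. -/
theorem goodTrial_congr {R K M : ℕ} (T : Tags R K) (om om' : Idx R M → Trial R)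
    (C : Finset (G R)) (τ : Bool → Fin (2 * R + 1)) (h : ∀ k : Idx R M, k.1 ≠ τ → om k = om' k)
    (t : Trial R) : GoodTrial T om τ C t ↔ GoodTrial T om' τ C t :=
  ⟨goodTrial_of T om om' C τ h t, goodTrial_of T om' om C τ (fun k hk => (h k hk).symm) t⟩

end Pool.Agent.Lib.MP_e9f532_co.Nl
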