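import Mathlib

set_option autoImplicit false

/-!
Helper file for `MP_e9f532_co` (helper19): independence lemma for finite product spaces and the
counting lemmas for subsets used in the random construction.
-/

namespace Pool.Agent.Lib.MP_e9f532_co.Nl

open Finset

section Indep

variable {ι : Type} [Fintype ι] [DecidableEq ι] {β : ι → Type} [∀ i, Fintype (β i)]
  [∀ i, DecidableEq (β i)]

/-- Independence: if `Bad ω` forces `ω i` to avoid the large set `Good ω i` for all `i ∈ T`, and
`Good ω` depends only on the coordinates outside `T`, then few `ω` are bad. -/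
lemma indep (T : Finset ι) (Bad : (∀ i, β i) → Prop)
    (Good : (∀ i, β i) → ∀ i, Finset (β i))
    (hloc : ∀ ω ω' : (∀ i, β i), (∀ i, i ∉ T → ω i = ω' i) → Good ω = Good ω')
    (r : ℝ) (hr : 0 ≤ r)
    (hbad : ∀ ω, Bad ω → ∀ i ∈ T, ω i ∉ Good ω i)
    (hlarge : ∀ ω, Bad ω → ∀ i ∈ T,
      (Fintype.card (β i) : ℝ) - (Good ω i).card ≤ r * Fintype.card (β i)) :
    (Nat.card {ω : (∀ i, β i) // Bad ω} : ℝ) ≤ r ^ T.card * Fintype.card (∀ i, β i) := by
  classical
  obtain ⟨e, hsymm⟩ : ∃ e : (∀ i, β i) ≃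
      (∀ i : {x // x ∈ T}, β i) × (∀ i : {x // ¬ x ∈ T}, β i),
      ∀ (u : ∀ i : {x // x ∈ T}, β i) (v : ∀ i : {x // ¬ x ∈ T}, β i) (j : ι),
        e.symm (u, v) j = if h : j ∈ T then u ⟨j, h⟩ else v ⟨j, h⟩ :=
    ⟨Equiv.piEquivPiSubtypeProd (fun i => i ∈ T) β, fun _ _ _ => rfl⟩
  have h1 : Nat.card {ω : (∀ i, β i) // Bad ω} = ∑ v : (∀ i : {x // ¬ x ∈ T}, β i), Fintype.card {u : (∀ i : {x // x ∈ T}, β i) // Bad (e.symm (u, v))} := by
    rw [Nat.card_eq_fintype_card]
    have h2 : Fintype.card {ω : (∀ i, β i) // Bad ω} = Fintype.card {p : (∀ i : {x // x ∈ T}, β i) × (∀ i : {x // ¬ x ∈ T}, β i) // Bad (e.symm p)} := by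
      apply Fintype.card_congr
      exact e.subtypeEquiv (by intro a; simp)
    rw [h2, Fintype.card_subtype, Finset.card_filter, Fintype.sum_prod_type_right]
    apply Finset.sum_congr rfl
    intro v _
    rw [Fintype.card_subtype, Finset.card_filter]
  have hcard : (Fintype.card (∀ i, β i) : ℝ) = (Fintype.card (∀ i : {x // ¬ x ∈ T}, β i) : ℝ) * ∏ i : {x // x ∈ T}, (Fintype.card (β i) : ℝ) := by
    rw [Fintype.card_congr e, Fintype.card_prod, Nat.cast_mul, mul_comm]
    congr 1
    rw [Fintype.card_pi]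
    push_cast
    rfl
  have hkey : ∀ v : (∀ i : {x // ¬ x ∈ T}, β i), (Fintype.card {u : (∀ i : {x // x ∈ T}, β i) // Bad (e.symm (u, v))} : ℝ) ≤
      r ^ T.card * ∏ i : {x // x ∈ T}, (Fintype.card (β i) : ℝ) := by
    intro v
    by_cases hne : Nonempty {u : (∀ i : {x // x ∈ T}, β i) // Bad (e.symm (u, v))}
    · obtain ⟨⟨u0, hu0⟩⟩ := hne
      have hsub : Fintype.card {u : (∀ i : {x // x ∈ T}, β i) // Bad (e.symm (u, v))} ≤
          (Fintype.piFinset (fun i : {x // x ∈ T} => (univ \ Good (e.symm (u0, v)) i))).card := by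
        rw [Fintype.card_subtype]
        apply Finset.card_le_card
        intro u hu
        rw [Finset.mem_filter] at hu
        rw [Fintype.mem_piFinset]
        intro i
        have h3 : Good (e.symm (u, v)) = Good (e.symm (u0, v)) := by
          apply hloc
          intro j hj
          rw [hsymm, hsymm, dif_neg hj, dif_neg hj]
        have h4 := hbad _ hu.2 i.1 i.2
        rw [h3] at h4
        have h5 : (e.symm (u, v)) i.1 = u i := by
          rw [hsymm, dif_pos i.2]
        rw [h5] at h4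
        simp [h4]
      rw [Fintype.card_piFinset] at hsub
      calc (Fintype.card {u : (∀ i : {x // x ∈ T}, β i) // Bad (e.symm (u, v))} : ℝ)
          ≤ ((∏ i : {x // x ∈ T}, (univ \ Good (e.symm (u0, v)) i.1).card : ℕ) : ℝ) := by
            exact_mod_cast hsub
        _ = ∏ i : {x // x ∈ T}, ((univ \ Good (e.symm (u0, v)) i.1).card : ℝ) := by push_cast; rfl
        _ ≤ ∏ i : {x // x ∈ T}, (r * Fintype.card (β i.1)) := by
            apply Finset.prod_le_prod
            · intro i _; positivity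
            · intro i _
              have h6 := hlarge _ hu0 i.1 i.2
              have h7 : ((univ \ Good (e.symm (u0, v)) i.1).card : ℝ) =
                  (Fintype.card (β i.1) : ℝ) - (Good (e.symm (u0, v)) i.1).card := by
                rw [Finset.card_sdiff_of_subset (Finset.subset_univ _), Finset.card_univ,
                  Nat.cast_sub (Finset.card_le_univ _)]
              rw [h7]; exact h6
        _ = r ^ T.card * ∏ i : {x // x ∈ T}, (Fintype.card (β i) : ℝ) := by
            rw [Finset.prod_mul_distrib, Finset.prod_const, Finset.card_univ, Fintype.card_coe]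
    · rw [not_nonempty_iff] at hne
      rw [Fintype.card_eq_zero]
      push_cast
      positivity
  rw [h1, hcard]
  push_cast
  calc ∑ v : (∀ i : {x // ¬ x ∈ T}, β i), (Fintype.card {u : (∀ i : {x // x ∈ T}, β i) // Bad (e.symm (u, v))} : ℝ)
      ≤ ∑ v : (∀ i : {x // ¬ x ∈ T}, β i), r ^ T.card * ∏ i : {x // x ∈ T}, (Fintype.card (β i) : ℝ) :=
        Finset.sum_le_sum (fun v _ => hkey v)
    _ = r ^ T.card * ((Fintype.card (∀ i : {x // ¬ x ∈ T}, β i) : ℝ) * ∏ i : {x // x ∈ T}, (Fintype.card (β i) : ℝ)) := by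
        rw [Finset.sum_const, Finset.card_univ, nsmul_eq_mul]; ring

end Indep

end Pool.Agent.Lib.MP_e9f532_co.Nl
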