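import Mathlib

set_option autoImplicit false

/-! Module V8 (Numerics). `M = 8 (R+1)^3 (4R)^6`, `L` with `R + 1 <= 2^L <= 2 R`, `q = 13 L + 30`,
`e = 20 L + 50`, `K = 100 e`, `d = 22 L + 62 + 2 q (L + 2)`. -/

namespace Pool.Agent.Lib.MP_e9f532_co.Nl

private lemma poly_le (k : ℕ) :
    26 * (k + 21) ^ 3 + 200 * (k + 21) ^ 2 + 24300 * (k + 21) + 60100 ≤ 2 ^ (k + 20) := by
  induction k with
  | zero => norm_num
  | succ k ih =>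
    have h : 26 * (k + 1 + 21) ^ 3 + 200 * (k + 1 + 21) ^ 2 + 24300 * (k + 1 + 21) + 60100 ≤
        2 * (26 * (k + 21) ^ 3 + 200 * (k + 21) ^ 2 + 24300 * (k + 21) + 60100) := by
      ring_nf
      nlinarith
    calc _ ≤ 2 * (26 * (k + 21) ^ 3 + 200 * (k + 21) ^ 2 + 24300 * (k + 21) + 60100) := h
      _ ≤ 2 * 2 ^ (k + 20) := Nat.mul_le_mul_left 2 ih
      _ = 2 ^ (k + 1 + 20) := by ring

private lemma poly_le' {L : ℕ} (hL : 21 ≤ L) :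
    26 * L ^ 3 + 200 * L ^ 2 + 24300 * L + 60100 ≤ 2 ^ (L - 1) := by
  obtain ⟨k, rfl⟩ := Nat.exists_eq_add_of_le hL
  have := poly_le k
  have e : 21 + k - 1 = k + 20 := by omega
  rw [e, add_comm 21 k]
  exact this

/-- `x ^ (n * m) ≤ (1/2) ^ m` when `x ^ n ≤ 1/2`. -/
private lemma pow_half {x : ℝ} (hx0 : 0 ≤ x) {n : ℕ} (h : x ^ n ≤ 1 / 2) (m : ℕ) :
    x ^ (n * m) ≤ 1 / 2 ^ m := by
  rw [pow_mul]
  calc (x ^ n) ^ m ≤ (1 / 2 : ℝ) ^ m := pow_le_pow_left₀ (pow_nonneg hx0 n) h m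
    _ = 1 / 2 ^ m := by rw [div_pow, one_pow]

private lemma fourth {R : ℕ} (hR : 1 ≤ R) :
    (2 : ℝ) ^ (4 * R) *
      (1 - 1 / (2 * ((R : ℝ) + 1) ^ 2 * (4 * R) ^ 6)) ^ (8 * (R + 1) ^ 3 * (4 * R) ^ 6) ≤ 1 / 4 := by
  have hR' : (1 : ℝ) ≤ R := by exact_mod_cast hR
  set D : ℝ := 2 * ((R : ℝ) + 1) ^ 2 * (4 * R) ^ 6 with hD
  have hD1 : 1 ≤ D := by
    have h1 : (1 : ℝ) ≤ ((R : ℝ) + 1) ^ 2 := one_le_pow₀ (by linarith)
    have h2 : (1 : ℝ) ≤ (4 * (R : ℝ)) ^ 6 := one_le_pow₀ (by linarith)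
    have := one_le_mul_of_one_le_of_one_le h1 h2
    nlinarith
  have h0 : 0 ≤ 1 - 1 / D := by
    have : 1 / D ≤ 1 := by rw [div_le_one (by linarith)]; exact hD1
    linarith
  have h1 : (1 - 1 / D) ^ (8 * (R + 1) ^ 3 * (4 * R) ^ 6) ≤ Real.exp (-(4 * ((R : ℝ) + 1))) := by
    calc (1 - 1 / D) ^ (8 * (R + 1) ^ 3 * (4 * R) ^ 6)
        ≤ (Real.exp (-(1 / D))) ^ (8 * (R + 1) ^ 3 * (4 * R) ^ 6) :=
          pow_le_pow_left₀ h0 (Real.one_sub_le_exp_neg _) _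
      _ = Real.exp (-(4 * ((R : ℝ) + 1))) := by
          rw [← Real.exp_nat_mul]
          congr 1
          rw [hD]
          push_cast
          field_simp
          ring
  have h2 : (2 : ℝ) ^ (4 * R) = Real.exp (4 * R * Real.log 2) := by
    rw [← Real.rpow_natCast, Real.rpow_def_of_pos (by norm_num)]
    congr 1
    push_cast
    ring
  have h3 : Real.log 2 < 0.6931471808 := Real.log_two_lt_d9
  calc (2 : ℝ) ^ (4 * R) * (1 - 1 / D) ^ (8 * (R + 1) ^ 3 * (4 * R) ^ 6)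
      ≤ Real.exp (4 * R * Real.log 2) * Real.exp (-(4 * ((R : ℝ) + 1))) := by
        rw [h2]
        exact mul_le_mul_of_nonneg_left h1 (Real.exp_pos _).le
    _ = Real.exp (4 * R * Real.log 2 + -(4 * ((R : ℝ) + 1))) := (Real.exp_add _ _).symm
    _ ≤ Real.exp (-4) := by
        apply Real.exp_le_exp.2
        nlinarith
    _ ≤ 1 / 4 := by
        rw [Real.exp_neg, ← one_div]
        apply one_div_le_one_div_of_le (by norm_num)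
        have := Real.add_one_le_exp (4 : ℝ)
        linarith

theorem numerics : ∃ R₀ : ℕ, ∃ c : ℝ, ∀ R ≥ R₀, ∃ K M q e d : ℕ, 10 ≤ R ∧ 1 ≤ K ∧ 12 * K ≤ R ∧
    100 * e ≤ K ∧ (K : ℝ) ≤ c * Real.log R ∧
    6 * (2 * (2 * R + 1) ^ 2 * M : ℝ) * 64 / 2 ^ q + 8 * (3 / 4) ^ e ≤
      1 / (2 * ((R : ℝ) + 1) ^ 2) ∧
    8 * ((2 * R + 1) ^ 2 * M : ℝ) ^ 2 * ((R + 1) ^ d / 2 ^ R) ≤ 1 / 4 ∧
    4 * (2 * R + 1) * ((2 * R + 1) ^ 2 * M : ℝ) * (19 / 20) ^ K ≤ 1 / 4 ∧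
    (2 : ℝ) ^ (4 * R) * (1 - 1 / (2 * ((R : ℝ) + 1) ^ 2 * (4 * R) ^ 6)) ^ M ≤ 1 / 4 ∧
    (4 * (R : ℝ) + 1) ^ (2 * q + 8) +
      (2 * (2 * R + 1) ^ 2 * M : ℝ) ^ 2 * ((4 * R + 1) ^ (2 * q) * 2 ^ (2 * R + 12) / 2 ^ d) +
      2 * (2 * (2 * R + 1) ^ 2 * M : ℝ) * ((4 * R + 1) ^ 4 * 2 ^ (R + 6)) +
      2 * (2 * R + 1) * (2 * (2 * R + 1) ^ 2 * M : ℝ) * ((19 / 20) ^ (10 * e) * 2 ^ (2 * R + 6)) +
      2 * (2 * (2 * R + 1) ^ 2 * M : ℝ) ^ 2 * ((4 * R + 1) ^ q * 2 ^ (2 * R + 18) / 2 ^ d) ≤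
      4 ^ R := by
  refine ⟨2 ^ 21, 8000, fun R hR => ?_⟩
  obtain ⟨L, hLdef⟩ : ∃ L, L = Nat.clog 2 (R + 1) := ⟨_, rfl⟩
  have hR2 : R + 1 ≤ 2 ^ L := by rw [hLdef]; exact Nat.le_pow_clog (by norm_num) _
  have hL21 : 21 ≤ L := by
    have : 2 ^ 21 < 2 ^ L := lt_of_lt_of_le (by omega) hR2
    have := (Nat.pow_lt_pow_iff_right (by norm_num : 1 < 2)).1 this
    omega
  have hRL : 2 ^ (L - 1) ≤ R := by
    have : 2 ^ (Nat.clog 2 (R + 1) - 1) < R + 1 := by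
      have := Nat.pow_pred_clog_lt_self (b := 2) (by norm_num) (x := R + 1) (by
        have : 2 ^ 21 ≤ R := hR
        have : (2 : ℕ) ^ 21 = 2097152 := by norm_num
        omega)
      simpa using this
    rw [← hLdef] at this
    omega
  have hpoly := poly_le' hL21
  have hRp : 26 * L ^ 3 + 200 * L ^ 2 + 24300 * L + 60100 ≤ R := hpoly.trans hRL
  obtain ⟨q, hq⟩ : ∃ q, q = 13 * L + 30 := ⟨_, rfl⟩
  obtain ⟨e, he⟩ : ∃ e, e = 20 * L + 50 := ⟨_, rfl⟩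
  obtain ⟨d, hd⟩ : ∃ d, d = 22 * L + 62 + 2 * q * (L + 2) := ⟨_, rfl⟩
  obtain ⟨M, hM⟩ : ∃ M, M = 8 * (R + 1) ^ 3 * (4 * R) ^ 6 := ⟨_, rfl⟩
  have hR0 : (0 : ℝ) ≤ R := Nat.cast_nonneg R
  have pw : ∀ {a b : ℕ}, a ≤ b → (2 : ℝ) ^ a ≤ 2 ^ b := fun h =>
    pow_le_pow_right₀ (by norm_num) h
  have hx : (R : ℝ) + 1 ≤ 2 ^ L := by exact_mod_cast hR2
  have h2R : 2 * (R : ℝ) + 1 ≤ 2 ^ (L + 1) := by rw [pow_succ]; linarith
  have h4R : 4 * (R : ℝ) + 1 ≤ 2 ^ (L + 2) := by rw [pow_add]; linarith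
  have hMle : (M : ℝ) ≤ 2 ^ (9 * L + 15) := by
    rw [hM]
    push_cast
    calc 8 * ((R : ℝ) + 1) ^ 3 * (4 * R) ^ 6 ≤ 8 * (2 ^ L) ^ 3 * (2 ^ (L + 2)) ^ 6 := by
          gcongr
          linarith
      _ = 2 ^ (9 * L + 15) := by ring
  have hM0 : (0 : ℝ) ≤ M := Nat.cast_nonneg M
  have hN : (2 * (R : ℝ) + 1) ^ 2 * M ≤ 2 ^ (11 * L + 17) := by
    calc (2 * (R : ℝ) + 1) ^ 2 * M ≤ (2 ^ (L + 1)) ^ 2 * 2 ^ (9 * L + 15) := by gcongr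
      _ = 2 ^ (11 * L + 17) := by ring
  have hN0 : 0 ≤ (2 * (R : ℝ) + 1) ^ 2 * M := by positivity
  have hN2 : 2 * (2 * (R : ℝ) + 1) ^ 2 * M ≤ 2 ^ (11 * L + 18) := by
    rw [mul_assoc]
    calc 2 * ((2 * (R : ℝ) + 1) ^ 2 * M) ≤ 2 * 2 ^ (11 * L + 17) := by gcongr
      _ = 2 ^ (11 * L + 18) := by ring
  have hN20 : 0 ≤ 2 * (2 * (R : ℝ) + 1) ^ 2 * M := by positivity
  have hp34 : ∀ m n : ℕ, 3 * m ≤ n → ((3 : ℝ) / 4) ^ n ≤ 1 / 2 ^ m := fun m n h =>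
    (pow_le_pow_of_le_one (by norm_num) (by norm_num) h).trans
      (pow_half (by norm_num) (by norm_num) m)
  have hp19 : ∀ m n : ℕ, 14 * m ≤ n → ((19 : ℝ) / 20) ^ n ≤ 1 / 2 ^ m := fun m n h =>
    (pow_le_pow_of_le_one (by norm_num) (by norm_num) h).trans
      (pow_half (by norm_num) (by norm_num) m)
  have hdL : L * d = 26 * L ^ 3 + 134 * L ^ 2 + 182 * L := by
    rw [hd, hq]
    ring
  have hq2 : (L + 2) * (2 * q + 8) = 26 * L ^ 2 + 120 * L + 136 := by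
    rw [hq]
    ring
  have hL3 : L ^ 2 ≤ L ^ 3 := Nat.pow_le_pow_right (by omega) (by norm_num)
  refine ⟨100 * e, M, q, e, d, ?_, ?_, ?_, le_rfl, ?_, ?_, ?_, ?_, ?_, ?_⟩
  · omega
  · omega
  · omega
  · have h1 : ((L : ℝ) - 1) * 0.6931471803 ≤ Real.log R := by
      have h2 : ((2 : ℝ)) ^ (L - 1) ≤ R := by exact_mod_cast hRL
      have h3 : ((L - 1 : ℕ) : ℝ) * Real.log 2 ≤ Real.log R := by
        rw [← Real.log_pow]
        exact Real.log_le_log (by positivity) h2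
      have h4 : ((L - 1 : ℕ) : ℝ) = (L : ℝ) - 1 := by
        rw [Nat.cast_sub (by omega)]
        norm_num
      rw [h4] at h3
      have h5 : (0 : ℝ) ≤ (L : ℝ) - 1 := by
        have : (21 : ℝ) ≤ L := by exact_mod_cast hL21
        linarith
      have := Real.log_two_gt_d9
      nlinarith
    have h2 : (21 : ℝ) ≤ L := by exact_mod_cast hL21
    rw [he]
    push_cast
    linarith
  · have h1 : 6 * (2 * (2 * (R : ℝ) + 1) ^ 2 * M) * 64 / 2 ^ q ≤ 1 / 2 ^ (2 * L + 2) := by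
      rw [div_le_div_iff₀ (by positivity) (by positivity)]
      calc 6 * (2 * (2 * (R : ℝ) + 1) ^ 2 * M) * 64 * 2 ^ (2 * L + 2)
          ≤ 2 ^ 9 * 2 ^ (11 * L + 18) * 2 ^ (2 * L + 2) := by
            have : 6 * (2 * (2 * (R : ℝ) + 1) ^ 2 * M) * 64 ≤ 2 ^ 9 * 2 ^ (11 * L + 18) := by
              nlinarith
            gcongr
        _ = 2 ^ (13 * L + 29) := by ring
        _ ≤ 1 * 2 ^ q := by rw [one_mul]; exact pw (by omega)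
    have h2 : 8 * ((3 : ℝ) / 4) ^ e ≤ 1 / 2 ^ (2 * L + 2) := by
      have := hp34 (2 * L + 5) e (by omega)
      calc 8 * ((3 : ℝ) / 4) ^ e ≤ 8 * (1 / 2 ^ (2 * L + 5)) := by gcongr
        _ = 1 / 2 ^ (2 * L + 2) := by
            rw [show 2 * L + 5 = 3 + (2 * L + 2) by ring, pow_add]
            field_simp
            norm_num
    have h3 : 1 / (2 : ℝ) ^ (2 * L + 2) + 1 / 2 ^ (2 * L + 2) ≤ 1 / (2 * ((R : ℝ) + 1) ^ 2) := by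
      have e1 : 1 / (2 : ℝ) ^ (2 * L + 2) + 1 / 2 ^ (2 * L + 2) = 1 / (2 * (2 ^ L) ^ 2) := by
        rw [pow_add, ← pow_mul, mul_comm L 2]
        field_simp
        norm_num
      rw [e1]
      gcongr
    exact (add_le_add h1 h2).trans h3
  · calc 8 * ((2 * (R : ℝ) + 1) ^ 2 * M) ^ 2 * (((R : ℝ) + 1) ^ d / 2 ^ R)
        ≤ 8 * (2 ^ (11 * L + 17)) ^ 2 * ((2 ^ L) ^ d / 2 ^ R) := by gcongr
      _ = 2 ^ (22 * L + 37 + L * d) / 2 ^ R := by ring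
      _ ≤ 1 / 4 := by
          rw [div_le_div_iff₀ (by positivity) (by norm_num)]
          calc (2 : ℝ) ^ (22 * L + 37 + L * d) * 4 = 2 ^ (22 * L + 39 + L * d) := by ring
            _ ≤ 1 * 2 ^ R := by rw [one_mul]; exact pw (by rw [hdL]; omega)
  · have := hp19 (12 * L + 22) (100 * e) (by omega)
    calc 4 * (2 * (R : ℝ) + 1) * ((2 * (R : ℝ) + 1) ^ 2 * M) * (19 / 20) ^ (100 * e)
        ≤ 4 * 2 ^ (L + 1) * 2 ^ (11 * L + 17) * (1 / 2 ^ (12 * L + 22)) := by gcongr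
      _ = 2 ^ (12 * L + 20) / 2 ^ (12 * L + 22) := by ring
      _ = 1 / 4 := by
          rw [pow_add _ _ 20, pow_add _ _ 22]
          field_simp
          norm_num
  · rw [hM]
    exact fourth (by omega)
  · have e4 : (4 : ℝ) ^ R = 2 ^ (2 * R) := by rw [pow_mul]; norm_num
    have e8 : (2 : ℝ) ^ (2 * R) = 8 * 2 ^ (2 * R - 3) := by
      rw [show (8 : ℝ) = 2 ^ 3 by norm_num, ← pow_add]
      congr 1
      omega
    have t1 : (4 * (R : ℝ) + 1) ^ (2 * q + 8) ≤ 2 ^ (2 * R - 3) := by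
      calc (4 * (R : ℝ) + 1) ^ (2 * q + 8) ≤ (2 ^ (L + 2)) ^ (2 * q + 8) := by gcongr
        _ = 2 ^ ((L + 2) * (2 * q + 8)) := (pow_mul _ _ _).symm
        _ ≤ 2 ^ (2 * R - 3) := pw (by rw [hq2]; omega)
    have t2 : (2 * (2 * (R : ℝ) + 1) ^ 2 * M) ^ 2 *
        ((4 * (R : ℝ) + 1) ^ (2 * q) * 2 ^ (2 * R + 12) / 2 ^ d) ≤ 2 ^ (2 * R - 3) := by
      rw [← mul_div_assoc, div_le_iff₀ (by positivity)]
      calc (2 * (2 * (R : ℝ) + 1) ^ 2 * M) ^ 2 * ((4 * (R : ℝ) + 1) ^ (2 * q) * 2 ^ (2 * R + 12))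
          ≤ (2 ^ (11 * L + 18)) ^ 2 * ((2 ^ (L + 2)) ^ (2 * q) * 2 ^ (2 * R + 12)) := by gcongr
        _ = 2 ^ (22 * L + 48 + 2 * q * (L + 2) + 2 * R) := by
            rw [← pow_mul, ← pow_mul, ← pow_add, ← pow_add]
            congr 1
            ring
        _ ≤ 2 ^ (2 * R - 3) * 2 ^ d := by
            rw [← pow_add]
            exact pw (by omega)
    have t3 : 2 * (2 * (2 * (R : ℝ) + 1) ^ 2 * M) * ((4 * (R : ℝ) + 1) ^ 4 * 2 ^ (R + 6)) ≤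
        2 ^ (2 * R - 3) := by
      calc 2 * (2 * (2 * (R : ℝ) + 1) ^ 2 * M) * ((4 * (R : ℝ) + 1) ^ 4 * 2 ^ (R + 6))
          ≤ 2 * 2 ^ (11 * L + 18) * ((2 ^ (L + 2)) ^ 4 * 2 ^ (R + 6)) := by gcongr
        _ = 2 ^ (15 * L + 33 + R) := by ring
        _ ≤ 2 ^ (2 * R - 3) := pw (by omega)
    have t4 : 2 * (2 * (R : ℝ) + 1) * (2 * (2 * (R : ℝ) + 1) ^ 2 * M) *
        ((19 / 20) ^ (10 * e) * 2 ^ (2 * R + 6)) ≤ 2 ^ (2 * R - 3) := by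
      have := hp19 (12 * L + 29) (10 * e) (by omega)
      calc 2 * (2 * (R : ℝ) + 1) * (2 * (2 * (R : ℝ) + 1) ^ 2 * M) *
            ((19 / 20) ^ (10 * e) * 2 ^ (2 * R + 6))
          ≤ 2 * 2 ^ (L + 1) * 2 ^ (11 * L + 18) * (1 / 2 ^ (12 * L + 29) * 2 ^ (2 * R + 6)) := by
            gcongr
        _ = 2 ^ (12 * L + 26 + 2 * R) / 2 ^ (12 * L + 29) := by ring
        _ ≤ 2 ^ (2 * R - 3) := by
            rw [div_le_iff₀ (by positivity), ← pow_add]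
            exact pw (by omega)
    have t5 : 2 * (2 * (2 * (R : ℝ) + 1) ^ 2 * M) ^ 2 *
        ((4 * (R : ℝ) + 1) ^ q * 2 ^ (2 * R + 18) / 2 ^ d) ≤ 2 ^ (2 * R - 3) := by
      rw [← mul_div_assoc, div_le_iff₀ (by positivity)]
      calc 2 * (2 * (2 * (R : ℝ) + 1) ^ 2 * M) ^ 2 * ((4 * (R : ℝ) + 1) ^ q * 2 ^ (2 * R + 18))
          ≤ 2 * (2 ^ (11 * L + 18)) ^ 2 * ((2 ^ (L + 2)) ^ q * 2 ^ (2 * R + 18)) := by gcongr
        _ = 2 ^ (22 * L + 55 + q * (L + 2) + 2 * R) := by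
            rw [← pow_mul, ← pow_mul, ← pow_add, ← pow_succ', ← pow_add]
            congr 1
            ring
        _ ≤ 2 ^ (2 * R - 3) * 2 ^ d := by
            rw [← pow_add]
            apply pw
            have : q * (L + 2) ≤ 2 * q * (L + 2) := Nat.mul_le_mul_right _ (by omega)
            omega
    have hpos : (0 : ℝ) ≤ 2 ^ (2 * R - 3) := by positivity
    rw [e4, e8]
    linarith

end Pool.Agent.Lib.MP_e9f532_co.Nl
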