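import Mathlib
import Pool.Agent.Lib.MP_e9f532_co.Nl.Indep
import Pool.Agent.Lib.MP_e9f532_co.Nl.Defs
import Pool.Agent.Lib.MP_e9f532_co.Nl.Good
import Pool.Agent.Lib.MP_e9f532_co.Nl.Tail

set_option autoImplicit false

/-! Module V6 (Select): the choice of the trials. Union bound over all choices `om`:
not far, not rich, or some `C`, not exceptional, without a good trial in its own list
(use `Nl.indep` with the index set of the own type). -/

namespace Pool.Agent.Lib.MP_e9f532_co.Nl

open Finset

lemma card_filter_eq_natCard {α : Type} [Fintype α] (p : α → Prop) [DecidablePred p] :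
    (univ.filter p).card = Nat.card {x // p x} := by
  rw [Nat.card_eq_fintype_card, Fintype.card_subtype]

lemma card_word (R : ℕ) : Fintype.card (Word R) = 4 ^ R := by
  have h : Fintype.card (Word R) = 2 ^ (2 * R) := by
    simp [Word, Fintype.card_prod]
  rw [h, pow_mul]; norm_num

lemma card_trial (R : ℕ) : (Fintype.card (Trial R) : ℝ) = 4 ^ R * (4 * R) ^ 6 := by
  have h : Fintype.card (Trial R) = 4 ^ R * (4 * R) ^ 6 := by
    have h1 : Fintype.card (Fin 6 → G R) = (4 * R) ^ 6 := by
      simp [Fintype.card_prod]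
      ring
    rw [← card_word, ← h1]
    exact Fintype.card_prod _ _
  rw [h]; push_cast; ring

lemma card_idx_sel (R M : ℕ) : (Fintype.card (Idx R M) : ℝ) = (2 * R + 1) ^ 2 * M := by
  have : Fintype.card (Idx R M) = (2 * R + 1) ^ 2 * M := by
    simp [Fintype.card_prod]
  rw [this]; push_cast; ring

/-- One coordinate event. -/
lemma one_coord {R M : ℕ} (k : Idx R M) (r : ℝ) (hr : 0 ≤ r)
    (Bad : (Idx R M → Trial R) → Prop)
    (Bd : (Idx R M → Trial R) → Finset (Trial R))
    (hloc : ∀ om om' : Idx R M → Trial R, (∀ i, i ≠ k → om i = om' i) → Bd om = Bd om')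
    (hbad : ∀ om, Bad om → om k ∈ Bd om)
    (hcard : ∀ om, ((Bd om).card : ℝ) ≤ r * Fintype.card (Trial R)) :
    (Nat.card {om : Idx R M → Trial R // Bad om} : ℝ) ≤
      r * Fintype.card (Idx R M → Trial R) := by
  classical
  have h := indep (ι := Idx R M) (β := fun _ => Trial R) {k} Bad
    (fun om _ => univ \ Bd om)
    (by
      intro om om' hom
      funext i
      rw [hloc om om' (fun i hi => hom i (by simpa using hi))])
    r hr
    (by
      intro om hb i hi
      rw [mem_singleton] at hi
      subst hi
      rw [mem_sdiff, not_and, not_not]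
      intro _
      exact hbad om hb)
    (by
      intro om _ i _
      rw [card_sdiff_of_subset (subset_univ _), card_univ, Nat.cast_sub (card_le_univ _)]
      have := hcard om
      linarith)
  rw [card_singleton, pow_one] at h
  exact h

/-- Few words are near to a given vector on one side. -/
lemma near_side_count {R : ℕ} (d : ℕ) (s b : Bool) (v : Fin R → Bool) :
    (univ.filter (fun w : Word R =>
      (univ.filter (fun r : Fin R => Bool.xor b (w (s, r)) ≠ v r)).card ≤ d)).card ≤
      (R + 1) ^ d * 2 ^ R := by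
  classical
  have hsmall : (univ.filter (fun A : Finset (Fin R) => A.card ≤ d)).card ≤ (R + 1) ^ d := by
    have h1 : (univ.filter (fun A : Finset (Fin R) => A.card ≤ d)) =
        (range (d + 1)).biUnion (fun j => powersetCard j (univ : Finset (Fin R))) := by
      ext A
      simp [mem_powersetCard]
    rw [h1]
    calc ((range (d + 1)).biUnion (fun j => powersetCard j (univ : Finset (Fin R)))).card
        ≤ ∑ j ∈ range (d + 1), (powersetCard j (univ : Finset (Fin R))).card := card_biUnion_le
      _ = ∑ j ∈ range (d + 1), R.choose j := by simp [card_powersetCard]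
      _ ≤ ∑ j ∈ range (d + 1), R ^ j * 1 ^ (d - j) * d.choose j := by
        apply sum_le_sum
        intro j hj
        have hjk : j ≤ d := Nat.lt_succ_iff.1 (mem_range.1 hj)
        have h2 : R.choose j ≤ R ^ j := Nat.choose_le_pow _ j
        have h3 : 1 ≤ d.choose j := Nat.choose_pos hjk
        calc R.choose j ≤ R ^ j * 1 := by simpa using h2
          _ ≤ R ^ j * 1 ^ (d - j) * d.choose j := by
            simp only [one_pow, mul_one]
            exact Nat.le_mul_of_pos_right _ h3
      _ = (R + 1) ^ d := by rw [add_pow]; simp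
  calc (univ.filter (fun w : Word R =>
      (univ.filter (fun r : Fin R => Bool.xor b (w (s, r)) ≠ v r)).card ≤ d)).card
      ≤ ((univ.filter (fun A : Finset (Fin R) => A.card ≤ d)) ×ˢ
          (univ : Finset (Fin R → Bool))).card := by
        apply Finset.card_le_card_of_injOn (fun w =>
          (univ.filter (fun r : Fin R => Bool.xor b (w (s, r)) ≠ v r), fun r => w (!s, r)))
        · intro w hw
          rw [mem_coe, mem_filter] at hw
          rw [mem_coe, mem_product, mem_filter]
          exact ⟨⟨mem_univ _, hw.2⟩, mem_univ _⟩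
        · intro w _ w' _ h
          simp only [Prod.mk.injEq] at h
          obtain ⟨h1, h2⟩ := h
          funext ⟨s', r⟩
          by_cases hs : s' = s
          · subst hs
            have h3 := Finset.ext_iff.1 h1 r
            simp only [mem_filter, mem_univ, true_and] at h3
            revert h3
            cases b <;> cases w (s', r) <;> cases w' (s', r) <;> cases v r <;> simp
          · have hs' : s' = !s := by cases s <;> cases s' <;> simp_all
            subst hs'
            exact congrFun h2 r
    _ ≤ (R + 1) ^ d * 2 ^ R := by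
        rw [card_product]
        have h1 : (univ : Finset (Fin R → Bool)).card = 2 ^ R := by simp
        rw [h1]
        exact Nat.mul_le_mul_right _ hsmall

/-- Trials whose word satisfies a condition. -/
lemma card_trial_word {R : ℕ} (p : Word R → Prop) [DecidablePred p] (x : ℝ)
    (h : ((univ.filter p).card : ℝ) ≤ x * 4 ^ R) :
    ((univ.filter (fun t : Trial R => p t.1)).card : ℝ) ≤ x * Fintype.card (Trial R) := by
  classical
  have h1 : univ.filter (fun t : Trial R => p t.1) =
      (univ.filter p) ×ˢ (univ : Finset (Fin 6 → G R)) := by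
    ext t
    simp [mem_product]
  rw [h1, card_product, card_trial]
  have h2 : (univ : Finset (Fin 6 → G R)).card = (4 * R) ^ 6 := by
    simp [Fintype.card_prod]
    ring
  rw [h2]
  push_cast
  calc ((univ.filter p).card : ℝ) * (4 * R) ^ 6 ≤ (x * 4 ^ R) * (4 * R) ^ 6 := by gcongr
    _ = x * (4 ^ R * (4 * R) ^ 6) := by ring

theorem far_count {R M : ℕ} (d : ℕ) [DecidablePred (fun om : Idx R M → Trial R => Far om d)] :
    ((univ.filter (fun om : Idx R M → Trial R => ¬ Far om d)).card : ℝ) ≤
      8 * ((2 * R + 1) ^ 2 * M : ℝ) ^ 2 * ((R + 1) ^ d / 2 ^ R) *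
        Fintype.card (Idx R M → Trial R) := by
  classical
  set P : ((Idx R M × Idx R M) × (Bool × Bool × Bool)) → (Idx R M → Trial R) → Prop :=
    fun x om => x.1.1 ≠ x.1.2 ∧ (univ.filter (fun r : Fin R =>
      wd (om x.1.1) x.2.1 (x.2.2.2, r) ≠ wd (om x.1.2) x.2.2.1 (x.2.2.2, r))).card ≤ d with hP
  have hone : ∀ x, ((univ.filter (P x)).card : ℝ) ≤
      ((R + 1) ^ d / 2 ^ R) * Fintype.card (Idx R M → Trial R) := by
    rintro ⟨⟨k, l⟩, ⟨b, b', s⟩⟩
    rw [card_filter_eq_natCard]
    by_cases hkl : k = l
    · have : IsEmpty {om : Idx R M → Trial R // P ((k, l), (b, b', s)) om} := by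
        constructor
        rintro ⟨om, hom⟩
        exact hom.1 hkl
      rw [Nat.card_of_isEmpty]
      push_cast
      positivity
    · apply one_coord k _ (by positivity) _
        (fun om => univ.filter (fun t : Trial R => (univ.filter (fun r : Fin R =>
          Bool.xor b (t.1 (s, r)) ≠ wd (om l) b' (s, r))).card ≤ d))
      · intro om om' h
        rw [h l (fun h' => hkl h'.symm)]
      · intro om hom
        rw [mem_filter]
        exact ⟨mem_univ _, hom.2⟩
      · intro om
        apply card_trial_word (fun w : Word R => (univ.filter (fun r : Fin R =>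
          Bool.xor b (w (s, r)) ≠ wd (om l) b' (s, r))).card ≤ d)
        have h1 := near_side_count d s b (fun r => wd (om l) b' (s, r))
        have h2 : (((univ.filter (fun w : Word R => (univ.filter (fun r : Fin R =>
          Bool.xor b (w (s, r)) ≠ wd (om l) b' (s, r))).card ≤ d)).card : ℕ) : ℝ) ≤
            (R + 1) ^ d * 2 ^ R := by exact_mod_cast h1
        refine h2.trans (le_of_eq ?_)
        have h4 : (4 : ℝ) ^ R = 2 ^ R * 2 ^ R := by rw [← mul_pow]; norm_num
        rw [h4]
        field_simp
  have hsub : univ.filter (fun om : Idx R M → Trial R => ¬ Far om d) ⊆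
      (univ : Finset ((Idx R M × Idx R M) × (Bool × Bool × Bool))).biUnion
        (fun x => univ.filter (P x)) := by
    intro om hom
    rw [mem_filter] at hom
    have h1 := hom.2
    unfold Far at h1
    push Not at h1
    obtain ⟨k, l, hkl, b, b', s, h2⟩ := h1
    rw [mem_biUnion]
    exact ⟨((k, l), (b, b', s)), mem_univ _, mem_filter.2 ⟨mem_univ _, hkl, h2⟩⟩
  calc ((univ.filter (fun om : Idx R M → Trial R => ¬ Far om d)).card : ℝ)
      ≤ ∑ x : (Idx R M × Idx R M) × (Bool × Bool × Bool), ((univ.filter (P x)).card : ℝ) := by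
        exact_mod_cast (card_le_card hsub).trans card_biUnion_le
    _ ≤ ∑ _x : (Idx R M × Idx R M) × (Bool × Bool × Bool),
        ((R + 1) ^ d / 2 ^ R) * (Fintype.card (Idx R M → Trial R) : ℝ) :=
        sum_le_sum fun x _ => hone x
    _ = (Fintype.card ((Idx R M × Idx R M) × (Bool × Bool × Bool)) : ℝ) *
        (((R + 1) ^ d / 2 ^ R) * (Fintype.card (Idx R M → Trial R) : ℝ)) := by
        rw [sum_const, card_univ, nsmul_eq_mul]
    _ = _ := by
        have h00 : Fintype.card (Bool × Bool × Bool) = 8 := by simp [Fintype.card_prod]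
        rw [Fintype.card_prod (Idx R M × Idx R M) (Bool × Bool × Bool),
          Fintype.card_prod (Idx R M) (Idx R M), h00]
        push_cast
        rw [card_idx_sel]
        ring

theorem rich_count {R K M : ℕ} (T : Tags R K)
    [DecidablePred (fun om : Idx R M → Trial R => Rich T om)] :
    ((univ.filter (fun om : Idx R M → Trial R => ¬ Rich T om)).card : ℝ) ≤
      4 * (2 * R + 1) * ((2 * R + 1) ^ 2 * M : ℝ) * (19 / 20) ^ K *
        Fintype.card (Idx R M → Trial R) := by
  classical
  set P : (Idx R M × (Bool × Bool) × Fin (2 * R + 1)) → (Idx R M → Trial R) → Prop :=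
    fun x om => ¬ K ≤ 10 * (univ.filter (fun i : Fin K =>
      tag T x.2.1.2 (x.2.2 : ℕ) i ⊆ half (wd (om x.1) x.2.1.1))).card with hP
  have hone : ∀ x, ((univ.filter (P x)).card : ℝ) ≤
      (19 / 20) ^ K * Fintype.card (Idx R M → Trial R) := by
    rintro ⟨k, ⟨b, s⟩, a⟩
    rw [card_filter_eq_natCard]
    apply one_coord k _ (by positivity) _
      (fun _ => univ.filter (fun t : Trial R => ¬ K ≤ 10 * (univ.filter (fun i : Fin K =>
        tag T s (a : ℕ) i ⊆ half (fun j => Bool.xor b (t.1 j)))).card))
    · intro om om' _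
      rfl
    · intro om hom
      rw [mem_filter]
      exact ⟨mem_univ _, hom⟩
    · intro om
      apply card_trial_word (fun w : Word R => ¬ K ≤ 10 * (univ.filter (fun i : Fin K =>
        tag T s (a : ℕ) i ⊆ half (fun j => Bool.xor b (w j)))).card)
      exact words_tail T s (a : ℕ) b
  have hsub : univ.filter (fun om : Idx R M → Trial R => ¬ Rich T om) ⊆
      (univ : Finset (Idx R M × (Bool × Bool) × Fin (2 * R + 1))).biUnion
        (fun x => univ.filter (P x)) := by
    intro om hom
    rw [mem_filter] at hom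
    have h1 := hom.2
    unfold Rich at h1
    push Not at h1
    obtain ⟨k, b, s, a, ha, h2⟩ := h1
    rw [mem_biUnion]
    refine ⟨(k, (b, s), ⟨a, by omega⟩), mem_univ _, mem_filter.2 ⟨mem_univ _, ?_⟩⟩
    rw [hP]
    simp only [not_le]
    exact h2
  calc ((univ.filter (fun om : Idx R M → Trial R => ¬ Rich T om)).card : ℝ)
      ≤ ∑ x : Idx R M × (Bool × Bool) × Fin (2 * R + 1), ((univ.filter (P x)).card : ℝ) := by
        exact_mod_cast (card_le_card hsub).trans card_biUnion_le
    _ ≤ ∑ _x : Idx R M × (Bool × Bool) × Fin (2 * R + 1),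
        (19 / 20) ^ K * (Fintype.card (Idx R M → Trial R) : ℝ) :=
        sum_le_sum fun x _ => hone x
    _ = (Fintype.card (Idx R M × (Bool × Bool) × Fin (2 * R + 1)) : ℝ) *
        ((19 / 20) ^ K * (Fintype.card (Idx R M → Trial R) : ℝ)) := by
        rw [sum_const, card_univ, nsmul_eq_mul]
    _ = _ := by
        have h00 : Fintype.card ((Bool × Bool) × Fin (2 * R + 1)) = 4 * (2 * R + 1) := by
          simp [Fintype.card_prod]
        rw [Fintype.card_prod (Idx R M) ((Bool × Bool) × Fin (2 * R + 1)), h00]
        push_cast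
        rw [card_idx_sel]
        ring

theorem exists_om {R K M q e d : ℕ} (hR : 10 ≤ R) (T : Tags R K)
    (hnum : 6 * (2 * (2 * R + 1) ^ 2 * M : ℝ) * 64 / 2 ^ q + 8 * (3 / 4) ^ e ≤
      1 / (2 * ((R : ℝ) + 1) ^ 2))
    (h1 : 8 * ((2 * R + 1) ^ 2 * M : ℝ) ^ 2 * ((R + 1) ^ d / 2 ^ R) ≤ 1 / 4)
    (h2 : 4 * (2 * R + 1) * ((2 * R + 1) ^ 2 * M : ℝ) * (19 / 20) ^ K ≤ 1 / 4)
    (h3 : (2 : ℝ) ^ (4 * R) * (1 - 1 / (2 * ((R : ℝ) + 1) ^ 2 * (4 * R) ^ 6)) ^ M ≤ 1 / 4) :
    ∃ om : Idx R M → Trial R, Far om d ∧ Rich T om ∧ ∀ C : Finset (G R), ¬ Exc T om q e C →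
      ∃ i : Idx R M, (∀ s, (i.1 s : ℕ) = typ C s) ∧ GoodTrial T om i.1 C (om i) := by
  classical
  -- the type of a set
  have hty : ∀ C : Finset (G R), ∃ τ : Bool → Fin (2 * R + 1), ∀ s, (τ s : ℕ) = typ C s := by
    intro C
    refine ⟨fun s => ⟨typ C s, ?_⟩, fun s => rfl⟩
    have e1 : typ C s ≤ (side s C).card := hh_le
    have e2 := side_card_le s C
    omega
  choose ty hty using hty
  set Bad : Finset (G R) → (Idx R M → Trial R) → Prop := fun C om => ¬ Exc T om q e C ∧
    ∀ i : Idx R M, i.1 = ty C → ¬ GoodTrial T om (ty C) C (om i) with hBad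
  have hRpos : (0 : ℝ) < R := by
    have : 0 < R := by omega
    exact_mod_cast this
  have hbadC : ∀ C, ((univ.filter (Bad C)).card : ℝ) ≤
      (1 - 1 / (2 * ((R : ℝ) + 1) ^ 2 * (4 * R) ^ 6)) ^ M *
        Fintype.card (Idx R M → Trial R) := by
    intro C
    rw [card_filter_eq_natCard]
    have hTc : (univ.filter (fun i : Idx R M => i.1 = ty C)).card = M := by
      have h4 : univ.filter (fun i : Idx R M => i.1 = ty C) =
          (univ : Finset (Fin M)).image (fun j => ((ty C, j) : Idx R M)) := by
        ext i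
        rw [mem_filter, mem_image]
        constructor
        · rintro ⟨-, hi⟩
          exact ⟨i.2, mem_univ _, by rw [← hi]⟩
        · rintro ⟨j, -, rfl⟩
          exact ⟨mem_univ _, rfl⟩
      rw [h4, card_image_of_injective _ (fun j j' h => (Prod.mk.inj h).2)]
      simp
    have h5 := indep (ι := Idx R M) (β := fun _ => Trial R)
      (univ.filter (fun i : Idx R M => i.1 = ty C)) (Bad C)
      (fun om _ => univ.filter (fun t : Trial R => GoodTrial T om (ty C) C t))
      (by
        intro om om' hom
        funext i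
        apply filter_congr
        intro t _
        apply goodTrial_congr
        intro k hk
        exact hom k (by simp [hk]))
      (1 - 1 / (2 * ((R : ℝ) + 1) ^ 2 * (4 * R) ^ 6))
      (by
        rw [sub_nonneg, div_le_one (by positivity)]
        have e1 : (10 : ℝ) ≤ R := by exact_mod_cast hR
        have e2 : (1 : ℝ) ≤ (4 * (R : ℝ)) ^ 6 := one_le_pow₀ (by linarith)
        have e3 : (1 : ℝ) ≤ ((R : ℝ) + 1) ^ 2 := one_le_pow₀ (by linarith)
        nlinarith)
      (by
        intro om hb i hi
        rw [mem_filter] at hi ⊢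
        rintro ⟨-, hg⟩
        exact hb.2 i hi.2 hg)
      (by
        intro om hb i _
        have h6 := good_count hR T om C hb.1 (ty C) (hty C) hnum
        have h7 : (1 / (2 * ((R : ℝ) + 1) ^ 2 * (4 * R) ^ 6)) * Fintype.card (Trial R) =
            4 ^ R / (2 * ((R : ℝ) + 1) ^ 2) := by
          rw [card_trial]
          field_simp
        have h8 : (1 - 1 / (2 * ((R : ℝ) + 1) ^ 2 * (4 * R) ^ 6)) * Fintype.card (Trial R) =
            Fintype.card (Trial R) - 4 ^ R / (2 * ((R : ℝ) + 1) ^ 2) := by
          rw [sub_mul, h7, one_mul]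
        rw [h8]
        linarith)
    rw [hTc] at h5
    exact h5
  -- the union bound
  by_contra hcon
  push Not at hcon
  have hsub : (univ : Finset (Idx R M → Trial R)) ⊆
      (univ.filter (fun om => ¬ Far om d)) ∪ ((univ.filter (fun om => ¬ Rich T om)) ∪
        (univ : Finset (Finset (G R))).biUnion (fun C => univ.filter (Bad C))) := by
    intro om _
    rw [mem_union, mem_union, mem_filter, mem_filter, mem_biUnion]
    by_cases hf : Far om d
    · by_cases hr : Rich T om
      · obtain ⟨C, hC, hCi⟩ := hcon om hf hr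
        right; right
        refine ⟨C, mem_univ _, mem_filter.2 ⟨mem_univ _, hC, ?_⟩⟩
        intro i hi hg
        apply hCi i
        · intro s; rw [hi]; exact hty C s
        · rw [hi]; exact hg
      · exact Or.inr (Or.inl ⟨mem_univ _, hr⟩)
    · exact Or.inl ⟨mem_univ _, hf⟩
  have hcard := card_le_card hsub
  have hΩ : (0 : ℝ) < Fintype.card (Idx R M → Trial R) := by
    have : Nonempty (Trial R) := ⟨(fun _ => true, fun _ => (true, (⟨0, by omega⟩, true)))⟩
    exact_mod_cast Fintype.card_pos
  have hle : (Fintype.card (Idx R M → Trial R) : ℝ) ≤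
      ((univ.filter (fun om : Idx R M → Trial R => ¬ Far om d)).card : ℝ) +
      (((univ.filter (fun om : Idx R M → Trial R => ¬ Rich T om)).card : ℝ) +
        ∑ C : Finset (G R), ((univ.filter (Bad C)).card : ℝ)) := by
    have h4 : Fintype.card (Idx R M → Trial R) ≤
        (univ.filter (fun om : Idx R M → Trial R => ¬ Far om d)).card +
        ((univ.filter (fun om : Idx R M → Trial R => ¬ Rich T om)).card +
          ∑ C : Finset (G R), (univ.filter (Bad C)).card) := by
      rw [← card_univ]
      refine hcard.trans ((card_union_le _ _).trans (Nat.add_le_add_left ?_ _))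
      exact (card_union_le _ _).trans (Nat.add_le_add_left card_biUnion_le _)
    exact_mod_cast h4
  have hfar := far_count (R := R) (M := M) d
  have hrich := rich_count (M := M) T
  have hsumC : ∑ C : Finset (G R), ((univ.filter (Bad C)).card : ℝ) ≤
      1 / 4 * Fintype.card (Idx R M → Trial R) := by
    calc ∑ C : Finset (G R), ((univ.filter (Bad C)).card : ℝ)
        ≤ ∑ _C : Finset (G R), (1 - 1 / (2 * ((R : ℝ) + 1) ^ 2 * (4 * R) ^ 6)) ^ M *
          (Fintype.card (Idx R M → Trial R) : ℝ) := sum_le_sum fun C _ => hbadC C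
      _ = (2 : ℝ) ^ (4 * R) * (1 - 1 / (2 * ((R : ℝ) + 1) ^ 2 * (4 * R) ^ 6)) ^ M *
          (Fintype.card (Idx R M → Trial R) : ℝ) := by
          rw [sum_const, card_univ, nsmul_eq_mul, Fintype.card_finset]
          have h4 : Fintype.card (G R) = 4 * R := by
            simp [Fintype.card_prod]
            ring
          rw [h4]
          push_cast
          ring
      _ ≤ _ := by
          exact mul_le_mul_of_nonneg_right h3 hΩ.le
  have e1 := mul_le_mul_of_nonneg_right h1 hΩ.le
  have e2 := mul_le_mul_of_nonneg_right h2 hΩ.le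
  linarith

end Pool.Agent.Lib.MP_e9f532_co.Nl
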