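import Mathlib
import Pool.Agent.Lib.MP_e9f532_co.Nl.Defs

set_option autoImplicit false

/-! The antichain of the second construction and the sets that it covers. -/

namespace Pool.Agent.Lib.MP_e9f532_co.Nl.Str

open Finset

variable {R K M : ℕ} {T : Tags R K} {om : Idx R M → Trial R}

lemma side_mono {s : Bool} {P Q : Finset (G R)} (h : Q ⊆ P) : side s Q ⊆ side s P :=
  filter_subset_filter _ h

lemma side_subset (s : Bool) (P : Finset (G R)) : side s P ⊆ P := filter_subset _ _

lemma side_union_side (P : Finset (G R)) : side false P ∪ side true P = P := by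
  ext p
  simp only [mem_union, mem_side]
  cases h : p.1 <;> simp

lemma weak_mono {s : Bool} {a : ℕ} {P Q : Finset (G R)} (h : Q ⊆ P) (hP : Weak T om s a P) :
    Weak T om s a Q := by
  rcases hP with h1 | ⟨l, b, h1, h2⟩
  · exact Or.inl (fun i hi => h1 i (hi.trans h))
  · exact Or.inr ⟨l, b, h1, (side_mono h).trans h2⟩

lemma resp_mono {k : Idx R M} {b : Bool} {P Q : Finset (G R)} (h : Q ⊆ P)
    (hP : Resp T om k b P) : Resp T om k b Q := by
  obtain ⟨h1, h2, h3⟩ := hP
  refine ⟨h.trans h1, fun s => (card_le_card (side_mono h)).trans (h2 s), ?_⟩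
  rcases h3 with h3 | ⟨s, a, h4, h5, h6⟩
  · exact Or.inl h3
  · exact Or.inr ⟨s, a, h4, h5, weak_mono h h6⟩

lemma mem_tag {s : Bool} {a : ℕ} {i : Fin K} {p : G R} :
    p ∈ tag T s a i ↔ p = (!s, (T.l a i, false)) ∨ p = (!s, (T.r a i, false)) := by
  simp [tag]

lemma side_of_tag {s : Bool} {a : ℕ} {i : Fin K} {p : G R} (h : p ∈ tag T s a i) :
    p.1 = !s := by
  rw [mem_tag] at h
  rcases h with rfl | rfl <;> rfl

lemma card_tag (s : Bool) (a : ℕ) (i : Fin K) : (tag T s a i).card = 2 := by
  rw [tag, card_pair]
  intro h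
  simp only [Prod.mk.injEq, and_true, true_and] at h
  exact T.ne a i a i h

lemma tag_inj {s : Bool} {a a' : ℕ} {i i' : Fin K} (ha : a ≤ 2 * R) (ha' : a' ≤ 2 * R)
    (h : tag T s a i = tag T s a' i') : a = a' := by
  have h1 : ((!s, (T.l a i, false)) : G R) ∈ tag T s a' i' := by
    rw [← h, mem_tag]; exact Or.inl rfl
  have h2 : ((!s, (T.r a i, false)) : G R) ∈ tag T s a' i' := by
    rw [← h, mem_tag]; exact Or.inr rfl
  rw [mem_tag] at h1 h2
  have h3 : T.l a i = T.l a' i' := by
    rcases h1 with h1 | h1
    · simp only [Prod.mk.injEq, and_true, true_and] at h1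
      exact h1
    · simp only [Prod.mk.injEq, and_true, true_and] at h1
      exact absurd h1 (T.ne _ _ _ _)
  have h4 : T.r a i = T.r a' i' := by
    rcases h2 with h2 | h2
    · simp only [Prod.mk.injEq, and_true, true_and] at h2
      exact absurd h2.symm (T.ne _ _ _ _)
    · simp only [Prod.mk.injEq, and_true, true_and] at h2
      exact h2
  exact T.inj a a' i i' ha ha' h3 h4

lemma side_main {s : Bool} {A : Finset (G R)} (hA : ∀ p ∈ A, p.1 = s) (a : ℕ) (i : Fin K) :
    side s (A ∪ tag T s a i) = A ∧ side (!s) (A ∪ tag T s a i) = tag T s a i := by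
  constructor
  · ext p
    rw [mem_side, mem_union]
    constructor
    · rintro ⟨h1 | h1, h2⟩
      · exact h1
      · have := side_of_tag h1
        rw [h2] at this
        cases s <;> simp at this
    · intro h1
      exact ⟨Or.inl h1, hA p h1⟩
  · ext p
    rw [mem_side, mem_union]
    constructor
    · rintro ⟨h1 | h1, h2⟩
      · have := hA p h1
        rw [h2] at this
        cases s <;> simp at this
      · exact h1
    · intro h1
      exact ⟨Or.inr h1, side_of_tag h1⟩

theorem fam_antichain {Q Q' : Finset (G R)} (hQ : InFam T om Q) (hQ' : InFam T om Q')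
    (hsub : Q ⊆ Q') : Q = Q' := by
  by_contra hne
  have hss : Q ⊂ Q' := hsub.ssubset_of_ne hne
  rcases hQ' with ⟨⟨s', A', i', hA', hA'3, hQ'eq⟩, _⟩ | ⟨⟨⟨k, b, hk1, hk2⟩, _⟩, _⟩
  · -- Q' is a main member
    obtain ⟨hs1, hs2⟩ := side_main (T := T) hA' A'.card i'
    rw [← hQ'eq] at hs1 hs2
    have hA'le : A'.card ≤ 2 * R := by rw [← hs1]; exact side_card_le _ _
    rcases hQ with ⟨⟨s, A, i, hA, hA3, hQeq⟩, _⟩ | ⟨⟨_, hsafe⟩, _⟩
    · obtain ⟨ht1, ht2⟩ := side_main (T := T) hA A.card i
      rw [← hQeq] at ht1 ht2
      have hAle : A.card ≤ 2 * R := by rw [← ht1]; exact side_card_le _ _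
      by_cases hss' : s = s'
      · subst hss'
        have h1 : tag T s A.card i ⊆ tag T s A'.card i' := by
          rw [← ht2, ← hs2]; exact side_mono hsub
        have h2 : tag T s A.card i = tag T s A'.card i' :=
          eq_of_subset_of_card_le h1 (by rw [card_tag, card_tag])
        have h3 := tag_inj hAle hA'le h2
        have h4 : A ⊆ A' := by rw [← ht1, ← hs1]; exact side_mono hsub
        have h5 : A = A' := eq_of_subset_of_card_le h4 h3.ge
        apply hne
        rw [hQeq, hQ'eq, h2, h5]
      · have hs : s = !s' := by cases s <;> cases s' <;> simp_all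
        have h1 : A ⊆ tag T s' A'.card i' := by
          rw [← ht1, ← hs2, hs]; exact side_mono hsub
        have h2 := card_le_card h1
        rw [card_tag] at h2
        omega
    · apply hsafe s' A'.card i' hA'le
      rw [← hs2]
      exact side_mono hsub
  · -- Q' is a second stage member
    have hresp : Resp T om k b Q := resp_mono hsub hk2
    rcases hQ with ⟨_, hnr⟩ | ⟨_, hnr⟩
    · exact hnr k b hresp
    · apply hnr k b ?_ hresp
      by_contra hcon
      push Not at hcon
      apply hne
      have h1 : ∀ s, side s Q = side s Q' := by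
        intro s
        apply eq_of_subset_of_card_le (side_mono hsub)
        rw [hk1 s]
        exact hcon s
      rw [← side_union_side Q, ← side_union_side Q', h1 false, h1 true]

lemma hh_le (a : ℕ) : hh a ≤ a := by unfold hh; split <;> omega

lemma hh_lt {a : ℕ} (h : 4 ≤ a) : hh a < a := by unfold hh; split <;> omega

lemma cube_inter_union (t : Trial R) (C : Finset (G R)) :
    (C ∩ cube t false) ∪ (C ∩ cube t true) = C := by
  ext p
  simp only [mem_union, mem_inter, mem_cube]
  constructor
  · rintro (h | h) <;> exact h.1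
  · intro hp
    have h1 := wd_not t false (p.1, p.2.1)
    simp only [Bool.not_false] at h1
    rw [h1]
    cases h2 : p.2.2 <;> cases h3 : wd t false (p.1, p.2.1) <;> simp [hp, h2, h3]

theorem fam_covers {q e : ℕ} (C : Finset (G R)) (hC1 : ¬ Unsafe T C) (hC2 : ¬ Exc T om q e C)
    (hgood : ∃ i : Idx R M, (∀ s, (i.1 s : ℕ) = typ C s) ∧ GoodTrial T om i.1 C (om i)) :
    ∃ Q Q', InFam T om Q ∧ InFam T om Q' ∧ Q ≠ Q' ∧ Q ∪ Q' = C := by
  have hcard : 8 < C.card := by
    by_contra hcon
    exact hC2 (Or.inl (by omega))
  have hcards : (side false C).card + (side true C).card = C.card := by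
    rw [← card_union_of_disjoint, side_union_side]
    rw [Finset.disjoint_left]
    intro p h1 h2
    rw [mem_side] at h1 h2
    rw [h1.2] at h2
    exact absurd h2.2 (by decide)
  by_cases hneed : (∃ s, (side s C).card ≤ 3) ∨ ∃ s, Weak T om s (side s C).card C
  · -- second stage
    obtain ⟨i, hi1, hi2, hi3, hi4⟩ := hgood
    have hmem : ∀ b, InFam T om (C ∩ cube (om i) b) := by
      intro b
      refine Or.inr ⟨⟨⟨i, b, fun s => hi3 b s, ?_⟩, ?_⟩, ?_⟩
      · refine ⟨inter_subset_right, fun s => (hi3 b s).le, ?_⟩
        rcases hneed with ⟨s, hs⟩ | ⟨s, hs⟩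
        · left
          refine ⟨s, ?_⟩
          rw [hi1 s]
          exact (hh_le _).trans hs
        · right
          exact ⟨s, (side s C).card, side_card_le _ _, (hi1 s).symm, weak_mono inter_subset_left hs⟩
      · intro s a j ha hsub
        have h1 := card_le_card hsub
        rw [card_tag, hi3 b (!s), hi1 (!s)] at h1
        have h2 : (side (!s) C).card ≤ 2 := by
          unfold typ hh at h1
          split at h1 <;> omega
        have h3 : (side (!s) (C ∩ cube (om i) b)).card = (side (!s) C).card := by
          rw [hi3 b (!s), hi1 (!s)]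
          unfold typ hh
          split <;> omega
        have h4 : side (!s) (C ∩ cube (om i) b) = side (!s) C :=
          eq_of_subset_of_card_le (side_mono inter_subset_left) h3.ge
        apply hC1
        exact ⟨s, a, j, ha, by rw [← h4]; exact hsub⟩
      · rintro k b' ⟨s, hs⟩
        apply hi4 k b'
        intro hk
        rw [hi3 b s, ← hk] at hs
        exact lt_irrefl _ hs
    refine ⟨C ∩ cube (om i) false, C ∩ cube (om i) true, hmem false, hmem true, ?_,
      cube_inter_union _ _⟩
    intro heq
    have h1 := cube_inter_union (om i) C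
    rw [← heq, union_self] at h1
    have h2 : ∃ s, 4 ≤ (side s C).card := by
      by_contra hcon
      push Not at hcon
      have := hcon false
      have := hcon true
      omega
    obtain ⟨s, hs⟩ := h2
    have h3 := hi3 false s
    rw [h1, hi1 s] at h3
    have := hh_lt hs
    unfold typ at h3
    omega
  · -- main members
    push Not at hneed
    obtain ⟨hn1, hn2⟩ := hneed
    have hex : ∀ s, ∃ i, tag T s (side s C).card i ⊆ C ∧
        InFam T om (side s C ∪ tag T s (side s C).card i) := by
      intro s
      have h1 := hn2 s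
      unfold Weak at h1
      push Not at h1
      obtain ⟨⟨i, hi⟩, h2⟩ := h1
      refine ⟨i, hi, Or.inl ⟨⟨s, side s C, i, fun p hp => (mem_side.1 hp).2, by
        have := hn1 s; omega, rfl⟩, ?_⟩⟩
      intro k b hr
      obtain ⟨hr1, hr2, _⟩ := hr
      have hA : ∀ p ∈ side s C, p.1 = s := fun p hp => (mem_side.1 hp).2
      have h3 := hr2 s
      rw [(side_main (T := T) hA _ i).1] at h3
      exact h2 k b h3 (subset_union_left.trans hr1)
    obtain ⟨i0, hi0, hf0⟩ := hex false
    obtain ⟨i1, hi1, hf1⟩ := hex true
    refine ⟨_, _, hf0, hf1, ?_, ?_⟩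
    · intro heq
      have hA0 : ∀ p ∈ side false C, p.1 = false := fun p hp => (mem_side.1 hp).2
      have hA1 : ∀ p ∈ side true C, p.1 = true := fun p hp => (mem_side.1 hp).2
      have h1 := (side_main (T := T) hA0 (side false C).card i0).1
      have h2 := (side_main (T := T) hA1 (side true C).card i1).2
      simp only [Bool.not_true] at h2
      rw [heq, h2] at h1
      have h3 := congrArg Finset.card h1
      rw [card_tag] at h3
      have := hn1 false
      omega
    · apply Subset.antisymm
      · apply union_subset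
        · exact union_subset (side_subset _ _) hi0
        · exact union_subset (side_subset _ _) hi1
      · intro p hp
        rw [← side_union_side C, mem_union] at hp
        rw [mem_union, mem_union, mem_union]
        rcases hp with hp | hp
        · exact Or.inl (Or.inl hp)
        · exact Or.inr (Or.inl hp)

end Pool.Agent.Lib.MP_e9f532_co.Nl.Str
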