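import Mathlib
import Pool.Agent.Lib.MP_e9f532_co.Nl.Defs

set_option autoImplicit false

/-! Module V4 (TagsExist). `R' = R / 2`, level `a` = (shift `a % R'`, block `a / R'`), left ends
`u ∈ [K * block, K * (block + 1))`, right ends `R' + (u + shift) % R'`. -/

namespace Pool.Agent.Lib.MP_e9f532_co.Nl

open Finset

theorem exists_tags {R K : ℕ} (hK : 1 ≤ K) (hR : 12 * K ≤ R) : Nonempty (Tags R K) := by
  obtain ⟨R', hR'⟩ : ∃ R', R' = R / 2 := ⟨_, rfl⟩
  have h1 : 2 * R' ≤ R := by omega
  have h2 : R ≤ 2 * R' + 1 := by omega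
  have h3 : 6 * K ≤ R' := by omega
  have h4 : 0 < R' := by omega
  have hb : ∀ a, K * min (a / R') 4 ≤ 4 * K := by
    intro a
    have : min (a / R') 4 ≤ 4 := min_le_right _ _
    nlinarith
  have hl : ∀ a (i : Fin K), K * min (a / R') 4 + i.1 < R' := by
    intro a i
    have := hb a
    have := i.2
    omega
  have hr : ∀ x, R' + x % R' < R := by
    intro x
    have := Nat.mod_lt x h4
    omega
  refine ⟨{ l := fun a i => ⟨K * min (a / R') 4 + i.1, by have := hl a i; omega⟩
            r := fun a i => ⟨R' + (K * min (a / R') 4 + i.1 + a) % R', hr _⟩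
            ne := ?_, injl := ?_, injr := ?_, inj := ?_ }⟩
  · intro a i a' i' h
    have h := congrArg Fin.val h
    simp only at h
    have := hl a i
    omega
  · intro a i i' h
    have h := congrArg Fin.val h
    simp only at h
    exact Fin.ext (by omega)
  · intro a i i' h
    have h := congrArg Fin.val h
    simp only at h
    have h' : (K * min (a / R') 4 + i.1 + a) % R' = (K * min (a / R') 4 + i'.1 + a) % R' := by omega
    have h5 : (K * min (a / R') 4 + i.1) ≡ (K * min (a / R') 4 + i'.1) [MOD R'] :=
      Nat.ModEq.add_right_cancel' a h'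
    have h6 := Nat.ModEq.eq_of_lt_of_lt h5 (hl a i) (hl a i')
    exact Fin.ext (by omega)
  · intro a a' i i' ha ha' h h'
    have h := congrArg Fin.val h
    have h' := congrArg Fin.val h'
    simp only at h h'
    have hq : ∀ b, b ≤ 2 * R → b / R' ≤ 4 := by
      intro b hb
      have : b < 5 * R' := by omega
      have := Nat.div_lt_of_lt_mul (by rw [mul_comm]; exact this : b < R' * 5)
      omega
    rw [min_eq_left (hq a ha), min_eq_left (hq a' ha')] at h h'
    have hi := i.2
    have hi' := i'.2
    have hblk : a / R' = a' / R' := by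
      have e1 : (K * (a / R') + i.1) / K = a / R' := by
        rw [Nat.mul_add_div (by omega), Nat.div_eq_of_lt hi]
        rfl
      have e2 : (K * (a' / R') + i'.1) / K = a' / R' := by
        rw [Nat.mul_add_div (by omega), Nat.div_eq_of_lt hi']
        rfl
      rw [← e1, ← e2, h]
    have h5 : (K * (a / R') + i.1 + a) ≡ (K * (a / R') + i.1 + a') [MOD R'] := by
      have : (K * (a / R') + i.1 + a) % R' = (K * (a' / R') + i'.1 + a') % R' := by omega
      rw [← h] at this
      exact this
    have h6 : a % R' = a' % R' := Nat.ModEq.add_left_cancel' _ h5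
    rw [← Nat.div_add_mod a R', ← Nat.div_add_mod a' R', hblk, h6]

/-- The unsafe sets (one side inside a tag): at most `4` subsets for every tag. -/
theorem unsafe_count {R K : ℕ} (hK : 1 ≤ K) (T : Tags R K) [DecidablePred (Unsafe T)] :
    (univ.filter (fun C : Finset (G R) => Unsafe T C)).card ≤ 8 * ((2 * R + 1) * K) * 4 ^ R := by
  classical
  let S : Bool → Finset (G R) := fun s => univ.filter (fun p => p.1 = s)
  have hS : ∀ s, (S s).card ≤ 2 * R := fun s => by
    have := side_card_le s (univ : Finset (G R))
    simpa [side, S] using this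
  let F : Bool × (Fin (2 * R + 1) × Fin K) → Finset (Finset (G R)) := fun x =>
    ((tag T x.1 x.2.1 x.2.2).powerset ×ˢ (S x.1).powerset).image (fun y => y.1 ∪ y.2)
  have hF : ∀ x, (F x).card ≤ 4 * 4 ^ R := by
    intro x
    calc (F x).card ≤ ((tag T x.1 x.2.1 x.2.2).powerset ×ˢ (S x.1).powerset).card :=
          card_image_le
      _ = 2 ^ (tag T x.1 x.2.1 x.2.2).card * 2 ^ (S x.1).card := by
          rw [card_product, card_powerset, card_powerset]
      _ ≤ 2 ^ 2 * 2 ^ (2 * R) := by
          refine Nat.mul_le_mul (Nat.pow_le_pow_right (by norm_num) ?_)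
            (Nat.pow_le_pow_right (by norm_num) (hS _))
          exact card_le_two
      _ = 4 * 4 ^ R := by rw [pow_mul]; norm_num
  have hsub : (univ.filter (fun C : Finset (G R) => Unsafe T C)) ⊆
      (univ : Finset (Bool × (Fin (2 * R + 1) × Fin K))).biUnion F := by
    intro C hC
    obtain ⟨s, a, i, ha, h⟩ := (mem_filter.1 hC).2
    rw [mem_biUnion]
    refine ⟨(s, (⟨a, by omega⟩, i)), mem_univ _, ?_⟩
    rw [mem_image]
    refine ⟨(side (!s) C, side s C), ?_, ?_⟩
    · rw [mem_product, mem_powerset, mem_powerset]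
      refine ⟨h, ?_⟩
      intro p hp
      rw [mem_side] at hp
      simp [S, hp.2]
    · ext p
      rw [mem_union, mem_side, mem_side]
      constructor
      · rintro (h | h) <;> exact h.1
      · intro hp
        rcases Bool.eq_or_eq_not p.1 s with h | h
        · exact Or.inr ⟨hp, h⟩
        · exact Or.inl ⟨hp, h⟩
  calc (univ.filter (fun C : Finset (G R) => Unsafe T C)).card
      ≤ ((univ : Finset (Bool × (Fin (2 * R + 1) × Fin K))).biUnion F).card := card_le_card hsub
    _ ≤ (univ : Finset (Bool × (Fin (2 * R + 1) × Fin K))).card * (4 * 4 ^ R) :=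
        card_biUnion_le_card_mul _ _ _ (fun x _ => hF x)
    _ = 8 * ((2 * R + 1) * K) * 4 ^ R := by
        rw [card_univ, Fintype.card_prod, Fintype.card_prod, Fintype.card_bool, Fintype.card_fin,
          Fintype.card_fin]
        ring

end Pool.Agent.Lib.MP_e9f532_co.Nl
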