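import Mathlib
import Pool.Agent.Lib.MP_e9f532_co.Nl.Structure
import Pool.Agent.Lib.MP_e9f532_co.Nl.TagsExist
import Pool.Agent.Lib.MP_e9f532_co.Nl.Select
import Pool.Agent.Lib.MP_e9f532_co.Nl.ExcCount
import Pool.Agent.Lib.MP_e9f532_co.Nl.Numerics

set_option autoImplicit false

/-! The upper bound: an antichain that misses at most `C n log n 2^(n/2)` sets. -/

namespace Pool.Agent.Lib.MP_e9f532_co.Nl

open Finset

/-- Transport to an `n`-set. -/
lemma transport {α : Type} [Fintype α] [DecidableEq α] {n : ℕ} (hn : n ≤ Fintype.card α)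
    (Fam : Finset (Finset α))
    (hFam : ∀ Q ∈ Fam, ∀ Q' ∈ Fam, Q ⊆ Q' → Q = Q') (Bad : Finset (Finset α))
    (hcov : ∀ C, C ∉ Bad → ∃ Q ∈ Fam, ∃ Q' ∈ Fam, Q ≠ Q' ∧ Q ∪ Q' = C) :
    ∃ (M E : Finset (Finset (Fin n))), (∀ Q ∈ M, ∀ Q' ∈ M, Q ⊆ Q' → Q = Q') ∧
      E.card ≤ Bad.card ∧ ∀ D, D ∉ E → ∃ Q ∈ M, ∃ Q' ∈ M, Q ≠ Q' ∧ Q ∪ Q' = D := by
  classical
  have hcard : Fintype.card (Fin n) ≤ Fintype.card α := by simpa using hn
  obtain ⟨e⟩ := Function.Embedding.nonempty_of_card_le hcard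
  refine ⟨univ.filter (fun P => P.map e ∈ Fam), univ.filter (fun P => P.map e ∈ Bad), ?_, ?_, ?_⟩
  · intro Q hQ Q' hQ' hsub
    rw [mem_filter] at hQ hQ'
    have := hFam _ hQ.2 _ hQ'.2 (map_subset_map.2 hsub)
    exact map_injective e this
  · apply card_le_card_of_injOn (fun P => P.map e)
    · intro P hP
      simp only [coe_filter, mem_univ, true_and, Set.mem_setOf_eq] at hP
      exact hP
    · intro P _ P' _ h
      exact map_injective e h
  · intro D hD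
    rw [mem_filter, not_and] at hD
    obtain ⟨Q, hQ, Q', hQ', hne, hun⟩ := hcov _ (hD (mem_univ _))
    have h1 : Q ⊆ D.map e := by rw [← hun]; exact subset_union_left
    have h2 : Q' ⊆ D.map e := by rw [← hun]; exact subset_union_right
    obtain ⟨P, hPD, hP⟩ := subset_map_iff.1 h1
    obtain ⟨P', hPD', hP'⟩ := subset_map_iff.1 h2
    refine ⟨P, ?_, P', ?_, ?_, ?_⟩
    · rw [mem_filter]; exact ⟨mem_univ _, by rw [← hP]; exact hQ⟩
    · rw [mem_filter]; exact ⟨mem_univ _, by rw [← hP']; exact hQ'⟩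
    · intro h; apply hne; rw [hP, hP', h]
    · apply map_injective e
      rw [map_union, ← hP, ← hP', hun]

lemma upper_pairs : ∃ (R₀ : ℕ) (c : ℝ), 0 < c ∧ ∀ R ≥ R₀, ∃ (Fam Bad : Finset (Finset (G R))),
    (∀ Q ∈ Fam, ∀ Q' ∈ Fam, Q ⊆ Q' → Q = Q') ∧
    (Bad.card : ℝ) ≤ c * (R * Real.log R) * 4 ^ R ∧
    ∀ C, C ∉ Bad → ∃ Q ∈ Fam, ∃ Q' ∈ Fam, Q ≠ Q' ∧ Q ∪ Q' = C := by
  classical
  obtain ⟨R₀, c, hnum⟩ := numerics
  refine ⟨R₀, 32 * |c| + 1, by positivity, fun R hR => ?_⟩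
  obtain ⟨K, M, q, e, d, h10, hK1, hKR, heK, hKc, n1, n2, n3, n4, n5⟩ := hnum R hR
  obtain ⟨T⟩ := exists_tags hK1 hKR
  obtain ⟨om, hfar, hrich, hgood⟩ := exists_om (q := q) (e := e) (d := d) h10 T n1 n2 n3 n4
  refine ⟨univ.filter (fun P => InFam T om P),
    (univ.filter (fun C => Unsafe T C)) ∪ (univ.filter (fun C => Exc T om q e C)), ?_, ?_, ?_⟩
  · intro Q hQ Q' hQ' hsub
    rw [mem_filter] at hQ hQ'
    exact Str.fam_antichain hQ.2 hQ'.2 hsub
  · have h1 := unsafe_count hK1 T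
    have h2 := exc_count (q := q) T om heK hfar hrich
    have h3 : ((univ.filter (fun C : Finset (G R) => Unsafe T C)).card : ℝ) ≤
        8 * ((2 * R + 1) * K) * 4 ^ R := by exact_mod_cast h1
    have h4 : (((univ.filter (fun C : Finset (G R) => Unsafe T C)) ∪
        (univ.filter (fun C => Exc T om q e C))).card : ℝ) ≤
        (univ.filter (fun C : Finset (G R) => Unsafe T C)).card +
        (univ.filter (fun C => Exc T om q e C)).card := by
      exact_mod_cast card_union_le _ _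
    have hR1 : (10 : ℝ) ≤ R := by exact_mod_cast h10
    have hlog : (1 : ℝ) ≤ Real.log R := by
      rw [Real.le_log_iff_exp_le (by linarith)]
      have := Real.exp_one_lt_d9
      linarith
    have h5 : (8 : ℝ) * ((2 * R + 1) * K) ≤ 32 * |c| * (R * Real.log R) := by
      have h6 : (K : ℝ) ≤ |c| * Real.log R :=
        hKc.trans (mul_le_mul_of_nonneg_right (le_abs_self c) (by linarith))
      have h7 : (2 * (R : ℝ) + 1) ≤ 4 * R := by linarith
      calc (8 : ℝ) * ((2 * R + 1) * K) ≤ 8 * ((4 * R) * (|c| * Real.log R)) := by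
            apply mul_le_mul_of_nonneg_left _ (by norm_num)
            exact mul_le_mul h7 h6 (by positivity) (by positivity)
        _ = 32 * |c| * (R * Real.log R) := by ring
    have h8 : (1 : ℝ) ≤ R * Real.log R := by nlinarith
    have h9 : (0 : ℝ) < 4 ^ R := by positivity
    calc _ ≤ 8 * ((2 * (R : ℝ) + 1) * K) * 4 ^ R + 4 ^ R := by linarith [h2.trans n5]
      _ ≤ 32 * |c| * (R * Real.log R) * 4 ^ R + (R * Real.log R) * 4 ^ R := by
          apply add_le_add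
          · exact mul_le_mul_of_nonneg_right h5 h9.le
          · nlinarith
      _ = (32 * |c| + 1) * (R * Real.log R) * 4 ^ R := by ring
  · intro C hC
    rw [mem_union, not_or, mem_filter, mem_filter, not_and, not_and] at hC
    have h1 := hC.1 (mem_univ _)
    have h2 := hC.2 (mem_univ _)
    obtain ⟨Q, Q', hQ, hQ', hne, hun⟩ := Str.fam_covers C h1 h2 (hgood C h2)
    exact ⟨Q, by rw [mem_filter]; exact ⟨mem_univ _, hQ⟩, Q',
      by rw [mem_filter]; exact ⟨mem_univ _, hQ'⟩, hne, hun⟩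

/-- **Upper bound for the number of missing sets.** -/
theorem upper_main : ∃ c : ℝ, ∀ n : ℕ, 2 ≤ n → ∃ (M E : Finset (Finset (Fin n))),
    (∀ Q ∈ M, ∀ Q' ∈ M, Q ⊆ Q' → Q = Q') ∧
      (E.card : ℝ) ≤ c * (n * Real.log n) * (Real.sqrt 2) ^ n ∧
      ∀ D, D ∉ E → ∃ Q ∈ M, ∃ Q' ∈ M, Q ≠ Q' ∧ Q ∪ Q' = D := by
  obtain ⟨R₀, c, hc, hR₀⟩ := upper_pairs
  have hsq1 : 1 < Real.sqrt 2 := by
    rw [Real.lt_sqrt (by norm_num)]; norm_num
  have hsq2 : Real.sqrt 2 * Real.sqrt 2 = 2 := Real.mul_self_sqrt (by norm_num)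
  have hsq3 : Real.sqrt 2 ≤ 3 / 2 := by
    rw [Real.sqrt_le_left (by norm_num)]; norm_num
  refine ⟨max (4 * c) ((2 : ℝ) ^ (4 * R₀ + 1)), fun n hn => ?_⟩
  have hn1 : (2 : ℝ) ≤ n := by exact_mod_cast hn
  have hlog2 : (0.6931471803 : ℝ) < Real.log 2 := Real.log_two_gt_d9
  have hlogn : Real.log 2 ≤ Real.log n := Real.log_le_log (by norm_num) hn1
  have hnl : (1 : ℝ) ≤ n * Real.log n := by nlinarith
  have hp : (1 : ℝ) ≤ (Real.sqrt 2) ^ n := one_le_pow₀ hsq1.le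
  obtain ⟨R, hR1, hR2⟩ : ∃ R, n ≤ 4 * R ∧ 4 * R ≤ n + 3 := ⟨(n + 3) / 4, by omega, by omega⟩
  rcases Nat.lt_or_ge R R₀ with hlt | hge
  · refine ⟨∅, univ, by simp, ?_, fun D hD => absurd (mem_univ D) hD⟩
    have h1 : ((univ : Finset (Finset (Fin n))).card : ℝ) = 2 ^ n := by
      simp
    rw [h1]
    have h2 : (2 : ℝ) ^ n ≤ 2 ^ (4 * R₀ + 1) := pow_le_pow_right₀ (by norm_num) (by omega)
    have h3 : (2 : ℝ) ^ (4 * R₀ + 1) ≤ max (4 * c) ((2 : ℝ) ^ (4 * R₀ + 1)) := le_max_right _ _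
    have h4 : (0 : ℝ) < max (4 * c) ((2 : ℝ) ^ (4 * R₀ + 1)) := lt_max_of_lt_right (by positivity)
    calc (2 : ℝ) ^ n ≤ max (4 * c) ((2 : ℝ) ^ (4 * R₀ + 1)) * 1 * 1 := by linarith
      _ ≤ max (4 * c) ((2 : ℝ) ^ (4 * R₀ + 1)) * (n * Real.log n) * (Real.sqrt 2) ^ n := by
          apply mul_le_mul _ hp (by norm_num) (by positivity)
          exact mul_le_mul_of_nonneg_left hnl h4.le
  · obtain ⟨Fam, Bad, h1, h2, h3⟩ := hR₀ R hge
    have hcard : n ≤ Fintype.card (G R) := by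
      simp only [Fintype.card_prod, Fintype.card_bool, Fintype.card_fin]
      omega
    obtain ⟨M, E, hM, hE, hcov⟩ := transport hcard Fam h1 Bad h3
    refine ⟨M, E, hM, ?_, hcov⟩
    have h4 : (E.card : ℝ) ≤ c * (R * Real.log R) * 4 ^ R :=
      le_trans (by exact_mod_cast hE) h2
    refine h4.trans ?_
    have hR1' : 1 ≤ R := by omega
    have hRr : (1 : ℝ) ≤ R := by exact_mod_cast hR1'
    have h5 : (R : ℝ) ≤ n := by
      have : R ≤ n := by omega
      exact_mod_cast this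
    have h5l : Real.log R ≤ Real.log n := Real.log_le_log (by linarith) h5
    have h5l0 : 0 ≤ Real.log R := Real.log_nonneg hRr
    have h6 : (4 : ℝ) ^ R ≤ 4 * (Real.sqrt 2) ^ n := by
      have h7 : (4 : ℝ) ^ R = (Real.sqrt 2) ^ (4 * R) := by
        have : (Real.sqrt 2) ^ 4 = 4 := by
          calc (Real.sqrt 2) ^ 4 = (Real.sqrt 2 * Real.sqrt 2) * (Real.sqrt 2 * Real.sqrt 2) := by
                ring
            _ = 4 := by rw [hsq2]; norm_num
        rw [pow_mul, this]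
      rw [h7]
      calc (Real.sqrt 2) ^ (4 * R) ≤ (Real.sqrt 2) ^ (n + 3) := pow_le_pow_right₀ hsq1.le hR2
        _ = (Real.sqrt 2) ^ n * (Real.sqrt 2) ^ 3 := pow_add _ _ _
        _ ≤ (Real.sqrt 2) ^ n * 4 := by
            apply mul_le_mul_of_nonneg_left _ (by positivity)
            calc (Real.sqrt 2) ^ 3 ≤ (3 / 2) ^ 3 := pow_le_pow_left₀ (by positivity) hsq3 3
              _ ≤ 4 := by norm_num
        _ = 4 * (Real.sqrt 2) ^ n := by ring
    have h8 : (R : ℝ) * Real.log R ≤ n * Real.log n :=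
      mul_le_mul h5 h5l h5l0 (by positivity)
    calc c * (R * Real.log R) * 4 ^ R ≤ c * (n * Real.log n) * (4 * (Real.sqrt 2) ^ n) := by
          apply mul_le_mul _ h6 (by positivity) (by positivity)
          exact mul_le_mul_of_nonneg_left h8 hc.le
      _ = (4 * c) * (n * Real.log n) * (Real.sqrt 2) ^ n := by ring
      _ ≤ max (4 * c) ((2 : ℝ) ^ (4 * R₀ + 1)) * (n * Real.log n) * (Real.sqrt 2) ^ n := by
          apply mul_le_mul_of_nonneg_right _ (by positivity)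
          apply mul_le_mul_of_nonneg_right (le_max_left _ _) (by positivity)

end Pool.Agent.Lib.MP_e9f532_co.Nl
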